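import Mathlib

/-!
# Petrie schemes of polytopes: definitions
-/

namespace Pool.Agent.H20.Petrie

/-! ## Polytopes, flags, Petrie schemes -/

/-- A polytope, given by its nonempty faces (the polytope itself included) ordered by inclusion,
the rank (dimension) of every face, and the dimension of the polytope. -/
structure Pol where
  /-- the nonempty faces -/
  Face : Type
  [ord : PartialOrder Face]
  /-- the rank of a face -/
  rank : Face → ℕ
  /-- the dimension `n` of the polytope -/
  dim : ℕ

attribute [instance] Pol.ord

/-- A flag of an `n`-polytope: a chain of proper faces, one of every rank `0, …, n-1`. -/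
structure IsFlag (P : Pol) (Φ : Fin P.dim → P.Face) : Prop where
  rank_eq : ∀ i, P.rank (Φ i) = i
  mono : Monotone Φ

/-- `Φ` and `Ψ` differ exactly in the face of rank `i`. -/
def Adj (P : Pol) (i : Fin P.dim) (Φ Ψ : Fin P.dim → P.Face) : Prop :=
  Φ i ≠ Ψ i ∧ ∀ j, j ≠ i → Φ j = Ψ j

/-- `Ψ = Φ γ`, where `γ = γ_{π 0} γ_{π 1} ⋯ γ_{π (n-1)}`: the flag `Ψ` is reached from the flag `Φ`
by passing to the `π 0`-adjacent flag, then to its `π 1`-adjacent flag, and so on. -/
def IsStep (P : Pol) (π : Equiv.Perm (Fin P.dim)) (Φ Ψ : Fin P.dim → P.Face) : Prop :=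
  ∃ G : Fin (P.dim + 1) → (Fin P.dim → P.Face), G 0 = Φ ∧ G (Fin.last _) = Ψ ∧
    (∀ k, IsFlag P (G k)) ∧ ∀ k : Fin P.dim, Adj P (π k) (G k.castSucc) (G k.succ)

/-- The two-sided sequence `(Ψ γ^k)_{k ∈ ℤ}` of a Petrie scheme, where
`γ = γ_{π 0} γ_{π 1} ⋯ γ_{π (n-1)}`. -/
def IsPetrie (P : Pol) (π : Equiv.Perm (Fin P.dim)) (Φ : ℤ → Fin P.dim → P.Face) : Prop :=
  ∀ k, IsStep P π (Φ k) (Φ (k + 1))

/-- The Petrie scheme given by the two-sided sequence `Φ` is acoptic: if a proper face occurs in
the flags at the positions `s` and `t`, then these are the same position of the repeating cycle,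
i.e. `t - s` is a period of the sequence. -/
def Acoptic (P : Pol) (Φ : ℤ → Fin P.dim → P.Face) : Prop :=
  ∀ (s t : ℤ) (i : Fin P.dim), Φ s i = Φ t i → ∀ k, Φ (k + s) = Φ (k + t)

/-- All Petrie schemes of `P`, over all permutations and all flags, are acoptic. -/
def OnlyAcoptic (P : Pol) : Prop :=
  ∀ (π : Equiv.Perm (Fin P.dim)) (Φ : ℤ → Fin P.dim → P.Face), IsPetrie P π Φ → Acoptic P Φ

/-- The faces of rank `i` occur in at most one flag of the Petrie scheme given by `Φ` (in the sense
of `Acoptic`, which is the conjunction of this over all ranks `i`). -/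
def AcopticIn (P : Pol) (Φ : ℤ → Fin P.dim → P.Face) (i : Fin P.dim) : Prop :=
  ∀ s t : ℤ, Φ s i = Φ t i → ∀ k, Φ (k + s) = Φ (k + t)

/-! ## Cartesian products, cubes -/

/-- The Cartesian product of finitely many polytopes: its nonempty faces are the products of
nonempty faces of the factors. -/
def Pol.prod {m : ℕ} (P : Fin m → Pol) : Pol where
  Face := ∀ j, (P j).Face
  rank x := ∑ j, (P j).rank (x j)
  dim := ∑ j, (P j).dim

/-- The nonempty faces of a segment: its two end points and the segment. -/
inductive SegFace
  | left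
  | right
  | whole
  deriving DecidableEq

instance : LE SegFace := ⟨fun x y => x = y ∨ y = .whole⟩

instance (x y : SegFace) : Decidable (x ≤ y) := inferInstanceAs (Decidable (x = y ∨ y = .whole))

instance : PartialOrder SegFace where
  le_refl x := Or.inl rfl
  le_trans x y z hxy hyz := by
    rcases hyz with rfl | rfl
    · exact hxy
    · exact Or.inr rfl
  le_antisymm x y hxy hyx := by
    rcases hxy with h | h
    · exact h
    · rcases hyx with h' | h'
      · exact h'.symm
      · rw [h, h']

/-- The rank of a face of a segment. -/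
def SegFace.rank : SegFace → ℕ
  | .left => 0
  | .right => 0
  | .whole => 1

/-- The segment. -/
def segment : Pol := ⟨SegFace, SegFace.rank, 1⟩

/-- The `d`-cube, the Cartesian product of `d` segments. -/
def cube (d : ℕ) : Pol := Pol.prod (fun _ : Fin d => segment)

/-! ## Cross-polytopes -/

/-- The proper nonempty faces of the `d`-crosspolytope with vertices `± e_1, …, ± e_d` (the vertex
`e_i` is `(i, true)`, the vertex `- e_i` is `(i, false)`): the nonempty sets of vertices without
a pair of antipodal vertices. -/
def CrossProper (d : ℕ) : Type :=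
  {s : Finset (Fin d × Bool) // s.Nonempty ∧ ∀ i, ¬ ((i, true) ∈ s ∧ (i, false) ∈ s)}

instance (d : ℕ) : PartialOrder (CrossProper d) :=
  inferInstanceAs (PartialOrder {s : Finset (Fin d × Bool) //
    s.Nonempty ∧ ∀ i, ¬ ((i, true) ∈ s ∧ (i, false) ∈ s)})

/-- The rank of a nonempty face of the `d`-crosspolytope; `⊤` is the polytope itself. -/
def crossRank (d : ℕ) : WithTop (CrossProper d) → ℕ
  | ⊤ => d
  | (s : CrossProper d) => s.1.card - 1

/-- The `d`-crosspolytope. -/
def cross (d : ℕ) : Pol := ⟨WithTop (CrossProper d), crossRank d, d⟩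

/-! ## Polygons -/

/-- The nonempty faces of an `N`-gon: the vertices, the edges (the edge `i` joins the vertices `i`
and `i + 1`) and the polygon. -/
inductive PolygonFace (N : ℕ)
  | vertex (i : ZMod N)
  | edge (i : ZMod N)
  | whole

/-- Inclusion of faces of an `N`-gon. -/
inductive PolygonFace.Le {N : ℕ} : PolygonFace N → PolygonFace N → Prop
  | refl (x : PolygonFace N) : Le x x
  | first (i : ZMod N) : Le (.vertex i) (.edge i)
  | second (i : ZMod N) : Le (.vertex (i + 1)) (.edge i)
  | whole (x : PolygonFace N) : Le x .whole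

instance (N : ℕ) : PartialOrder (PolygonFace N) where
  le := PolygonFace.Le
  le_refl := PolygonFace.Le.refl
  le_trans x y z hxy hyz := by
    cases hyz with
    | refl => exact hxy
    | first i => cases hxy; exact .first i
    | second i => cases hxy; exact .second i
    | whole => exact .whole x
  le_antisymm x y hxy hyx := by
    cases hxy with
    | refl => rfl
    | first i => cases hyx
    | second i => cases hyx
    | whole => cases hyx <;> rfl

/-- The rank of a face of an `N`-gon. -/
def PolygonFace.rank {N : ℕ} : PolygonFace N → ℕ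
  | .vertex _ => 0
  | .edge _ => 1
  | .whole => 2

/-- The `N`-gon. -/
def polygon (N : ℕ) : Pol := ⟨PolygonFace N, PolygonFace.rank, 2⟩

/-! ## Products of cubes, crosspolytopes and polygons -/

/-- The names of the `d`-cube, the `d`-crosspolytope and the `N`-gon. -/
inductive Factor
  | cube (d : ℕ)
  | cross (d : ℕ)
  | gon (N : ℕ)

/-- The polytope with the given name. -/
def Factor.pol : Factor → Pol
  | .cube d => Petrie.cube d
  | .cross d => Petrie.cross d
  | .gon N => Petrie.polygon N

/-- Cubes and crosspolytopes have dimension at least one, polygons have at least three vertices. -/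
def Factor.Valid : Factor → Prop
  | .cube d => 1 ≤ d
  | .cross d => 1 ≤ d
  | .gon N => 3 ≤ N

/-- The product of the factors with the given names. -/
def prodOf {m : ℕ} (F : Fin m → Factor) : Pol := Pol.prod fun j => (F j).pol

end Pool.Agent.H20.Petrie
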