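import Mathlib
import Pool.Agent.H20.Petrie.Defs

/-!
# Petrie schemes as arrays

For the order `γ = γ_0 γ_1 ⋯ γ_{n-1}` a Petrie scheme is an array `E u r` (`u` the position, `r < n`
the rank) in which `E u r` and `E (u + 1) r` are the two faces of rank `r` between
`E (u + 1) (r - 1)` and `E u (r + 1)`. For an arbitrary permutation one gets such an array after
shifting the sequence of faces of rank `r` by an amount that depends on `r`.
-/

namespace Pool.Agent.H20.Petrie

/-- A Petrie array. -/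
structure Arr (P : Pol) (E : ℕ → ℕ → P.Face) : Prop where
  rank_eq : ∀ u r, r < P.dim → P.rank (E u r) = r
  le1 : ∀ u r, r + 1 < P.dim → E u r ≤ E u (r + 1)
  le2 : ∀ u r, r + 1 < P.dim → E (u + 1) r ≤ E u (r + 1)
  ne : ∀ u r, r < P.dim → E u r ≠ E (u + 1) r

/-- Every Petrie array of `P` has period `p` and is injective modulo `p` in every rank. -/
def Good (P : Pol) (p : ℕ) : Prop :=
  ∀ E, Arr P E → (∀ u r, r < P.dim → E (u + p) r = E u r) ∧
    (∀ u k r, r < P.dim → E u r = E (u + k) r → p ∣ k)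

section Step

variable {P : Pol} {π : Equiv.Perm (Fin P.dim)} {Φ Ψ : Fin P.dim → P.Face}
  {G : Fin (P.dim + 1) → (Fin P.dim → P.Face)}

lemma old_of_le (h0 : G 0 = Φ) (hadj : ∀ k : Fin P.dim, Adj P (π k) (G k.castSucc) (G k.succ))
    (r : Fin P.dim) : ∀ l : ℕ, ∀ hl : l < P.dim + 1, l ≤ (π.symm r : ℕ) → G ⟨l, hl⟩ r = Φ r := by
  intro l
  induction l with
  | zero => intro hl _; rw [← h0]; rfl
  | succ l ih =>
    intro hl hle
    have hl' : l < P.dim := by omega
    have h1 := (hadj ⟨l, hl'⟩).2 r (by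
      intro h
      have : π.symm r = ⟨l, hl'⟩ := by rw [h]; simp
      rw [this] at hle
      simp at hle)
    have h2 := ih (by omega) (by omega)
    rw [← h2]
    exact h1.symm

lemma new_of_gt (h1 : G (Fin.last _) = Ψ)
    (hadj : ∀ k : Fin P.dim, Adj P (π k) (G k.castSucc) (G k.succ))
    (r : Fin P.dim) : ∀ j : ℕ, ∀ l : ℕ, ∀ hl : l < P.dim + 1, l + j = P.dim →
      (π.symm r : ℕ) < l → G ⟨l, hl⟩ r = Ψ r := by
  intro j
  induction j with
  | zero =>
    intro l hl hj _
    have h2 : (⟨l, hl⟩ : Fin (P.dim + 1)) = Fin.last _ := Fin.ext (by simpa using hj)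
    rw [h2, h1]
  | succ j ih =>
    intro l hl hj hlt
    have hl' : l < P.dim := by omega
    have h2 := (hadj ⟨l, hl'⟩).2 r (by
      intro h
      have : π.symm r = ⟨l, hl'⟩ := by rw [h]; simp
      rw [this] at hlt
      simp at hlt)
    have h3 := ih (l + 1) (by omega) (by omega) (by omega)
    rw [← h3]
    exact h2

/-- The facts about a step that we need. -/
lemma step_facts (h : IsStep P π Φ Ψ) :
    IsFlag P Φ ∧ IsFlag P Ψ ∧ (∀ r, Φ r ≠ Ψ r) ∧
    ∀ r s : Fin P.dim, (r : ℕ) + 1 = s →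
      ((π.symm r : ℕ) < π.symm s → Ψ r ≤ Φ s) ∧ ((π.symm s : ℕ) < π.symm r → Φ r ≤ Ψ s) := by
  obtain ⟨G, h0, h1, hflag, hadj⟩ := h
  refine ⟨h0 ▸ hflag 0, h1 ▸ hflag _, ?_, ?_⟩
  · intro r
    have h2 := (hadj (π.symm r)).1
    rw [Equiv.apply_symm_apply] at h2
    have h3 := old_of_le h0 hadj r (π.symm r) (by omega) le_rfl
    have h4 := new_of_gt h1 hadj r (P.dim - (π.symm r + 1)) (π.symm r + 1) (by omega) (by omega)
      (by omega)
    have e1 : G (π.symm r).castSucc r = Φ r := h3
    have e2 : G (π.symm r).succ r = Ψ r := h4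
    rw [← e1, ← e2]
    exact h2
  · intro r s hrs
    constructor
    · intro hlt
      have h3 := new_of_gt h1 hadj r (P.dim - (π.symm r + 1)) (π.symm r + 1) (by omega) (by omega)
        (by omega)
      have h4 := old_of_le h0 hadj s (π.symm r + 1) (by omega) (by omega)
      rw [← h3, ← h4]
      apply (hflag _).mono
      rw [Fin.le_def]
      omega
    · intro hlt
      have h3 := new_of_gt h1 hadj s (P.dim - (π.symm s + 1)) (π.symm s + 1) (by omega) (by omega)
        (by omega)
      have h4 := old_of_le h0 hadj r (π.symm s + 1) (by omega) (by omega)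
      rw [← h3, ← h4]
      apply (hflag _).mono
      rw [Fin.le_def]
      omega

end Step

/-- The shifts. -/
def shift (P : Pol) (π : Equiv.Perm (Fin P.dim)) : ℕ → ℕ
  | 0 => 0
  | r + 1 => shift P π r + if h : r + 1 < P.dim then
      (if (π.symm ⟨r + 1, h⟩ : ℕ) < π.symm ⟨r, by omega⟩ then 1 else 0) else 0

/-- The arrays of a Petrie scheme. -/
lemma arrays_of_petrie {P : Pol} {π : Equiv.Perm (Fin P.dim)} {Φ : ℤ → Fin P.dim → P.Face}
    (hd : 0 < P.dim) (hΦ : IsPetrie P π Φ) : ∃ E : ℤ → ℕ → ℕ → P.Face,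
      (∀ b u r, ∀ hr : r < P.dim, E b u r = Φ (b + u + shift P π r) ⟨r, hr⟩) ∧
      ∀ b, Arr P (E b) := by
  -- the array based at `b`
  set E : ℤ → ℕ → ℕ → P.Face := fun b u r =>
    Φ (b + u + shift P π r) ⟨min r (P.dim - 1), by omega⟩ with hE
  have hEr : ∀ b u r, ∀ hr : r < P.dim, E b u r = Φ (b + u + shift P π r) ⟨r, hr⟩ := by
    intro b u r hr
    simp only [hE]
    congr 2
    omega
  have harr : ∀ b, Arr P (E b) := by
    intro b
    refine ⟨?_, ?_, ?_, ?_⟩
    · intro u r hr
      rw [hEr b u r hr]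
      exact (step_facts (hΦ _)).1.rank_eq _
    · intro u r hr
      rw [hEr b u r (by omega), hEr b u (r + 1) hr]
      have hs : shift P π (r + 1) = shift P π r +
          (if (π.symm ⟨r + 1, hr⟩ : ℕ) < π.symm ⟨r, by omega⟩ then 1 else 0) := by
        rw [shift, dif_pos hr]
      rw [hs]
      split_ifs with h
      · have h2 := ((step_facts (hΦ (b + u + shift P π r))).2.2.2 ⟨r, by omega⟩ ⟨r + 1, hr⟩ rfl).2 h
        have e : b + (u : ℤ) + ((shift P π r + 1 : ℕ) : ℤ) = b + u + shift P π r + 1 := by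
          push_cast; ring
        rw [e]
        exact h2
      · rw [add_zero]
        apply (step_facts (hΦ _)).1.mono
        rw [Fin.le_def]
        simp
    · intro u r hr
      rw [hEr b (u + 1) r (by omega), hEr b u (r + 1) hr]
      have hs : shift P π (r + 1) = shift P π r +
          (if (π.symm ⟨r + 1, hr⟩ : ℕ) < π.symm ⟨r, by omega⟩ then 1 else 0) := by
        rw [shift, dif_pos hr]
      rw [hs]
      have e : b + ((u + 1 : ℕ) : ℤ) + (shift P π r : ℤ) = b + u + shift P π r + 1 := by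
        push_cast; ring
      rw [e]
      split_ifs with h
      · have e : b + (u : ℤ) + ((shift P π r + 1 : ℕ) : ℤ) = b + u + shift P π r + 1 := by
          push_cast; ring
        rw [e]
        apply (step_facts (hΦ _)).1.mono
        rw [Fin.le_def]
        simp
      · rw [add_zero]
        have hne : (π.symm ⟨r + 1, hr⟩ : ℕ) ≠ π.symm ⟨r, by omega⟩ := by
          intro hh
          have := π.symm.injective (Fin.ext hh)
          simp at this
        exact ((step_facts (hΦ (b + u + shift P π r))).2.2.2 ⟨r, by omega⟩ ⟨r + 1, hr⟩ rfl).1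
          (by omega)
    · intro u r hr
      rw [hEr b u r hr, hEr b (u + 1) r hr]
      have e : b + ((u + 1 : ℕ) : ℤ) + (shift P π r : ℤ) = b + u + shift P π r + 1 := by
        push_cast; ring
      rw [e]
      exact (step_facts (hΦ _)).2.2.1 _
  exact ⟨E, hEr, harr⟩

theorem onlyAcoptic_of_good {P : Pol} {p : ℕ} (hP : Good P p) : OnlyAcoptic P := by
  intro π Φ hΦ
  rcases Nat.eq_zero_or_pos P.dim with hd | hd
  · intro s t i
    exact absurd i.2 (by omega)
  obtain ⟨E, hEr, harr⟩ := arrays_of_petrie hd hΦ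
  -- periodicity
  have hper : ∀ k : ℤ, Φ (k + p) = Φ k := by
    intro k
    funext r
    have h1 := (hP _ (harr (k - shift P π r))).1 0 r r.2
    rw [hEr _ _ _ r.2, hEr _ _ _ r.2] at h1
    have e1 : k - (shift P π r : ℤ) + ((0 + p : ℕ) : ℤ) + (shift P π r : ℤ) = k + p := by
      push_cast; ring
    have e2 : k - (shift P π r : ℤ) + ((0 : ℕ) : ℤ) + (shift P π r : ℤ) = k := by
      push_cast; ring
    rw [e1, e2] at h1
    exact h1
  have hper' : ∀ q : ℕ, ∀ k : ℤ, Φ (k + (p * q : ℕ)) = Φ k := by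
    intro q
    induction q with
    | zero => intro k; simp
    | succ q ih =>
      intro k
      have e : k + ((p * (q + 1) : ℕ) : ℤ) = (k + (p * q : ℕ)) + p := by push_cast; ring
      rw [e, hper, ih]
  -- the main point
  have hmain : ∀ (s : ℤ) (k : ℕ) (i : Fin P.dim), Φ s i = Φ (s + k) i → ∀ x, Φ (x + s) =
      Φ (x + (s + k)) := by
    intro s k i h x
    have h1 := (hP _ (harr (s - shift P π i))).2 0 k i i.2
    rw [hEr _ _ _ i.2, hEr _ _ _ i.2] at h1
    have e1 : s - (shift P π i : ℤ) + ((0 : ℕ) : ℤ) + (shift P π i : ℤ) = s := by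
      push_cast; ring
    have e2 : s - (shift P π i : ℤ) + ((0 + k : ℕ) : ℤ) + (shift P π i : ℤ) = s + k := by
      push_cast; ring
    rw [e1, e2] at h1
    obtain ⟨q, rfl⟩ := h1 h
    rw [← add_assoc, hper']
  intro s t i h k
  rcases le_total s t with hst | hst
  · obtain ⟨j, rfl⟩ : ∃ j : ℕ, t = s + j := ⟨(t - s).toNat, by omega⟩
    exact hmain s j i h k
  · obtain ⟨j, rfl⟩ : ∃ j : ℕ, s = t + j := ⟨(s - t).toNat, by omega⟩
    exact (hmain t j i h.symm k).symm

end Pool.Agent.H20.Petrie
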