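import Mathlib
import Pool.Agent.H20.Petrie.Defs

/-!
# Regular star-polytopes: definitions

The abstract polytope of a group with string generators (its faces are cosets), the groups generated
by reflections, and the regular polytopes with fractional Schläfli symbols.
-/

namespace Pool.Agent.H20.Petrie

section Coset

variable {n : ℕ} {W : Type} [Group W] (s : Fin n → W)

/-- The subgroup generated by all generators except the `i`-th. -/
def Gam (i : ℕ) : Subgroup W := Subgroup.closure {x | ∃ j : Fin n, (j : ℕ) ≠ i ∧ s j = x}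

/-- The nonempty faces: for `0 ≤ i ≤ n`, the faces of rank `i` are the left cosets of the subgroup
generated by all generators except the `i`-th. -/
def CosetFace : Type := Σ i : Fin (n + 1), W ⧸ Gam s i

/-- The face of rank `i` that contains the group element `g`. -/
def mkF (i : Fin (n + 1)) (g : W) : CosetFace s := ⟨i, (g : W ⧸ Gam s i)⟩

variable {s}

lemma mkF_eq {i : Fin (n + 1)} {g h : W} : mkF s i g = mkF s i h ↔ g⁻¹ * h ∈ Gam s i := by
  rw [← QuotientGroup.eq]
  constructor
  · intro hh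
    have := (Sigma.mk.inj_iff.1 hh).2
    exact eq_of_heq this
  · intro hh
    rw [mkF, mkF, hh]

lemma exists_mkF (x : CosetFace s) : ∃ g, x = mkF s x.1 g := by
  obtain ⟨i, x⟩ := x
  obtain ⟨g, rfl⟩ := QuotientGroup.mk_surjective x
  exact ⟨g, rfl⟩

/-- The commutation lemma. -/
lemma closure_comm {A B : Set W} (h : ∀ a ∈ A, ∀ b ∈ B, a * b = b * a) :
    ∀ a ∈ Subgroup.closure A, ∀ b ∈ Subgroup.closure B, a * b = b * a := by
  have h1 : Subgroup.closure A ≤ Subgroup.centralizer B := by
    rw [Subgroup.closure_le]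
    intro a ha
    rw [SetLike.mem_coe, Subgroup.mem_centralizer_iff]
    intro b hb
    exact (h a ha b hb).symm
  intro a ha
  have h2 : Subgroup.closure B ≤ Subgroup.centralizer {a} := by
    rw [Subgroup.closure_le]
    intro b hb
    rw [SetLike.mem_coe, Subgroup.mem_centralizer_iff]
    intro a' ha'
    rw [Set.mem_singleton_iff] at ha'
    subst ha'
    exact ((Subgroup.mem_centralizer_iff.1 (h1 ha)) b hb).symm
  intro b hb
  exact (Subgroup.mem_centralizer_iff.1 (h2 hb)) a rfl

variable (s) in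
/-- The lower part. -/
def Low (i : ℕ) : Subgroup W := Subgroup.closure {x | ∃ j : Fin n, (j : ℕ) < i ∧ s j = x}

variable (s) in
/-- The upper part. -/
def Upp (i : ℕ) : Subgroup W := Subgroup.closure {x | ∃ j : Fin n, i < (j : ℕ) ∧ s j = x}

lemma low_le {i k : ℕ} (h : i ≤ k) : Low s i ≤ Gam s k := by
  apply Subgroup.closure_mono
  rintro x ⟨j, hj, rfl⟩
  exact ⟨j, by omega, rfl⟩

lemma upp_le {i k : ℕ} (h : k ≤ i) : Upp s i ≤ Gam s k := by
  apply Subgroup.closure_mono
  rintro x ⟨j, hj, rfl⟩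
  exact ⟨j, by omega, rfl⟩

/-- The string property. -/
def IsString (s : Fin n → W) : Prop := ∀ i j : Fin n, (i : ℕ) + 1 < j → s i * s j = s j * s i

variable (hs : IsString s)
include hs

lemma low_upp_comm (i : ℕ) : ∀ a ∈ Low s i, ∀ b ∈ Upp s i, a * b = b * a := by
  apply closure_comm
  rintro _ ⟨j, hj, rfl⟩ _ ⟨k, hk, rfl⟩
  exact hs j k (by omega)

lemma gam_decomp (i : ℕ) : ∀ x ∈ Gam s i, ∃ a ∈ Low s i, ∃ b ∈ Upp s i, x = a * b := by
  intro x hx
  have hc := low_upp_comm hs i
  induction hx using Subgroup.closure_induction with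
  | mem x hx =>
    obtain ⟨j, hj, rfl⟩ := hx
    rcases lt_or_gt_of_ne hj with h | h
    · exact ⟨s j, Subgroup.subset_closure ⟨j, h, rfl⟩, 1, one_mem _, (mul_one _).symm⟩
    · exact ⟨1, one_mem _, s j, Subgroup.subset_closure ⟨j, h, rfl⟩, (one_mul _).symm⟩
  | one => exact ⟨1, one_mem _, 1, one_mem _, (mul_one _).symm⟩
  | mul x y _ _ hx hy =>
    obtain ⟨a, ha, b, hb, rfl⟩ := hx
    obtain ⟨c, hc', d, hd, rfl⟩ := hy
    refine ⟨a * c, mul_mem ha hc', b * d, mul_mem hb hd, ?_⟩
    rw [mul_assoc, mul_assoc, ← mul_assoc b c d, ← hc c hc' b hb, mul_assoc]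
  | inv x _ hx =>
    obtain ⟨a, ha, b, hb, rfl⟩ := hx
    refine ⟨a⁻¹, inv_mem ha, b⁻¹, inv_mem hb, ?_⟩
    rw [mul_inv_rev, hc _ (inv_mem ha) _ (inv_mem hb)]

/-- The main point of the transitivity of incidence. -/
lemma common {j : ℕ} {g h : W} (hgh : g⁻¹ * h ∈ Gam s j) :
    ∃ x : W, (∀ i, i ≤ j → g⁻¹ * x ∈ Gam s i) ∧ (∀ k, j ≤ k → h⁻¹ * x ∈ Gam s k) := by
  obtain ⟨a, ha, b, hb, hab⟩ := gam_decomp hs j _ hgh
  refine ⟨g * b, fun i hi => ?_, fun k hk => ?_⟩
  · rw [inv_mul_cancel_left]
    exact upp_le hi hb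
  · have h1 : h = g * (b * a) := by
      rw [← low_upp_comm hs j a ha b hb, ← hab, mul_inv_cancel_left]
    have h2 : h⁻¹ * (g * b) = a⁻¹ := by
      rw [h1]; group
    rw [h2]
    exact low_le hk (inv_mem ha)

/-- The poset of nonempty faces: `F ≤ F'` if the rank of `F` is at most that of `F'` and the two
cosets have a common element. -/
@[reducible] def cosetOrder : PartialOrder (CosetFace s) where
  le x y := x.1 ≤ y.1 ∧ ∃ g : W, (g : W ⧸ Gam s x.1) = x.2 ∧ (g : W ⧸ Gam s y.1) = y.2
  le_refl x := by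
    obtain ⟨i, x⟩ := x
    obtain ⟨g, rfl⟩ := QuotientGroup.mk_surjective x
    exact ⟨le_rfl, g, rfl, rfl⟩
  le_trans := by
    rintro ⟨i, x⟩ ⟨j, y⟩ ⟨k, z⟩ ⟨hij, g, hx, hy⟩ ⟨hjk, h, hy', hz⟩
    simp only at *
    refine ⟨hij.trans hjk, ?_⟩
    have hgh : g⁻¹ * h ∈ Gam s j := by
      rw [← QuotientGroup.eq, hy, hy']
    obtain ⟨w, hw1, hw2⟩ := common hs hgh
    refine ⟨w, ?_, ?_⟩
    · rw [← hx]
      exact (QuotientGroup.eq.2 (hw1 i hij)).symm
    · rw [← hz]
      exact (QuotientGroup.eq.2 (hw2 k hjk)).symm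
  le_antisymm := by
    rintro ⟨i, x⟩ ⟨j, y⟩ ⟨hij, g, hx, hy⟩ ⟨hji, -⟩
    simp only at *
    have : i = j := le_antisymm hij hji
    subst this
    rw [← hx, ← hy]

/-- The abstract polytope of a group with string generators `s 0, …, s (n-1)`. -/
@[reducible] def cosetPol : Pol where
  Face := CosetFace s
  ord := cosetOrder hs
  rank x := x.1
  dim := n

end Coset

open Matrix

section Refl

variable {n : ℕ} (B : Matrix (Fin n) (Fin n) ℝ)

/-- The linear map `v ↦ v - 2 B(e_i, v) e_i`. -/
noncomputable def reflMap (i : Fin n) : (Fin n → ℝ) →ₗ[ℝ] (Fin n → ℝ) where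
  toFun v := v - (2 * (B *ᵥ v) i) • Pi.single i (1 : ℝ)
  map_add' v w := by
    rw [Matrix.mulVec_add, Pi.add_apply, mul_add, add_smul]
    abel
  map_smul' c v := by
    rw [Matrix.mulVec_smul, Pi.smul_apply, smul_eq_mul, RingHom.id_apply, smul_sub, smul_smul]
    congr 2
    ring

/-- The matrices `B` of symmetric bilinear forms with `B(e_i, e_i) = 1`, and `B(e_i, e_j) = 0` for
`|i - j| ≥ 2`. -/
structure StringForm (B : Matrix (Fin n) (Fin n) ℝ) : Prop where
  diag : ∀ i, B i i = 1
  symm : ∀ i j, B i j = B j i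
  far : ∀ i j : Fin n, (i : ℕ) + 1 < j → B i j = 0

variable {B}

lemma reflMap_apply (i : Fin n) (v : Fin n → ℝ) (k : Fin n) :
    reflMap B i v k = v k - if k = i then 2 * (B *ᵥ v) i else 0 := by
  simp only [reflMap, LinearMap.coe_mk, AddHom.coe_mk, Pi.sub_apply, Pi.smul_apply, smul_eq_mul,
    Pi.single_apply]
  split_ifs <;> ring

lemma reflMap_self (i : Fin n) (v : Fin n → ℝ) :
    reflMap B i v i = v i - 2 * (B *ᵥ v) i := by
  rw [reflMap_apply, if_pos rfl]

lemma reflMap_other {i k : Fin n} (h : k ≠ i) (v : Fin n → ℝ) :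
    reflMap B i v k = v k := by
  rw [reflMap_apply, if_neg h, sub_zero]

lemma mulVec_reflMap (i k : Fin n) (v : Fin n → ℝ) :
    (B *ᵥ (reflMap B i v)) k = (B *ᵥ v) k - 2 * (B *ᵥ v) i * B k i := by
  have h : reflMap B i v = v - (2 * (B *ᵥ v) i) • Pi.single i (1 : ℝ) := rfl
  rw [h, Matrix.mulVec_sub, Matrix.mulVec_smul, Pi.sub_apply, Pi.smul_apply, smul_eq_mul,
    Matrix.mulVec_single_one]
  rfl

variable (hB : StringForm B)
include hB

lemma reflMap_involutive (i : Fin n) : Function.Involutive (reflMap B i) := by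
  intro v
  funext k
  rw [reflMap_apply, reflMap_apply, mulVec_reflMap, hB.diag]
  split_ifs <;> ring

/-- The reflection `v ↦ v - 2 B(e_i, v) e_i`. -/
noncomputable def refl (i : Fin n) : (Fin n → ℝ) ≃ₗ[ℝ] (Fin n → ℝ) :=
  LinearEquiv.ofInvolutive (reflMap B i) (reflMap_involutive hB i)

lemma refl_apply (i : Fin n) (v : Fin n → ℝ) : refl hB i v = reflMap B i v := rfl

/-- The group generated by the reflections. -/
abbrev ReflGroup : Type :=
  Subgroup.closure (Set.range (refl hB))

/-- The reflections, as elements of the group. -/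
noncomputable def gen (i : Fin n) : ReflGroup hB :=
  ⟨refl hB i, Subgroup.subset_closure ⟨i, rfl⟩⟩

lemma gen_apply (i : Fin n) (v : Fin n → ℝ) : (gen hB i).1 v = reflMap B i v := rfl

lemma isString_gen : IsString (gen hB) := by
  intro i j hij
  apply Subtype.ext
  apply LinearEquiv.ext
  intro v
  change reflMap B i (reflMap B j v) = reflMap B j (reflMap B i v)
  have h0 : B i j = 0 := hB.far i j hij
  have h0' : B j i = 0 := by rw [← hB.symm]; exact h0
  have hne : i ≠ j := by intro h; rw [h] at hij; omega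
  funext k
  rw [reflMap_apply, reflMap_apply, reflMap_apply, reflMap_apply, mulVec_reflMap,
    mulVec_reflMap, h0, h0']
  simp only [mul_zero, sub_zero]
  ring

/-- The abstract polytope of the group generated by the reflections: the faces of rank `i < n` are
the left cosets of the subgroup generated by all the reflections except the `i`-th one, and two
faces are incident if the cosets have a common element. -/
noncomputable def reflPol : Pol := cosetPol (isString_gen hB)

end Refl

/-! ## Schläfli symbols -/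

/-- The Gram matrix of the Schläfli symbol `{p_1, …, p_{n-1}}`: `B(e_i, e_i) = 1`,
`B(e_{i-1}, e_i) = -cos (π / p_i)`, and `B(e_i, e_j) = 0` otherwise. -/
noncomputable def gram (p : List ℚ) : Matrix (Fin (p.length + 1)) (Fin (p.length + 1)) ℝ :=
  fun i j =>
    if i = j then 1
    else if (i : ℕ) + 1 = j then - Real.cos (Real.pi / (p.getD i 0 : ℚ))
    else if (j : ℕ) + 1 = i then - Real.cos (Real.pi / (p.getD j 0 : ℚ))
    else 0

lemma stringForm_gram (p : List ℚ) : StringForm (gram p) := by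
  refine ⟨?_, ?_, ?_⟩
  · intro i
    exact if_pos rfl
  · intro i j
    unfold gram
    by_cases h : i = j
    · subst h; rfl
    · rw [if_neg h, if_neg (Ne.symm h)]
      by_cases h1 : (i : ℕ) + 1 = j
      · rw [if_pos h1, if_neg (by omega), if_pos h1]
      · rw [if_neg h1]
        by_cases h2 : (j : ℕ) + 1 = i
        · rw [if_pos h2, if_pos h2]
        · rw [if_neg h2, if_neg h2, if_neg h1]
  · intro i j hij
    unfold gram
    rw [if_neg (fun h => by rw [h] at hij; omega), if_neg (by omega), if_neg (by omega)]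

/-- The regular polytope with the Schläfli symbol `p = {p_1, …, p_{n-1}}`, where the `p_i` may be
fractions. -/
noncomputable def starPol (p : List ℚ) : Pol := reflPol (stringForm_gram p)

end Pool.Agent.H20.Petrie
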