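import Mathlib
import Pool.Agent.H20.Petrie.Arr
import Pool.Agent.H20.Petrie.DefsStar

/-!
# Petrie arrays of coset polytopes
-/

namespace Pool.Agent.H20.Petrie

section Coset

variable {n : ℕ} {W : Type} [Group W] {s : Fin n → W} (hs : IsString s)
include hs

lemma mkF_le {i j : Fin (n + 1)} {g h : W} (hle : (cosetOrder hs).le (mkF s i g) (mkF s j h)) :
    ∃ x : W, mkF s i g = mkF s i x ∧ mkF s j h = mkF s j x := by
  obtain ⟨_, x, hx, hy⟩ := hle
  refine ⟨x, ?_, ?_⟩
  · rw [mkF_eq, ← QuotientGroup.eq]
    exact hx.symm
  · rw [mkF_eq, ← QuotientGroup.eq]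
    exact hy.symm

/-- Every chain of faces of ranks `0, 1, …, k` has a common element. -/
lemma chain (f : ℕ → CosetFace s) (hr : ∀ r, r < n → ((f r).1 : ℕ) = r)
    (hle : ∀ r, r + 1 < n → (cosetOrder hs).le (f r) (f (r + 1))) :
    ∃ g : W, ∀ r, ∀ h : r < n, f r = mkF s ⟨r, by omega⟩ g := by
  have key : ∀ k, ∃ g : W, ∀ r, ∀ h : r < n, r ≤ k → f r = mkF s ⟨r, by omega⟩ g := by
    intro k
    induction k with
    | zero =>
      by_cases hn : 0 < n
      · obtain ⟨g, hg⟩ := exists_mkF (f 0)
        refine ⟨g, ?_⟩
        intro r h hr0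
        have : r = 0 := by omega
        subst this
        have h1 : (f 0).1 = ⟨0, by omega⟩ := Fin.ext (hr 0 hn)
        rw [h1] at hg
        exact hg
      · exact ⟨1, fun r h => by omega⟩
    | succ k ih =>
      obtain ⟨g, hg⟩ := ih
      by_cases hk : k + 1 < n
      · have h1 := hle k hk
        obtain ⟨h, hh⟩ := exists_mkF (f (k + 1))
        have h2 : (f (k + 1)).1 = ⟨k + 1, by omega⟩ := Fin.ext (hr (k + 1) hk)
        rw [h2] at hh
        rw [hg k (by omega) le_rfl, hh] at h1
        obtain ⟨x, hx1, hx2⟩ := mkF_le hs h1
        rw [mkF_eq] at hx1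
        obtain ⟨y, hy1, hy2⟩ := common hs hx1
        refine ⟨y, ?_⟩
        intro r hrn hrk
        by_cases hrk' : r ≤ k
        · rw [hg r hrn hrk', mkF_eq]
          exact hy1 r hrk'
        · have : r = k + 1 := by omega
          subst this
          rw [hh, hx2, mkF_eq]
          exact hy2 (k + 1) (Nat.le_succ k)
      · exact ⟨g, fun r h1 h2 => hg r h1 (by omega)⟩
  obtain ⟨g, hg⟩ := key n
  exact ⟨g, fun r h => hg r h (by omega)⟩

/-- The partial products of the generators. -/
lemma arr_coset (hI : ∀ i : Fin n, ∀ z : W, (∀ r : Fin n, r ≠ i → z ∈ Gam s r) →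
      z ∉ Gam s i → z = s i)
    {E : ℕ → ℕ → (cosetPol hs).Face} (hE : Arr (cosetPol hs) E) :
    ∃ g : W, ∀ u r, ∀ h : r < n, E u r = mkF s ⟨r, by omega⟩
      (g * ((List.finRange n).map s).prod ^ u) := by
  have hdim : (cosetPol hs).dim = n := rfl
  obtain ⟨g, hg⟩ := chain hs (E 0) (fun r hr => hE.rank_eq 0 r hr) (fun r hr => hE.le1 0 r hr)
  refine ⟨g, ?_⟩
  intro u
  induction u with
  | zero => intro r h; rw [pow_zero, mul_one]; exact hg r h
  | succ u ih =>
    have key : ∀ l, l ≤ n → ∀ r, ∀ h : r < n, (if r < l then E (u + 1) r else E u r) =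
        mkF s ⟨r, by omega⟩ (g * ((List.finRange n).map s).prod ^ u *
          (((List.finRange n).map s).take l).prod) := by
      intro l
      induction l with
      | zero =>
        intro _ r h
        rw [if_neg (by omega), ih r h]
        simp
      | succ l ihl =>
        intro hl
        have ihl := ihl (by omega)
        -- the next flag
        set f : ℕ → CosetFace s := fun r => if r < l + 1 then E (u + 1) r else E u r with hf
        have hfr : ∀ r, r < n → ((f r).1 : ℕ) = r := by
          intro r hr
          simp only [hf]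
          split_ifs
          · exact hE.rank_eq (u + 1) r hr
          · exact hE.rank_eq u r hr
        have hfle : ∀ r, r + 1 < n → (cosetOrder hs).le (f r) (f (r + 1)) := by
          intro r hr
          simp only [hf]
          split_ifs
          · exact hE.le1 (u + 1) r hr
          · exact hE.le2 u r hr
          · omega
          · exact hE.le1 u r hr
        obtain ⟨y, hy⟩ := chain hs f hfr hfle
        set x := g * ((List.finRange n).map s).prod ^ u *
          (((List.finRange n).map s).take l).prod with hx
        have hxy : x⁻¹ * y = s ⟨l, by omega⟩ := by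
          apply hI
          · intro r hr
            have hr' : (r : ℕ) ≠ l := fun hh => hr (Fin.ext hh)
            have h1 := ihl r r.2
            have h2 := hy r r.2
            have h3 : f r = if (r : ℕ) < l then E (u + 1) r else E u r := by
              simp only [hf]
              by_cases hrl : (r : ℕ) < l
              · rw [if_pos hrl, if_pos (by omega)]
              · rw [if_neg hrl, if_neg (by omega)]
            rw [h3, h1, mkF_eq] at h2
            exact h2
          · intro hcon
            have h1 := ihl l (by omega)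
            have h2 := hy l (by omega)
            have h3 : f l = E (u + 1) l := by
              simp only [hf]
              rw [if_pos (by omega)]
            rw [if_neg (by omega)] at h1
            rw [h3] at h2
            apply hE.ne u l (by omega)
            rw [h1, h2, mkF_eq]
            exact hcon
        intro r h
        have h1 := hy r h
        rw [hf] at h1
        simp only at h1
        rw [h1]
        congr 1
        have h2 : y = x * s ⟨l, by omega⟩ := by rw [← hxy, mul_inv_cancel_left]
        rw [h2, hx, List.take_succ_eq_append_getElem (by simp; omega), List.prod_append]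
        simp [mul_assoc]
    intro r h
    have h1 := key n le_rfl r h
    rw [if_pos h] at h1
    rw [h1, pow_succ, ← mul_assoc]
    congr 2
    rw [List.take_of_length_le (by simp)]

theorem good_coset (hI : ∀ i : Fin n, ∀ z : W, (∀ r : Fin n, r ≠ i → z ∈ Gam s r) →
      z ∉ Gam s i → z = s i) {p : ℕ} (hp : 0 < p)
    (hper : ((List.finRange n).map s).prod ^ p = 1)
    (hno : ∀ c, 0 < c → c < p → ∀ r : Fin n, ((List.finRange n).map s).prod ^ c ∉ Gam s r) :
    Good (cosetPol hs) p := by
  intro E hE
  obtain ⟨g, hg⟩ := arr_coset hs hI hE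
  set σ := ((List.finRange n).map s).prod with hσ
  refine ⟨?_, ?_⟩
  · intro u r hr
    rw [hg _ r hr, hg _ r hr, pow_add, hper, mul_one]
  · intro u k r hr h
    rw [hg _ r hr, hg _ r hr, mkF_eq] at h
    have e1 : (g * σ ^ u)⁻¹ * (g * σ ^ (u + k)) = σ ^ k := by
      rw [pow_add]; group
    rw [e1] at h
    have e2 : σ ^ k = σ ^ (k % p) := by
      conv_lhs => rw [← Nat.mod_add_div k p]
      rw [pow_add, pow_mul, hper, one_pow, mul_one]
    rw [e2] at h
    by_contra hcon
    exact hno (k % p) (Nat.pos_of_ne_zero fun h0 => hcon (Nat.dvd_of_mod_eq_zero h0))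
      (Nat.mod_lt _ hp) ⟨r, hr⟩ h

end Coset

end Pool.Agent.H20.Petrie
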