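import Mathlib
import Pool.Agent.H20.Petrie.Coset

/-!
# The intersection property and Petrie schemes for groups generated by reflections
-/

namespace Pool.Agent.H20.Petrie

open Matrix

section Refl

variable {n : ℕ} {B : Matrix (Fin n) (Fin n) ℝ} (hB : StringForm B)
include hB

/-! ### The intersection property -/

lemma gam_coord {r : Fin n} {x : ReflGroup hB} (hx : x ∈ Gam (gen hB) r) :
    ∀ v, x.1 v r = v r := by
  induction hx using Subgroup.closure_induction with
  | mem x hx =>
    obtain ⟨j, hj, rfl⟩ := hx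
    intro v
    rw [gen_apply]
    exact reflMap_other (fun h => hj (by rw [h])) v
  | one => intro v; rfl
  | mul x y _ _ hx hy =>
    intro v
    change x.1 (y.1 v) r = v r
    rw [hx, hy]
  | inv x _ hx =>
    intro v
    have h1 := hx (x⁻¹.1 v)
    have h2 : x.1 (x⁻¹.1 v) = v := x.1.apply_symm_apply v
    rw [← h1, h2]

/-- The bilinear form. -/
noncomputable def bf (_hB : StringForm B) (v w : Fin n → ℝ) : ℝ := v ⬝ᵥ (B *ᵥ w)

lemma bf_symm (v w : Fin n → ℝ) : bf hB v w = bf hB w v := by
  unfold bf
  rw [Matrix.dotProduct_mulVec, ← Matrix.mulVec_transpose, dotProduct_comm]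
  have : Bᵀ = B := by
    ext i j
    exact (hB.symm j i)
  rw [this]

lemma bf_sub_right (v w z : Fin n → ℝ) : bf hB v (w - z) = bf hB v w - bf hB v z := by
  unfold bf
  rw [Matrix.mulVec_sub, dotProduct_sub]

lemma bf_add_right (v w z : Fin n → ℝ) : bf hB v (w + z) = bf hB v w + bf hB v z := by
  unfold bf
  rw [Matrix.mulVec_add, dotProduct_add]

lemma bf_smul_right (v w : Fin n → ℝ) (c : ℝ) : bf hB v (c • w) = c * bf hB v w := by
  unfold bf
  rw [Matrix.mulVec_smul, dotProduct_smul, smul_eq_mul]

lemma bf_sub_left (v w z : Fin n → ℝ) : bf hB (v - w) z = bf hB v z - bf hB w z := by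
  rw [bf_symm, bf_sub_right, bf_symm hB z v, bf_symm hB z w]

lemma bf_add_left (v w z : Fin n → ℝ) : bf hB (v + w) z = bf hB v z + bf hB w z := by
  rw [bf_symm, bf_add_right, bf_symm hB z v, bf_symm hB z w]

lemma bf_smul_left (v w : Fin n → ℝ) (c : ℝ) : bf hB (c • v) w = c * bf hB v w := by
  rw [bf_symm, bf_smul_right, bf_symm]

lemma bf_single_left (i : Fin n) (w : Fin n → ℝ) : bf hB (Pi.single i 1) w = (B *ᵥ w) i := by
  unfold bf
  rw [single_one_dotProduct]

lemma bf_single_self (i : Fin n) : bf hB (Pi.single i 1) (Pi.single i 1) = 1 := by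
  rw [bf_single_left, Matrix.mulVec_single_one]
  exact hB.diag i

lemma bf_refl (i : Fin n) (v w : Fin n → ℝ) :
    bf hB (reflMap B i v) (reflMap B i w) = bf hB v w := by
  have h : ∀ v, reflMap B i v = v - (2 * (B *ᵥ v) i) • Pi.single i (1 : ℝ) := fun v => rfl
  rw [h, h, bf_sub_left, bf_sub_right, bf_sub_right, bf_smul_left, bf_smul_left, bf_smul_right,
    bf_smul_right, bf_single_self, bf_symm hB v (Pi.single i 1), bf_single_left, bf_single_left]
  ring

lemma bf_group (x : ReflGroup hB) : ∀ v w, bf hB (x.1 v) (x.1 w) = bf hB v w := by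
  obtain ⟨x, hx⟩ := x
  simp only
  induction hx using Subgroup.closure_induction with
  | mem x hx =>
    obtain ⟨i, rfl⟩ := hx
    intro v w
    exact bf_refl hB i v w
  | one => intro v w; rfl
  | mul x y _ _ hx hy =>
    intro v w
    change bf hB (x (y v)) (x (y w)) = bf hB v w
    rw [hx, hy]
  | inv x _ hx =>
    intro v w
    rw [← hx (x⁻¹ v) (x⁻¹ w)]
    have h2 : ∀ v, x (x⁻¹ v) = v := fun v => x.apply_symm_apply v
    rw [h2, h2]

lemma intersection (i : Fin n) (z : ReflGroup hB)
    (hz : ∀ r : Fin n, r ≠ i → z ∈ Gam (gen hB) r) (hzi : z ∉ Gam (gen hB) i) : z = gen hB i := by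
  set f : (Fin n → ℝ) → ℝ := fun v => z.1 v i - v i with hf
  have hzv : ∀ v, z.1 v = v + f v • Pi.single i (1 : ℝ) := by
    intro v
    funext k
    rw [Pi.add_apply, Pi.smul_apply, smul_eq_mul, Pi.single_apply]
    split_ifs with h
    · subst h
      rw [hf]
      ring
    · rw [mul_zero, add_zero]
      exact gam_coord hB (hz k h) v
  set e : Fin n → ℝ := Pi.single i 1 with he
  have h1 := bf_group hB z e e
  have h2 := fun v => bf_group hB z v e
  rw [hzv e, bf_add_left, bf_add_right, bf_add_right, bf_smul_left, bf_smul_right,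
    bf_smul_left, bf_smul_right, bf_single_self] at h1
  have h3 : ∀ v, bf hB v e + f e * bf hB v e + f v * (1 + f e) = bf hB v e := by
    intro v
    have h := h2 v
    rw [hzv e, hzv v, bf_add_left, bf_add_right, bf_add_right, bf_smul_left, bf_smul_right,
      bf_smul_left, bf_smul_right, bf_single_self] at h
    linear_combination h
  have h4 : f e * (f e + 2) = 0 := by linear_combination h1
  rcases mul_eq_zero.1 h4 with h5 | h5
  · exfalso
    apply hzi
    have : z = 1 := by
      apply Subtype.ext
      apply LinearEquiv.ext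
      intro v
      have h6 := h3 v
      rw [h5] at h6
      have h7 : f v = 0 := by linear_combination h6
      rw [hzv, h7, zero_smul, add_zero]
      rfl
    rw [this]
    exact one_mem _
  · apply Subtype.ext
    apply LinearEquiv.ext
    intro v
    have h6 := h3 v
    have h8 : f e = -2 := by linear_combination h5
    rw [h8] at h6
    have h7 : f v = - (2 * (B *ᵥ v) i) := by
      rw [← bf_single_left hB, bf_symm hB]
      linear_combination -h6
    rw [hzv, h7, neg_smul, ← sub_eq_add_neg]
    rfl

/-- The product `ρ_0 ρ_1 ⋯ ρ_{n-1}`. -/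
noncomputable def cox : (Fin n → ℝ) → (Fin n → ℝ) := fun v =>
  (((List.finRange n).map (gen hB)).prod).1 v

lemma cox_pow (c : ℕ) (v : Fin n → ℝ) :
    ((((List.finRange n).map (gen hB)).prod) ^ c).1 v = (cox hB)^[c] v := by
  induction c generalizing v with
  | zero => rfl
  | succ c ih =>
    rw [pow_succ, Function.iterate_succ_apply]
    rw [← ih (cox hB v)]
    rfl

theorem onlyAcoptic_reflPol {p : ℕ} (hp : 0 < p) (hper : ∀ v, (cox hB)^[p] v = v)
    (hno : ∀ c, 0 < c → c < p → ∀ r : Fin n, ∃ v, (cox hB)^[c] v r ≠ v r) :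
    OnlyAcoptic (reflPol hB) := by
  apply onlyAcoptic_of_good (p := p)
  apply good_coset (isString_gen hB) (intersection hB) hp
  · apply Subtype.ext
    apply LinearEquiv.ext
    intro v
    rw [cox_pow, hper]
    rfl
  · intro c hc hcp r hmem
    obtain ⟨v, hv⟩ := hno c hc hcp r
    apply hv
    rw [← cox_pow]
    exact gam_coord hB hmem v

end Refl

end Pool.Agent.H20.Petrie
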