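import Mathlib
import Pool.Agent.H20.Petrie.Refl

/-!
# Certificates over `ℤ[φ]`
-/

namespace Pool.Agent.H20.Petrie

open Matrix

/-- The value `a + b φ` of a pair `(a, b)`. -/
noncomputable def ev (x : ℤ × ℤ) : ℝ := x.1 + x.2 * Real.goldenRatio

/-- Subtraction. -/
def zsub (x y : ℤ × ℤ) : ℤ × ℤ := (x.1 - y.1, x.2 - y.2)

/-- Multiplication. -/
def zmul (x y : ℤ × ℤ) : ℤ × ℤ :=
  (x.1 * y.1 + x.2 * y.2, x.1 * y.2 + x.2 * y.1 + x.2 * y.2)

lemma ev_zsub (x y : ℤ × ℤ) : ev (zsub x y) = ev x - ev y := by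
  simp only [ev, zsub]
  push_cast
  ring

lemma ev_zmul (x y : ℤ × ℤ) : ev (zmul x y) = ev x * ev y := by
  simp only [ev, zmul]
  push_cast
  linear_combination (-(x.2 : ℝ) * y.2) * Real.goldenRatio_sq

lemma ev_inj {x y : ℤ × ℤ} (h : ev x = ev y) : x = y := by
  simp only [ev] at h
  have h1 : ((x.2 - y.2 : ℤ) : ℝ) * Real.goldenRatio = ((y.1 - x.1 : ℤ) : ℝ) := by
    push_cast
    linear_combination h
  have h2 : x.2 = y.2 := by
    by_contra hne
    have hne' : x.2 - y.2 ≠ 0 := sub_ne_zero.2 hne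
    exact (Real.goldenRatio_irrational.intCast_mul hne').ne_int _ h1
  have h3 : x.1 = y.1 := by
    rw [h2, sub_self, Int.cast_zero, zero_mul] at h1
    have : y.1 - x.1 = 0 := by exact_mod_cast h1.symm
    omega
  exact Prod.ext h3 h2

section

variable {n : ℕ}

/-- One step: the functional `f ∘ ρ_j`. -/
def stepF (M : Fin n → Fin n → ℤ × ℤ) (f : Fin n → ℤ × ℤ) (j : Fin n) : Fin n → ℤ × ℤ :=
  fun k => zsub (f k) (zmul (f j) (M j k))

/-- The identity matrix. -/
def delta (i k : Fin n) : ℤ × ℤ := if i = k then (1, 0) else (0, 0)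

lemma ev_delta (i k : Fin n) : ev (delta i k) = if i = k then 1 else 0 := by
  unfold delta ev
  split_ifs <;> simp

/-- A certificate for the powers of `ρ_0 ρ_1 ⋯ ρ_{n-1}`: `T c i k` is the entry `(i, k)` of the
power `c`. -/
def CertOK (M : Fin n → Fin n → ℤ × ℤ) (p : ℕ) (T : ℕ → Fin n → Fin n → ℤ × ℤ) : Prop :=
  (∀ i k, T 0 i k = delta i k) ∧
  (∀ c < p, ∀ i k, (List.finRange n).foldl (stepF M) (T c i) k = T (c + 1) i k) ∧
  (∀ i k, T p i k = delta i k) ∧
  (∀ c < p, 0 < c → ∀ i, ∃ k, T c i k ≠ delta i k)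

instance (M : Fin n → Fin n → ℤ × ℤ) (p : ℕ) (T : ℕ → Fin n → Fin n → ℤ × ℤ) :
    Decidable (CertOK M p T) := by
  unfold CertOK
  infer_instance

variable {B : Matrix (Fin n) (Fin n) ℝ} (hB : StringForm B) {M : Fin n → Fin n → ℤ × ℤ}
  (hM : ∀ j k, ev (M j k) = 2 * B j k)

include hM in
lemma dot_step (f : Fin n → ℤ × ℤ) (j : Fin n) (v : Fin n → ℝ) :
    ∑ k, ev (stepF M f j k) * v k = ∑ k, ev (f k) * reflMap B j v k := by
  have h1 : ∀ k, ev (stepF M f j k) * v k = ev (f k) * v k - (ev (f j) * 2) * (B j k * v k) := by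
    intro k
    rw [stepF, ev_zsub, ev_zmul, hM]
    ring
  have h2 : ∀ k, ev (f k) * reflMap B j v k =
      ev (f k) * v k - if k = j then ev (f j) * (2 * (B *ᵥ v) j) else 0 := by
    intro k
    rw [reflMap_apply]
    split_ifs with h
    · rw [h]; ring
    · ring
  rw [Finset.sum_congr rfl fun k _ => h1 k, Finset.sum_congr rfl fun k _ => h2 k,
    Finset.sum_sub_distrib, Finset.sum_sub_distrib, Finset.sum_ite_eq' Finset.univ j,
    if_pos (Finset.mem_univ j), ← Finset.mul_sum]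
  have h3 : (B *ᵥ v) j = ∑ k, B j k * v k := rfl
  rw [h3]
  ring

include hM in
lemma dot_fold (l : List (Fin n)) : ∀ (f : Fin n → ℤ × ℤ) (v : Fin n → ℝ),
    ∑ k, ev (l.foldl (stepF M) f k) * v k = ∑ k, ev (f k) * ((l.map (gen hB)).prod).1 v k := by
  induction l with
  | nil => intro f v; rfl
  | cons j l ih =>
    intro f v
    rw [List.foldl_cons, ih, dot_step hM]
    rfl

include hM in
theorem onlyAcoptic_of_cert {p : ℕ} (hp : 0 < p) {T : ℕ → Fin n → Fin n → ℤ × ℤ}
    (hT : CertOK M p T) : OnlyAcoptic (reflPol hB) := by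
  obtain ⟨h0, hstep, hend, hno⟩ := hT
  have key : ∀ c, c ≤ p → ∀ v i, (cox hB)^[c] v i = ∑ k, ev (T c i k) * v k := by
    intro c
    induction c with
    | zero =>
      intro _ v i
      have h1 : ∀ k, ev (T 0 i k) * v k = if i = k then v k else 0 := by
        intro k
        rw [h0, ev_delta]
        split_ifs <;> ring
      rw [Finset.sum_congr rfl fun k _ => h1 k, Finset.sum_ite_eq, if_pos (Finset.mem_univ i)]
      rfl
    | succ c ih =>
      intro hc v i
      rw [Function.iterate_succ_apply, ih (by omega)]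
      have h1 := dot_fold hB hM (List.finRange n) (T c i) v
      have h2 : ∑ k, ev (T (c + 1) i k) * v k =
          ∑ k, ev ((List.finRange n).foldl (stepF M) (T c i) k) * v k :=
        Finset.sum_congr rfl fun k _ => by rw [hstep c (by omega) i k]
      rw [h2, h1]
      rfl
  apply onlyAcoptic_reflPol hB hp
  · intro v
    funext i
    rw [key p le_rfl]
    have h1 : ∀ k, ev (T p i k) * v k = if i = k then v k else 0 := by
      intro k
      rw [hend, ev_delta]
      split_ifs <;> ring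
    rw [Finset.sum_congr rfl fun k _ => h1 k, Finset.sum_ite_eq, if_pos (Finset.mem_univ i)]
  · intro c hc hcp i
    obtain ⟨k, hk⟩ := hno c hcp hc i
    refine ⟨Pi.single k 1, ?_⟩
    rw [key c hcp.le]
    have h1 : ∀ j, ev (T c i j) * (Pi.single k (1 : ℝ) : Fin n → ℝ) j =
        if k = j then ev (T c i k) else 0 := by
      intro j
      rw [Pi.single_apply]
      by_cases h : j = k
      · rw [h, if_pos rfl, if_pos rfl, mul_one]
      · rw [if_neg h, if_neg (Ne.symm h), mul_zero]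
    rw [Finset.sum_congr rfl fun k _ => h1 k, Finset.sum_ite_eq, if_pos (Finset.mem_univ k)]
    intro hcon
    apply hk
    apply ev_inj
    rw [hcon, ev_delta, Pi.single_apply]

end

/-! ## Schläfli symbols over `{3, 5, 5/2}` -/

/-- `2 cos (π / p)` for `p = 3, 5, 5/2`. -/
def twoCos (p : ℚ) : ℤ × ℤ := if p = 3 then (1, 0) else if p = 5 then (0, 1) else (-1, 1)

lemma ev_twoCos {p : ℚ} (hp : p = 3 ∨ p = 5 ∨ p = 5 / 2) :
    ev (twoCos p) = 2 * Real.cos (Real.pi / (p : ℝ)) := by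
  have h5 : Real.cos (Real.pi / 5) = Real.goldenRatio / 2 := by
    rw [Real.cos_pi_div_five, Real.goldenRatio]; ring
  rcases hp with rfl | rfl | rfl
  · rw [twoCos, if_pos rfl]
    push_cast
    rw [Real.cos_pi_div_three]
    simp [ev]
  · rw [twoCos, if_neg (by norm_num), if_pos rfl]
    push_cast
    rw [h5]
    simp only [ev]
    push_cast
    ring
  · rw [twoCos, if_neg (by norm_num), if_neg (by norm_num)]
    have e : Real.pi / ((5 / 2 : ℚ) : ℝ) = 2 * (Real.pi / 5) := by
      push_cast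
      ring
    rw [e, Real.cos_two_mul, h5]
    simp only [ev]
    push_cast
    linear_combination -Real.goldenRatio_sq

/-- The matrix `2 B`. -/
def matOf (p : List ℚ) (i j : Fin (p.length + 1)) : ℤ × ℤ :=
  if i = j then (2, 0)
  else if (i : ℕ) + 1 = j then zsub (0, 0) (twoCos (p.getD i 0))
  else if (j : ℕ) + 1 = i then zsub (0, 0) (twoCos (p.getD j 0))
  else (0, 0)

lemma ev_matOf {p : List ℚ} (hp : ∀ i < p.length, p.getD i 0 = 3 ∨ p.getD i 0 = 5 ∨
    p.getD i 0 = 5 / 2) (i j : Fin (p.length + 1)) : ev (matOf p i j) = 2 * gram p i j := by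
  have h00 : ev (0, 0) = 0 := by simp [ev]
  unfold matOf gram
  split_ifs with h1 h2 h3
  · simp [ev]
  · rw [ev_zsub, ev_twoCos (hp i (by omega)), h00]; ring
  · rw [ev_zsub, ev_twoCos (hp j (by omega)), h00]; ring
  · rw [h00]; ring

/-- The table given by a list. -/
def tab {n : ℕ} (L : List (List (List (ℤ × ℤ)))) (c : ℕ) (i k : Fin n) : ℤ × ℤ :=
  ((L.getD c []).getD i []).getD k (0, 0)

theorem onlyAcoptic_star {p : List ℚ} (hp : ∀ i < p.length, p.getD i 0 = 3 ∨ p.getD i 0 = 5 ∨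
    p.getD i 0 = 5 / 2) {q : ℕ} (hq : 0 < q) {M : Fin (p.length + 1) → Fin (p.length + 1) → ℤ × ℤ}
    (hM : ∀ i j, matOf p i j = M i j) {T : ℕ → Fin (p.length + 1) → Fin (p.length + 1) → ℤ × ℤ}
    (hT : CertOK M q T) : OnlyAcoptic (starPol p) := by
  apply onlyAcoptic_of_cert (stringForm_gram p) (M := M) _ hq hT
  intro i j
  rw [← hM]
  exact ev_matOf hp i j

end Pool.Agent.H20.Petrie
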