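import Mathlib
import Pool.Agent.H20.Petrie.Arr

/-!
# Petrie arrays of Cartesian products
-/

namespace Pool.Agent.H20.Petrie

/-- The order properties of the poset of nonempty faces that are needed. -/
structure Regular (P : Pol) : Prop where
  rank_mono : ∀ x y : P.Face, x ≤ y → P.rank x ≤ P.rank y
  eq_of_rank : ∀ x y : P.Face, x ≤ y → P.rank x = P.rank y → x = y
  top : ∃ t : P.Face, P.rank t = P.dim ∧ ∀ x, x ≤ t

/-- The top face. -/
noncomputable def Regular.t {P : Pol} (h : Regular P) : P.Face := h.top.choose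

lemma Regular.rank_t {P : Pol} (h : Regular P) : P.rank h.t = P.dim := h.top.choose_spec.1

lemma Regular.le_t {P : Pol} (h : Regular P) (x : P.Face) : x ≤ h.t := h.top.choose_spec.2 x

lemma Regular.rank_le {P : Pol} (h : Regular P) (x : P.Face) : P.rank x ≤ P.dim := by
  rw [← h.rank_t]; exact h.rank_mono _ _ (h.le_t x)

lemma Regular.eq_t {P : Pol} (h : Regular P) {x : P.Face} (hx : P.rank x = P.dim) : x = h.t :=
  h.eq_of_rank _ _ (h.le_t x) (by rw [hx, h.rank_t])

variable {m : ℕ} {P : Fin m → Pol}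

lemma rank_prod (x : (Pol.prod P).Face) : (Pol.prod P).rank x = ∑ j, (P j).rank (x j) := rfl

lemma dim_prod : (Pol.prod P).dim = ∑ j, (P j).dim := rfl

lemma regular_prod (hreg : ∀ j, Regular (P j)) : Regular (Pol.prod P) := by
  refine ⟨?_, ?_, ?_⟩
  · intro x y hxy
    rw [rank_prod, rank_prod]
    exact Finset.sum_le_sum fun j _ => (hreg j).rank_mono _ _ (hxy j)
  · intro x y hxy h
    funext j
    apply (hreg j).eq_of_rank _ _ (hxy j)
    have h1 := (Finset.sum_eq_sum_iff_of_le (s := Finset.univ)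
      (f := fun j => (P j).rank (x j)) (g := fun j => (P j).rank (y j))
      fun j _ => (hreg j).rank_mono _ _ (hxy j)).1 h
    exact h1 j (Finset.mem_univ j)
  · refine ⟨fun j => (hreg j).t, ?_, fun x j => (hreg j).le_t _⟩
    change ∑ j, (P j).rank ((hreg j).t) = ∑ j, (P j).dim
    exact Finset.sum_congr rfl fun j _ => (hreg j).rank_t

/-- `y` is obtained from `x` by increasing the rank by one in the coordinate `j`. -/
structure Inc (x y : (Pol.prod P).Face) (j : Fin m) : Prop where
  le : x ≤ y
  rank_eq : (P j).rank (y j) = (P j).rank (x j) + 1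
  eq : ∀ k, k ≠ j → x k = y k

lemma exists_inc (hreg : ∀ j, Regular (P j)) {x y : (Pol.prod P).Face} (hxy : x ≤ y)
    (h : (Pol.prod P).rank y = (Pol.prod P).rank x + 1) : ∃ j, Inc x y j := by
  have hle : ∀ j, (P j).rank (x j) ≤ (P j).rank (y j) := fun j => (hreg j).rank_mono _ _ (hxy j)
  have hex : ∃ j, (P j).rank (x j) < (P j).rank (y j) := by
    by_contra hcon
    push Not at hcon
    have h1 : (Pol.prod P).rank y ≤ (Pol.prod P).rank x := by
      rw [rank_prod, rank_prod]
      exact Finset.sum_le_sum fun j _ => hcon j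
    omega
  obtain ⟨j, hj⟩ := hex
  have h1 : (P j).rank (y j) + ∑ k ∈ Finset.univ.erase j, (P k).rank (y k) =
      (P j).rank (x j) + ∑ k ∈ Finset.univ.erase j, (P k).rank (x k) + 1 := by
    rw [Finset.add_sum_erase _ (fun k => (P k).rank (y k)) (Finset.mem_univ j),
      Finset.add_sum_erase _ (fun k => (P k).rank (x k)) (Finset.mem_univ j)]
    exact h
  have h2 : ∑ k ∈ Finset.univ.erase j, (P k).rank (x k) ≤
      ∑ k ∈ Finset.univ.erase j, (P k).rank (y k) := Finset.sum_le_sum fun k _ => hle k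
  refine ⟨j, hxy, by omega, ?_⟩
  have h3 : ∑ k ∈ Finset.univ.erase j, (P k).rank (x k) =
      ∑ k ∈ Finset.univ.erase j, (P k).rank (y k) := by omega
  have h4 := (Finset.sum_eq_sum_iff_of_le (s := Finset.univ.erase j)
      (f := fun j => (P j).rank (x j)) (g := fun j => (P j).rank (y j))
      fun j _ => hle j).1 h3
  intro k hk
  exact (hreg k).eq_of_rank _ _ (hxy k) (h4 k (Finset.mem_erase.2 ⟨hk, Finset.mem_univ k⟩))

lemma Inc.rank_other {x y : (Pol.prod P).Face} {j : Fin m} (h : Inc x y j) (k : Fin m) :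
    (P k).rank (y k) = (P k).rank (x k) + if j = k then 1 else 0 := by
  split_ifs with hk
  · subst hk; exact h.rank_eq
  · rw [h.eq k (Ne.symm hk)]; rfl

lemma Inc.unique {x y : (Pol.prod P).Face} {j k : Fin m} (h : Inc x y j) (h' : Inc x y k) :
    j = k := by
  by_contra hne
  have h1 := h.rank_eq
  rw [h'.eq j hne] at h1
  omega

/-- The exchange lemma: the two ways up a diamond. -/
lemma exchange {b A A' T : (Pol.prod P).Face} {x y z z' : Fin m} (h1 : Inc b A x)
    (h2 : Inc A T z) (h3 : Inc b A' y) (h4 : Inc A' T z') (hne : A ≠ A') : z = y ∧ z' = x := by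
  have hr : ∀ k, (if x = k then 1 else 0) + (if z = k then 1 else 0) =
      (if y = k then 1 else 0) + (if z' = k then 1 else 0) := by
    intro k
    have e1 := h1.rank_other k
    have e2 := h2.rank_other k
    have e3 := h3.rank_other k
    have e4 := h4.rank_other k
    omega
  by_cases hxy : x = y
  · subst hxy
    have hz : z = z' := by
      have := hr z
      simp only [if_true] at this
      by_contra hcon
      rw [if_neg (Ne.symm hcon)] at this
      omega
    subst hz
    by_cases hzx : z = x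
    · exact ⟨hzx, hzx⟩
    · exfalso
      apply hne
      funext k
      by_cases hk : k = x
      · subst hk
        rw [h2.eq k (Ne.symm hzx), h4.eq k (Ne.symm hzx)]
      · rw [← h1.eq k hk, ← h3.eq k hk]
  · have e1 := hr y
    rw [if_neg hxy, if_pos rfl] at e1
    have hz : z = y := by
      by_contra hcon
      rw [if_neg hcon] at e1
      omega
    refine ⟨hz, ?_⟩
    subst hz
    have e2 := hr x
    rw [if_pos rfl, if_neg (Ne.symm hxy)] at e2
    by_contra hcon
    rw [if_neg hcon] at e2
    omega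

/-! ## The word of an array -/

section Word

variable (hreg : ∀ j, Regular (P j)) (E : ℕ → ℕ → (Pol.prod P).Face)

open Classical in
/-- The array extended by the top face in rank `n`. -/
noncomputable def X (u r : ℕ) : (Pol.prod P).Face :=
  if r < (Pol.prod P).dim then E u r else (regular_prod hreg).t

variable {hreg E}

lemma X_lt {u r : ℕ} (hr : r < (Pol.prod P).dim) : X hreg E u r = E u r := by
  rw [X, if_pos hr]

lemma X_top {u : ℕ} : X hreg E u (Pol.prod P).dim = (regular_prod hreg).t := by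
  rw [X, if_neg (lt_irrefl _)]

variable (hE : Arr (Pol.prod P) E)

include hE

lemma X_rank {u r : ℕ} (hr : r ≤ (Pol.prod P).dim) : (Pol.prod P).rank (X hreg E u r) = r := by
  rcases hr.lt_or_eq with h | h
  · rw [X_lt h]; exact hE.rank_eq u r h
  · rw [h, X_top]; exact (regular_prod hreg).rank_t

lemma X_le1 {u r : ℕ} (hr : r < (Pol.prod P).dim) : X hreg E u r ≤ X hreg E u (r + 1) := by
  rcases (Nat.succ_le_of_lt hr).lt_or_eq with h | h
  · rw [X_lt hr, X_lt h]; exact hE.le1 u r h
  · have h' : r + 1 = (Pol.prod P).dim := h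
    rw [h', X_top]; exact (regular_prod hreg).le_t _

lemma X_le2 {u r : ℕ} (hr : r < (Pol.prod P).dim) : X hreg E (u + 1) r ≤ X hreg E u (r + 1) := by
  rcases (Nat.succ_le_of_lt hr).lt_or_eq with h | h
  · rw [X_lt hr, X_lt h]; exact hE.le2 u r h
  · have h' : r + 1 = (Pol.prod P).dim := h
    rw [h', X_top]; exact (regular_prod hreg).le_t _

lemma X_ne {u r : ℕ} (hr : r < (Pol.prod P).dim) : X hreg E u r ≠ X hreg E (u + 1) r := by
  rw [X_lt hr, X_lt hr]; exact hE.ne u r hr

lemma ex1 {u r : ℕ} (hr : r < (Pol.prod P).dim) :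
    ∃ j, Inc (X hreg E u r) (X hreg E u (r + 1)) j :=
  exists_inc hreg (X_le1 hE hr) (by rw [X_rank hE hr, X_rank hE hr.le])

lemma ex2 {u r : ℕ} (hr : r < (Pol.prod P).dim) :
    ∃ j, Inc (X hreg E (u + 1) r) (X hreg E u (r + 1)) j :=
  exists_inc hreg (X_le2 hE hr) (by rw [X_rank hE hr, X_rank hE hr.le])

/-- The word of the array. -/
lemma exists_word (hn : 0 < (Pol.prod P).dim) : ∃ w : ℕ → Fin m,
    (∀ r, r < (Pol.prod P).dim → ∀ u,
      Inc (X hreg E u r) (X hreg E u (r + 1)) (w (u + r)) ∧
      Inc (X hreg E (u + 1) r) (X hreg E u (r + 1)) (w u)) ∧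
    ∀ u, w (u + (Pol.prod P).dim) = w u := by
  choose w hw using fun u => ex1 (hreg := hreg) hE (u := u) hn
  have hrank0 : ∀ u k, (P k).rank (X hreg E u 0 k) = 0 := by
    intro u k
    have h1 := X_rank (hreg := hreg) hE (u := u) hn.le
    rw [rank_prod] at h1
    exact (Finset.sum_eq_zero_iff.1 h1) k (Finset.mem_univ k)
  have hC : ∀ r, r < (Pol.prod P).dim → ∀ u,
      Inc (X hreg E u r) (X hreg E u (r + 1)) (w (u + r)) ∧
      Inc (X hreg E (u + 1) r) (X hreg E u (r + 1)) (w u) := by
    intro r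
    induction r with
    | zero =>
      intro _ u
      refine ⟨hw u, ?_⟩
      obtain ⟨j, hj⟩ := ex2 (hreg := hreg) hE (u := u) hn
      have h1 := hj.rank_eq
      rw [hrank0] at h1
      have h2 := (hw u).rank_other j
      rw [hrank0] at h2
      have h3 : w u = j := by
        by_contra hcon
        rw [if_neg hcon] at h2
        omega
      rw [h3]; exact hj
    | succ r ih =>
      intro hr u
      obtain ⟨j1, h1⟩ := ex1 (hreg := hreg) hE (u := u) hr
      obtain ⟨j2, h2⟩ := ex2 (hreg := hreg) hE (u := u) hr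
      have e1 := (ih (by omega) (u + 1)).1
      have e2 := (ih (by omega) u).2
      obtain ⟨h3, h4⟩ := exchange e2 h1 e1 h2 (X_ne hE hr)
      subst h3 h4
      have e3 : u + 1 + r = u + (r + 1) := by ring
      rw [e3] at h1
      exact ⟨h1, h2⟩
  refine ⟨w, hC, ?_⟩
  intro u
  obtain ⟨r, hr⟩ : ∃ r, (Pol.prod P).dim = r + 1 := ⟨(Pol.prod P).dim - 1, by omega⟩
  have h1 := (hC r (by omega) u).2
  have h2 := (hC r (by omega) (u + 1)).1
  rw [← hr, X_top] at h1 h2
  have h3 := h2.unique h1
  have e3 : u + 1 + r = u + (Pol.prod P).dim := by omega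
  rw [← e3]
  exact h3

end Word

end Pool.Agent.H20.Petrie
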