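import Mathlib
import Pool.Agent.H20.Petrie.Product

/-!
# The factor arrays of a product array, and the product theorem
-/

namespace Pool.Agent.H20.Petrie

variable {m : ℕ} {P : Fin m → Pol} {hreg : ∀ j, Regular (P j)}
  {E : ℕ → ℕ → (Pol.prod P).Face}

/-- The word data of a product array. -/
structure Word (hreg : ∀ j, Regular (P j)) (E : ℕ → ℕ → (Pol.prod P).Face)
    (w : ℕ → Fin m) : Prop where
  arr : Arr (Pol.prod P) E
  pos : 0 < (Pol.prod P).dim
  inc1 : ∀ r, r < (Pol.prod P).dim → ∀ u, Inc (X hreg E u r) (X hreg E u (r + 1)) (w (u + r))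
  inc2 : ∀ r, r < (Pol.prod P).dim → ∀ u, Inc (X hreg E (u + 1) r) (X hreg E u (r + 1)) (w u)
  per : ∀ u, w (u + (Pol.prod P).dim) = w u

/-- The number of letters `j` before the position `u`. -/
def cnt (w : ℕ → Fin m) (j : Fin m) (u : ℕ) : ℕ := Nat.count (fun x => w x = j) u

lemma cnt_succ (w : ℕ → Fin m) (j : Fin m) (u : ℕ) :
    cnt w j (u + 1) = cnt w j u + if w u = j then 1 else 0 := by
  rw [cnt, Nat.count_succ]; rfl

lemma cnt_mono (w : ℕ → Fin m) (j : Fin m) {u v : ℕ} (h : u ≤ v) : cnt w j u ≤ cnt w j v :=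
  Nat.count_monotone _ h

namespace Word

variable {w : ℕ → Fin m} (h : Word hreg E w)
include h

lemma rank_cnt (j : Fin m) (u : ℕ) : ∀ r, r ≤ (Pol.prod P).dim →
    cnt w j u + (P j).rank (X hreg E u r j) = cnt w j (u + r) := by
  intro r
  induction r with
  | zero =>
    intro _
    have h1 := X_rank (hreg := hreg) h.arr (u := u) h.pos.le
    rw [rank_prod] at h1
    have h2 := (Finset.sum_eq_zero_iff.1 h1) j (Finset.mem_univ j)
    rw [h2]; rfl
  | succ r ih =>
    intro hr
    have h1 := ih (by omega)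
    have h2 := (h.inc1 r hr u).rank_other j
    rw [h2, ← add_assoc, h1, ← add_assoc, cnt_succ]

lemma cnt_add_dim (j : Fin m) (u : ℕ) :
    cnt w j (u + (Pol.prod P).dim) = cnt w j u + (P j).dim := by
  rw [← h.rank_cnt j u _ le_rfl, X_top]
  congr 1
  have h1 := (regular_prod hreg).rank_t
  have h2 : ∀ k, (P k).rank ((regular_prod hreg).t k) ≤ (P k).dim := fun k => (hreg k).rank_le _
  rw [rank_prod, dim_prod] at h1
  exact (Finset.sum_eq_sum_iff_of_le fun k _ => h2 k).1 h1 j (Finset.mem_univ j)

lemma cnt_add_mul_dim (j : Fin m) (u q : ℕ) :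
    cnt w j (u + q * (Pol.prod P).dim) = cnt w j u + q * (P j).dim := by
  induction q with
  | zero => simp
  | succ q ih =>
    rw [add_mul, one_mul, ← add_assoc, h.cnt_add_dim, ih]; ring

lemma infinite {j : Fin m} (hj : 1 ≤ (P j).dim) : {x | w x = j}.Infinite := by
  rw [Set.infinite_iff_exists_gt]
  intro N
  by_contra hcon
  push Not at hcon
  have h1 : ∀ k, cnt w j (N + 1 + k) = cnt w j (N + 1) := by
    intro k
    induction k with
    | zero => rfl
    | succ k ih =>
      have h3 : w (N + 1 + k) ≠ j := by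
        intro hw
        have := hcon (N + 1 + k) hw
        omega
      rw [← add_assoc, cnt_succ, ih, if_neg h3, add_zero]
  have h2 := h.cnt_add_dim j (N + 1)
  rw [h1] at h2
  omega

end Word

/-- The position of the `a`-th letter `j`. -/
noncomputable def loc (w : ℕ → Fin m) (j : Fin m) (a : ℕ) : ℕ := Nat.nth (fun x => w x = j) a

/-- The component `j` of the array, as a function of the interval `[u, v)`. -/
noncomputable def M (hreg : ∀ j, Regular (P j)) (E : ℕ → ℕ → (Pol.prod P).Face) (j : Fin m)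
    (u v : ℕ) : (P j).Face := X hreg E u (v - u) j

/-- The factor array. -/
noncomputable def F (hreg : ∀ j, Regular (P j)) (E : ℕ → ℕ → (Pol.prod P).Face) (w : ℕ → Fin m)
    (j : Fin m) (a ρ : ℕ) : (P j).Face := M hreg E j (loc w j a) (loc w j (a + ρ))

namespace Word

variable {w : ℕ → Fin m} (h : Word hreg E w)

section
include h

lemma m1 {j : Fin m} {u v : ℕ} (hv : w v ≠ j) (huv : u ≤ v) (hvn : v < u + (Pol.prod P).dim) :
    M hreg E j u v = M hreg E j u (v + 1) := by
  have h1 := h.inc1 (v - u) (by omega) u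
  have h2 := h1.eq j (by
    have : u + (v - u) = v := by omega
    rw [this]; exact fun hh => hv hh.symm)
  rw [M, M, h2]
  congr 2
  omega

lemma m2 {j : Fin m} {u v : ℕ} (hu : w u ≠ j) (huv : u < v) (hvn : v ≤ u + (Pol.prod P).dim) :
    M hreg E j u v = M hreg E j (u + 1) v := by
  have h1 := h.inc2 (v - u - 1) (by omega) u
  have h2 := h1.eq j (fun hh => hu hh.symm)
  have e1 : v - u - 1 + 1 = v - u := by omega
  have e2 : v - (u + 1) = v - u - 1 := by omega
  rw [e1] at h2
  rw [M, M, e2, h2]

lemma m3 {j : Fin m} {u : ℕ} (hu : w u ≠ j) :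
    M hreg E j u u = M hreg E j (u + 1) (u + 1) := by
  have h1 := (h.inc1 0 h.pos u).eq j (fun hh => hu hh.symm)
  have h2 := (h.inc2 0 h.pos u).eq j (fun hh => hu hh.symm)
  rw [M, M, Nat.sub_self, Nat.sub_self, h1, h2]

lemma m1' {j : Fin m} {u v : ℕ} (k : ℕ) (hv : ∀ x, v ≤ x → x < v + k → w x ≠ j) (huv : u ≤ v)
    (hvn : v + k ≤ u + (Pol.prod P).dim) : M hreg E j u v = M hreg E j u (v + k) := by
  induction k with
  | zero => rfl
  | succ k ih =>
    rw [ih (fun x hx hx' => hv x hx (by omega)) (by omega),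
      h.m1 (hv (v + k) (by omega) (by omega)) (by omega) (by omega)]
    rfl

lemma m2' {j : Fin m} {u v : ℕ} (k : ℕ) (hu : ∀ x, u ≤ x → x < u + k → w x ≠ j)
    (huv : u + k ≤ v) (hvn : v ≤ u + (Pol.prod P).dim) :
    M hreg E j u v = M hreg E j (u + k) v := by
  induction k with
  | zero => rfl
  | succ k ih =>
    rw [ih (fun x hx hx' => hu x hx (by omega)) (by omega),
      h.m2 (hu (u + k) (by omega) (by omega)) (by omega) (by omega)]
    rfl

lemma m3' {j : Fin m} {u : ℕ} (k : ℕ) (hu : ∀ x, u ≤ x → x < u + k → w x ≠ j) :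
    M hreg E j u u = M hreg E j (u + k) (u + k) := by
  induction k with
  | zero => rfl
  | succ k ih =>
    rw [ih (fun x hx hx' => hu x hx (by omega)), h.m3 (hu (u + k) (by omega) (by omega))]
    rfl

end

section Pos

lemma cnt_pos {j : Fin m} (hinf : {x | w x = j}.Infinite) (a : ℕ) : cnt w j (loc w j a) = a :=
  Nat.count_nth_of_infinite hinf a

lemma w_pos {j : Fin m} (hinf : {x | w x = j}.Infinite) (a : ℕ) : w (loc w j a) = j :=
  Nat.nth_mem_of_infinite hinf a

lemma pos_cnt {j : Fin m} {u : ℕ} (hu : w u = j) : loc w j (cnt w j u) = u :=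
  Nat.nth_count hu

lemma le_pos_cnt {j : Fin m} (hinf : {x | w x = j}.Infinite) (u : ℕ) : u ≤ loc w j (cnt w j u) :=
  Nat.le_nth_count hinf u

lemma pos_lt {j : Fin m} (hinf : {x | w x = j}.Infinite) {a b : ℕ} (hab : a < b) : loc w j a < loc w j b :=
  Nat.nth_strictMono hinf hab

lemma pos_le {j : Fin m} (hinf : {x | w x = j}.Infinite) {a b : ℕ} (hab : a ≤ b) : loc w j a ≤ loc w j b :=
  (Nat.nth_strictMono hinf).monotone hab

lemma not_between {j : Fin m} (hinf : {x | w x = j}.Infinite) {u x : ℕ} (h1 : u ≤ x)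
    (h2 : x < loc w j (cnt w j u)) : w x ≠ j := by
  intro hx
  have h3 := pos_cnt hx
  have h4 := cnt_mono w j h1
  have h5 := pos_le hinf h4
  omega

end Pos

include h

lemma pos_add_dim {j : Fin m} (hinf : {x | w x = j}.Infinite) (a : ℕ) :
    loc w j (a + (P j).dim) = loc w j a + (Pol.prod P).dim := by
  have h1 := h.cnt_add_dim j (loc w j a)
  rw [cnt_pos hinf] at h1
  rw [← h1, pos_cnt]
  rw [h.per, w_pos hinf]

/-- The normal form. -/
lemma normal {j : Fin m} (hinf : {x | w x = j}.Infinite) {u v : ℕ} (huv : u ≤ v)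
    (hvn : v ≤ u + (Pol.prod P).dim) :
    M hreg E j u v = F hreg E w j (cnt w j u) (cnt w j v - cnt w j u) := by
  have hle := cnt_mono w j huv
  have e1 : cnt w j u + (cnt w j v - cnt w j u) = cnt w j v := by omega
  rw [F, e1]
  have hU := le_pos_cnt hinf u
  have hV := le_pos_cnt hinf v
  rcases hle.lt_or_eq with hlt | heq
  · -- `U < v`
    have hUv : loc w j (cnt w j u) < v := by
      by_contra hcon
      push Not at hcon
      have h1 := cnt_mono w j hcon
      rw [cnt_pos hinf] at h1
      omega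
    have hVU : loc w j (cnt w j v) ≤ loc w j (cnt w j u) + (Pol.prod P).dim := by
      rw [← h.pos_add_dim hinf]
      apply pos_le hinf
      rw [← h.cnt_add_dim]
      exact cnt_mono w j hvn
    have h1 := h.m2' (j := j) (u := u) (v := v) (loc w j (cnt w j u) - u)
      (fun x hx hx' => not_between hinf hx (by omega)) (by omega) hvn
    rw [h1]
    have e2 : u + (loc w j (cnt w j u) - u) = loc w j (cnt w j u) := by omega
    rw [e2]
    have h2 := h.m1' (j := j) (u := loc w j (cnt w j u)) (v := v) (loc w j (cnt w j v) - v)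
      (fun x hx hx' => not_between hinf hx (by omega)) hUv.le (by omega)
    rw [h2]
    congr 1
    omega
  · -- no letter `j` in `[u, v)`
    have hUv : v ≤ loc w j (cnt w j u) := by rw [heq]; exact hV
    have h1 := h.m1' (j := j) (u := u) (v := u) (v - u)
      (fun x hx hx' => not_between hinf hx (by omega)) le_rfl (by omega)
    have e2 : u + (v - u) = v := by omega
    rw [e2] at h1
    rw [← h1, ← heq]
    have h3 := h.m3' (j := j) (u := u) (loc w j (cnt w j u) - u)
      (fun x hx hx' => not_between hinf hx (by omega))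
    rw [h3]
    congr 1 <;> omega

/-- The factor arrays are Petrie arrays. -/
lemma arr_factor {j : Fin m} (hj : 1 ≤ (P j).dim) : Arr (P j) (F hreg E w j) := by
  have hinf := h.infinite hj
  have hwin : ∀ a ρ, ρ ≤ (P j).dim → loc w j (a + ρ) ≤ loc w j a + (Pol.prod P).dim := by
    intro a ρ hρ
    rw [← h.pos_add_dim hinf]
    exact pos_le hinf (by omega)
  have hwin' : ∀ a ρ, ρ < (P j).dim → loc w j (a + ρ) < loc w j a + (Pol.prod P).dim := by
    intro a ρ hρ
    rw [← h.pos_add_dim hinf]
    exact pos_lt hinf (by omega)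
  have hm1 : ∀ u r k, r + k ≤ (Pol.prod P).dim → X hreg E u r ≤ X hreg E u (r + k) := by
    intro u r k
    induction k with
    | zero => intro _; exact le_rfl
    | succ k ih => intro hk; exact (ih (by omega)).trans (X_le1 h.arr (by omega))
  have hm2 : ∀ u r k, r + k ≤ (Pol.prod P).dim → X hreg E (u + k) r ≤ X hreg E u (r + k) := by
    intro u r k
    induction k generalizing u with
    | zero => intro _; exact le_rfl
    | succ k ih =>
      intro hk
      have h1 := ih (u + 1) (by omega)
      have e1 : u + 1 + k = u + (k + 1) := by ring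
      rw [e1] at h1
      exact h1.trans (X_le2 h.arr (by omega))
  refine ⟨?_, ?_, ?_, ?_⟩
  · intro a ρ hρ
    have h1 := hwin' a ρ hρ
    have h0 := pos_le hinf (show a ≤ a + ρ by omega)
    have h2 := h.rank_cnt j (loc w j a) (loc w j (a + ρ) - loc w j a) (by omega)
    have e : loc w j a + (loc w j (a + ρ) - loc w j a) = loc w j (a + ρ) := by omega
    rw [e, cnt_pos hinf, cnt_pos hinf] at h2
    rw [F, M]
    omega
  · intro a ρ hρ
    have h1 := hwin a (ρ + 1) (by omega)
    have h0 := pos_le hinf (show a ≤ a + ρ by omega)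
    have h0' := pos_le hinf (show a + ρ ≤ a + (ρ + 1) by omega)
    have h2 := hm1 (loc w j a) (loc w j (a + ρ) - loc w j a) (loc w j (a + (ρ + 1)) -
      loc w j (a + ρ)) (by omega)
    have e : loc w j (a + ρ) - loc w j a + (loc w j (a + (ρ + 1)) - loc w j (a + ρ)) =
      loc w j (a + (ρ + 1)) - loc w j a := by omega
    rw [e] at h2
    exact h2 j
  · intro a ρ hρ
    have h1 := hwin a (ρ + 1) (by omega)
    have h0 := pos_le hinf (show a ≤ a + 1 by omega)
    have e3 : a + 1 + ρ = a + (ρ + 1) := by ring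
    have h0' := pos_le hinf (show a + 1 ≤ a + (ρ + 1) by omega)
    have h2 := hm2 (loc w j a) (loc w j (a + (ρ + 1)) - loc w j (a + 1)) (loc w j (a + 1) -
      loc w j a) (by omega)
    have e : loc w j (a + (ρ + 1)) - loc w j (a + 1) + (loc w j (a + 1) - loc w j a) =
      loc w j (a + (ρ + 1)) - loc w j a := by omega
    have e' : loc w j a + (loc w j (a + 1) - loc w j a) = loc w j (a + 1) := by omega
    rw [e, e'] at h2
    rw [F, F, e3]
    exact h2 j
  · intro a ρ hρ hcon
    have h1 := hwin' a ρ hρ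
    have h0 := pos_le hinf (show a ≤ a + ρ by omega)
    set u := loc w j a with hu
    set v := loc w j (a + ρ) with hv
    have hwu : w u = j := w_pos hinf a
    have hwv : w v = j := w_pos hinf (a + ρ)
    -- normal form of the shifted interval
    have hn := h.normal hinf (u := u + 1) (v := v + 1) (by omega) (by omega)
    rw [cnt_succ, cnt_succ, if_pos hwu, if_pos hwv, hu, hv, cnt_pos hinf, cnt_pos hinf] at hn
    have e1 : a + ρ + 1 - (a + 1) = ρ := by omega
    rw [e1, ← hcon, F, ← hu, ← hv] at hn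
    have hr : v - u < (Pol.prod P).dim := by omega
    have i1 := h.inc1 (v - u) hr u
    have i2 := h.inc2 (v - u) hr u
    have e2 : u + (v - u) = v := by omega
    rw [e2, hwv] at i1
    rw [hwu] at i2
    apply X_ne h.arr (hreg := hreg) (u := u) hr
    funext k
    by_cases hk : k = j
    · subst hk
      have e3 : v + 1 - (u + 1) = v - u := by omega
      rw [M, M, e3] at hn
      exact hn.symm
    · rw [i1.eq k hk, i2.eq k hk]

end Word

end Pool.Agent.H20.Petrie
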