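import Mathlib
import Pool.Agent.H20.Petrie.Factor

/-!
# The product theorem
-/

namespace Pool.Agent.H20.Petrie

variable {m : ℕ} {P : Fin m → Pol} {hreg : ∀ j, Regular (P j)}
  {E : ℕ → ℕ → (Pol.prod P).Face}

namespace Word

variable {w : ℕ → Fin m} (h : Word hreg E w)

include h

/-- Components in terms of the factor arrays. -/
lemma comp_eq {j : Fin m} (hj : 1 ≤ (P j).dim) {u r : ℕ} (hr : r ≤ (Pol.prod P).dim) :
    X hreg E u r j = F hreg E w j (cnt w j u) ((P j).rank (X hreg E u r j)) := by
  have h1 := h.normal (h.infinite hj) (u := u) (v := u + r) (by omega) (by omega)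
  have h2 := h.rank_cnt j u r hr
  have e1 : u + r - u = r := by omega
  rw [M, e1] at h1
  have e2 : (P j).rank (X hreg E u r j) = cnt w j (u + r) - cnt w j u := by omega
  rw [e2]
  exact h1

lemma per_X {c : ℕ} (hd : ∀ j, 1 ≤ (P j).dim) (hgood : ∀ j, Good (P j) (c * (P j).dim))
    (u r : ℕ) (hr : r ≤ (Pol.prod P).dim) :
    X hreg E (u + c * (Pol.prod P).dim) r = X hreg E u r := by
  funext j
  have h1 := h.rank_cnt j u r hr
  have h2 := h.rank_cnt j (u + c * (Pol.prod P).dim) r hr
  have h3 := h.cnt_add_mul_dim j u c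
  have h4 := h.cnt_add_mul_dim j (u + r) c
  have e1 : u + c * (Pol.prod P).dim + r = u + r + c * (Pol.prod P).dim := by ring
  rw [e1, h4, h3] at h2
  have hrk : (P j).rank (X hreg E (u + c * (Pol.prod P).dim) r j) = (P j).rank (X hreg E u r j) := by
    omega
  rcases ((hreg j).rank_le (X hreg E u r j)).lt_or_eq with hlt | heq
  · rw [h.comp_eq (hd j) (u := u + c * (Pol.prod P).dim) hr, hrk, h3,
      ((hgood j) _ (h.arr_factor (hd j))).1 _ _ hlt, ← h.comp_eq (hd j) hr]
  · rw [(hreg j).eq_t heq, (hreg j).eq_t (hrk.trans heq)]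

/-- The increment of the number of letters `j` is divisible by the period. -/
lemma dvd_cnt {c : ℕ} (hd : ∀ j, 1 ≤ (P j).dim) (hgood : ∀ j, Good (P j) (c * (P j).dim))
    {u k r : ℕ} (hr : r ≤ (Pol.prod P).dim) (heq : X hreg E u r = X hreg E (u + k) r) (j : Fin m)
    (hlt : (P j).rank (X hreg E u r j) < (P j).dim) :
    c * (P j).dim ∣ cnt w j (u + k) - cnt w j u := by
  have hle := cnt_mono w j (show u ≤ u + k by omega)
  apply ((hgood j) _ (h.arr_factor (hd j))).2 (cnt w j u) _ _ hlt
  rw [← h.comp_eq (hd j) hr, Nat.add_sub_cancel' hle]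
  conv_lhs => rw [heq]
  rw [h.comp_eq (hd j) hr, ← heq]

lemma lemmaA {c : ℕ} (hc : 2 ≤ c) (hd : ∀ j, 1 ≤ (P j).dim)
    (hgood : ∀ j, Good (P j) (c * (P j).dim))
    {u k r : ℕ} (hr : r ≤ (Pol.prod P).dim) (heq : X hreg E u r = X hreg E (u + k) r)
    (hk : 0 < k) (j : Fin m)
    (hlt : (P j).rank (X hreg E u r j) < (P j).dim) (h0 : cnt w j (u + k) = cnt w j u) :
    False := by
  -- `k < n`
  have hkn : k < (Pol.prod P).dim := by
    by_contra hcon
    push Not at hcon
    have h1 := cnt_mono w j (show u + (Pol.prod P).dim ≤ u + k by omega)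
    have h2 := h.cnt_add_dim j u
    have h3 := hd j
    omega
  set i := w u with hi
  have h1 : cnt w i (u + 1) = cnt w i u + 1 := by rw [cnt_succ, if_pos hi.symm]
  have h2 := cnt_mono w i (show u + 1 ≤ u + k by omega)
  have h3 := cnt_mono w i (show u + k ≤ u + (Pol.prod P).dim by omega)
  have h4 := h.cnt_add_dim i u
  have hrk : (P i).rank (X hreg E u r i) = (P i).dim := by
    by_contra hcon
    have h5 := lt_of_le_of_ne ((hreg i).rank_le (X hreg E u r i)) hcon
    obtain ⟨q, hq⟩ := h.dvd_cnt hd hgood hr heq i h5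
    have h6 := hd i
    rcases Nat.eq_zero_or_pos q with rfl | hq0
    · omega
    · have h7 : 2 * (P i).dim ≤ c * (P i).dim * q :=
        calc 2 * (P i).dim ≤ c * (P i).dim := Nat.mul_le_mul_right _ hc
          _ = c * (P i).dim * 1 := by ring
          _ ≤ c * (P i).dim * q := Nat.mul_le_mul_left _ hq0
      omega
  have h5 := h.rank_cnt i (u + k) r hr
  rw [← heq, hrk] at h5
  have h6 : u + (Pol.prod P).dim < u + k + r := by
    by_contra hcon
    push Not at hcon
    have h7 := cnt_mono w i hcon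
    omega
  have h7 := h.rank_cnt j (u + k) r hr
  rw [← heq] at h7
  have h8 := cnt_mono w j h6.le
  have h9 := h.cnt_add_dim j u
  omega

end Word

theorem good_prod {c : ℕ} (hc : 2 ≤ c) (hreg : ∀ j, Regular (P j)) (hd : ∀ j, 1 ≤ (P j).dim)
    (hgood : ∀ j, Good (P j) (c * (P j).dim)) : Good (Pol.prod P) (c * (Pol.prod P).dim) := by
  intro E hE
  rcases Nat.eq_zero_or_pos (Pol.prod P).dim with hn | hn
  · exact ⟨fun u r hr => absurd hr (by omega), fun u k r hr => absurd hr (by omega)⟩
  obtain ⟨w, hw, hper⟩ := exists_word (hreg := hreg) hE hn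
  have h : Word hreg E w := ⟨hE, hn, fun r hr u => (hw r hr u).1, fun r hr u => (hw r hr u).2,
    hper⟩
  have hperE : ∀ q u r, r < (Pol.prod P).dim →
      E (u + q * (c * (Pol.prod P).dim)) r = E u r := by
    intro q
    induction q with
    | zero => intro u r _; simp
    | succ q ih =>
      intro u r hr
      have e : u + (q + 1) * (c * (Pol.prod P).dim) =
        u + q * (c * (Pol.prod P).dim) + c * (Pol.prod P).dim := by ring
      have h1 := h.per_X hd hgood (u + q * (c * (Pol.prod P).dim)) r hr.le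
      rw [X_lt hr, X_lt hr] at h1
      rw [e, h1, ih u r hr]
  refine ⟨fun u r hr => by simpa using hperE 1 u r hr, ?_⟩
  intro u k r hr heq
  set N := c * (Pol.prod P).dim with hN
  have hNpos : 0 < N := Nat.mul_pos (by omega) hn
  have hk := Nat.mod_add_div k N
  have hlt := Nat.mod_lt k hNpos
  rw [Nat.dvd_iff_mod_eq_zero]
  set k' := k % N with hk'
  have heq' : E u r = E (u + k') r := by
    rw [heq, ← hperE (k / N) (u + k') r hr]
    have e : k / N * N = N * (k / N) := mul_comm _ _
    congr 1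
    omega
  by_contra hne
  have hk0 : 0 < k' := Nat.pos_of_ne_zero hne
  have heqX : X hreg E u r = X hreg E (u + k') r := by rw [X_lt hr, X_lt hr, heq']
  -- a coordinate which is not the top
  have hex : ∃ j, (P j).rank (X hreg E u r j) < (P j).dim := by
    by_contra hcon
    push Not at hcon
    have h1 := X_rank (hreg := hreg) hE (u := u) hr.le
    rw [rank_prod] at h1
    have h2 : (Pol.prod P).dim ≤ ∑ j, (P j).rank (X hreg E u r j) := by
      rw [dim_prod]; exact Finset.sum_le_sum fun j _ => hcon j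
    omega
  obtain ⟨j, hj⟩ := hex
  obtain ⟨q, hq⟩ := h.dvd_cnt hd hgood hr.le heqX j hj
  have h1 := cnt_mono w j (show u ≤ u + k' by omega)
  have h2 := cnt_mono w j (show u + k' ≤ u + c * (Pol.prod P).dim by omega)
  have h3 := h.cnt_add_mul_dim j u c
  have hdj := hd j
  have hpos : 0 < c * (P j).dim := Nat.mul_pos (by omega) (by omega)
  rcases Nat.eq_zero_or_pos q with rfl | hq0
  · apply h.lemmaA hc hd hgood hr.le heqX hk0 j hj
    omega
  · have h4 : c * (P j).dim ≤ c * (P j).dim * q := Nat.le_mul_of_pos_right _ hq0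
    have h5 : cnt w j (u + k') = cnt w j u + c * (P j).dim := by omega
    have hp := h.per_X hd hgood u r hr.le
    have e : u + c * (Pol.prod P).dim = u + k' + (N - k') := by omega
    rw [e] at hp
    apply h.lemmaA hc hd hgood (u := u + k') (k := N - k') hr.le (by rw [hp, heqX]) (by omega) j
      (by rw [← heqX]; exact hj)
    rw [← e, h3, h5]

end Pool.Agent.H20.Petrie
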