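import Mathlib
import Pool.Agent.H20.Petrie.ProdGood

/-!
# Cubes and crosspolytopes
-/

namespace Pool.Agent.H20.Petrie

/-! ## Segments and cubes -/

lemma regular_segment : Regular segment := by
  refine ⟨?_, ?_, ?_⟩
  · intro x y h
    rcases h with rfl | rfl
    · exact le_rfl
    · cases x <;> decide
  · intro x y h hr
    rcases h with rfl | rfl
    · rfl
    · cases x
      · exact absurd hr (by decide)
      · exact absurd hr (by decide)
      · rfl
  · exact ⟨SegFace.whole, rfl, fun x => Or.inr rfl⟩

lemma good_segment : Good segment (2 * segment.dim) := by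
  intro E hE
  have h0 : ∀ u, (E u 0 = SegFace.left ∨ E u 0 = SegFace.right) := by
    intro u
    have h := hE.rank_eq u 0 (by decide)
    generalize E u 0 = x at h ⊢
    cases x
    · exact Or.inl rfl
    · exact Or.inr rfl
    · exact absurd h (by decide)
  have hne := fun u => hE.ne u 0 (by decide)
  have hper : ∀ u, E (u + 2) 0 = E u 0 := by
    intro u
    have h1 := hne u
    have h2 := hne (u + 1)
    rcases h0 u with a | a <;> rcases h0 (u + 1) with b | b <;> rcases h0 (u + 1 + 1) with c | c
      <;> first
        | exact absurd (a.trans b.symm) h1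
        | exact absurd (b.trans c.symm) h2
        | exact c.trans a.symm
  have hper' : ∀ q u, E (u + 2 * q) 0 = E u 0 := by
    intro q
    induction q with
    | zero => intro u; rfl
    | succ q ih => intro u; rw [show u + 2 * (q + 1) = u + 2 * q + 2 by ring, hper, ih]
  have hdim : segment.dim = 1 := rfl
  rw [hdim]
  refine ⟨?_, ?_⟩
  · intro u r hr
    have : r = 0 := by omega
    subst this
    exact hper u
  · intro u k r hr h
    have : r = 0 := by omega
    subst this
    rcases Nat.even_or_odd' k with ⟨q, rfl | rfl⟩
    · exact ⟨q, by ring⟩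
    · exfalso
      apply hne u
      rw [h, show u + (2 * q + 1) = u + 1 + 2 * q by ring, hper']

lemma dim_cube (d : ℕ) : (cube d).dim = d := by
  rw [cube, dim_prod]
  change ∑ _j : Fin d, 1 = d
  simp

lemma regular_cube (d : ℕ) : Regular (cube d) := regular_prod fun _ => regular_segment

lemma good_cube (d : ℕ) : Good (cube d) (2 * (cube d).dim) :=
  good_prod le_rfl (fun _ => regular_segment) (fun _ => le_rfl) (fun _ => good_segment)

/-! ## Crosspolytopes -/

lemma cross_core {d : ℕ} (S : ℕ → ℕ → Finset (Fin d × Bool))
    (hcard : ∀ u r, r < d → (S u r).card = r + 1)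
    (h1 : ∀ u r, r + 1 < d → S u r ⊆ S u (r + 1))
    (h2 : ∀ u r, r + 1 < d → S (u + 1) r ⊆ S u (r + 1))
    (hne : ∀ u r, r < d → S u r ≠ S (u + 1) r)
    (hanti : ∀ u r, r < d → ∀ i, ¬ ((i, true) ∈ S u r ∧ (i, false) ∈ S u r)) :
    (∀ u r, r < d → S (u + 2 * d) r = S u r) ∧
      ∀ u k r, r < d → S u r = S (u + k) r → 2 * d ∣ k := by
  rcases Nat.eq_zero_or_pos d with rfl | hd
  · exact ⟨fun u r hr => absurd hr (by omega), fun u k r hr => absurd hr (by omega)⟩
  choose V hV using fun u => Finset.card_eq_one.1 (hcard u 0 hd)
  have hS : ∀ r, r < d → ∀ u, S u r = (Finset.Icc u (u + r)).image V := by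
    intro r
    induction r with
    | zero => intro _ u; simp [hV]
    | succ r ih =>
      intro hr u
      have e1 := ih (by omega) u
      have e2 := ih (by omega) (u + 1)
      have hsub : S u r ∪ S (u + 1) r ⊆ S u (r + 1) :=
        Finset.union_subset (h1 u r hr) (h2 u r hr)
      have hssub : S u r ⊂ S u r ∪ S (u + 1) r := by
        rw [Finset.ssubset_iff_subset_ne]
        refine ⟨Finset.subset_union_left, fun h => ?_⟩
        have h3 : S (u + 1) r ⊆ S u r := by
          rw [h]; exact Finset.subset_union_right
        exact hne u r (by omega) (Finset.eq_of_subset_of_card_le h3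
          (by rw [hcard _ _ (by omega), hcard _ _ (by omega)])).symm
      have h4 := Finset.card_lt_card hssub
      rw [hcard u r (by omega)] at h4
      have h5 : S u r ∪ S (u + 1) r = S u (r + 1) :=
        Finset.eq_of_subset_of_card_le hsub (by rw [hcard u (r + 1) hr]; omega)
      rw [← h5, e1, e2, ← Finset.image_union]
      congr 1
      ext x
      simp only [Finset.mem_union, Finset.mem_Icc]
      omega
  have hinj : ∀ u a b, u ≤ a → a < u + d → u ≤ b → b < u + d → (V a).1 = (V b).1 → a = b := by
    intro u a b ha ha' hb hb' h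
    have h3 := hS (d - 1) (by omega) u
    have h4 := hcard u (d - 1) (by omega)
    have h5 : (Finset.Icc u (u + (d - 1))).card = d - 1 + 1 := by
      rw [Nat.card_Icc]; omega
    rw [h3, ← h5, Finset.card_image_iff] at h4
    have ma : a ∈ Finset.Icc u (u + (d - 1)) := Finset.mem_Icc.2 (by omega)
    have mb : b ∈ Finset.Icc u (u + (d - 1)) := Finset.mem_Icc.2 (by omega)
    apply h4 (Finset.mem_coe.2 ma) (Finset.mem_coe.2 mb)
    have Ma : V a ∈ S u (d - 1) := by rw [h3]; exact Finset.mem_image_of_mem V ma
    have Mb : V b ∈ S u (d - 1) := by rw [h3]; exact Finset.mem_image_of_mem V mb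
    have h6 := hanti u (d - 1) (by omega) (V a).1
    rcases hVa : V a with ⟨i, x⟩
    rcases hVb : V b with ⟨j, y⟩
    rw [hVa] at Ma h h6
    rw [hVb] at Mb h
    simp only at h h6
    subst h
    cases x <;> cases y
    · rfl
    · exact absurd ⟨Mb, Ma⟩ h6
    · exact absurd ⟨Ma, Mb⟩ h6
    · rfl
  have hfst : ∀ u, (V (u + d)).1 = (V u).1 := by
    intro u
    have hf : Function.Injective (fun i : Fin d => (V (u + 1 + i)).1) := by
      intro i j hij
      have := hinj (u + 1) (u + 1 + i) (u + 1 + j) (by omega) (by omega) (by omega) (by omega) hij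
      exact Fin.ext (by omega)
    obtain ⟨i, hi⟩ := (Finite.injective_iff_surjective.1 hf) (V u).1
    simp only at hi
    by_cases hid : (i : ℕ) + 1 < d
    · have := hinj u (u + 1 + i) u (by omega) (by omega) (by omega) (by omega) hi
      omega
    · have e : u + 1 + (i : ℕ) = u + d := by omega
      rw [← hi, e]
  have hsnd : ∀ u, (V (u + d)).2 = !(V u).2 := by
    intro u
    rw [← Bool.eq_not_iff.symm] 
    intro h
    have h3 : V (u + d) = V u := Prod.ext (hfst u) h
    apply hne u (d - 1) (by omega)
    rw [hS _ (by omega), hS _ (by omega)]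
    ext x
    simp only [Finset.mem_image, Finset.mem_Icc]
    constructor
    · rintro ⟨a, ha, rfl⟩
      by_cases hau : a = u
      · exact ⟨u + d, by omega, by rw [h3, hau]⟩
      · exact ⟨a, by omega, rfl⟩
    · rintro ⟨a, ha, rfl⟩
      by_cases hau : a = u + d
      · exact ⟨u, by omega, by rw [hau, h3]⟩
      · exact ⟨a, by omega, rfl⟩
  have hper : ∀ u, V (u + 2 * d) = V u := by
    intro u
    have e : u + 2 * d = u + d + d := by ring
    rw [e]
    refine Prod.ext ?_ ?_
    · rw [hfst, hfst]
    · rw [hsnd, hsnd, Bool.not_not]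
  have hper' : ∀ q u, V (u + 2 * d * q) = V u := by
    intro q
    induction q with
    | zero => intro u; rfl
    | succ q ih => intro u; rw [show u + 2 * d * (q + 1) = u + 2 * d * q + 2 * d by ring, hper, ih]
  have hkey : ∀ a k, V a = V (a + k) → 2 * d ∣ k := by
    intro a k h
    rw [Nat.dvd_iff_mod_eq_zero]
    have hk := Nat.mod_add_div k (2 * d)
    have hlt := Nat.mod_lt k (show 0 < 2 * d by omega)
    set k' := k % (2 * d) with hk'
    rw [← hk, ← add_assoc, hper'] at h
    by_cases hkd : k' < d
    · have := hinj a a (a + k') le_rfl (by omega) (by omega) (by omega) (by rw [h])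
      omega
    · exfalso
      have e : a + k' = a + (k' - d) + d := by omega
      have h3 : (V a).1 = (V (a + (k' - d))).1 := by rw [h, e, hfst]
      have h4 := hinj a a (a + (k' - d)) le_rfl (by omega) (by omega) (by omega) h3
      have e2 : k' = d := by omega
      rw [e2] at h
      have h5 := hsnd a
      rw [← h] at h5
      cases hb : (V a).2 <;> rw [hb] at h5 <;> simp at h5
  have hkeyZ : ∀ a b, V a = V b → ((2 * d : ℕ) : ℤ) ∣ (b : ℤ) - a := by
    intro a b h
    rcases le_total a b with hab | hab
    · obtain ⟨k, rfl⟩ := Nat.exists_eq_add_of_le hab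
      have h3 := hkey a k h
      have e : ((a + k : ℕ) : ℤ) - a = (k : ℤ) := by push_cast; ring
      rw [e]
      exact_mod_cast h3
    · obtain ⟨k, rfl⟩ := Nat.exists_eq_add_of_le hab
      have h3 := hkey b k h.symm
      have e : (b : ℤ) - ((b + k : ℕ) : ℤ) = -(k : ℤ) := by push_cast; ring
      rw [e, dvd_neg]
      exact_mod_cast h3
  refine ⟨?_, ?_⟩
  · intro u r hr
    rw [hS r hr, hS r hr]
    ext x
    simp only [Finset.mem_image, Finset.mem_Icc]
    constructor
    · rintro ⟨a, ha, rfl⟩
      refine ⟨a - 2 * d, by omega, ?_⟩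
      have e : a = a - 2 * d + 2 * d := by omega
      conv_rhs => rw [e]
      rw [hper]
    · rintro ⟨a, ha, rfl⟩
      exact ⟨a + 2 * d, by omega, hper a⟩
  · intro u k r hr h
    rw [hS r hr, hS r hr] at h
    have m1 : V u ∈ (Finset.Icc (u + k) (u + k + r)).image V := by
      rw [← h]
      exact Finset.mem_image_of_mem V (Finset.mem_Icc.2 (by omega))
    have m2 : V (u + k) ∈ (Finset.Icc u (u + r)).image V := by
      rw [h]
      exact Finset.mem_image_of_mem V (Finset.mem_Icc.2 (by omega))
    obtain ⟨a, ha, ha'⟩ := Finset.mem_image.1 m1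
    obtain ⟨b, hb, hb'⟩ := Finset.mem_image.1 m2
    rw [Finset.mem_Icc] at ha hb
    have d1 := hkeyZ _ _ ha'.symm
    have d2 := hkeyZ _ _ hb'
    have d3 := dvd_sub d1 d2
    have e3 : ((a : ℤ) - (u : ℤ)) - (((u + k : ℕ) : ℤ) - (b : ℤ)) =
        ((a - (u + k) + (b - u) : ℕ) : ℤ) := by
      have : u + k ≤ a := ha.1
      have : u ≤ b := hb.1
      omega
    rw [e3, Int.natCast_dvd_natCast] at d3
    have h4 := Nat.eq_zero_of_dvd_of_lt d3 (by omega)
    have h5 : a = u + k := by omega
    rw [h5] at ha'
    exact hkey u k ha'.symm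

section

variable {d : ℕ}

lemma regular_cross : Regular (cross d) := by
  refine ⟨?_, ?_, ?_⟩
  · intro x y h
    change WithTop (CrossProper d) at x y
    change crossRank d x ≤ crossRank d y
    change x ≤ y at h
    induction y using WithTop.recTopCoe with
    | top =>
      induction x using WithTop.recTopCoe with
      | top => exact le_rfl
      | coe s =>
        change s.1.card - 1 ≤ d
        have h1 : s.1.card ≤ d := by
          have hinj : Set.InjOn Prod.fst (s.1 : Set (Fin d × Bool)) := by
            rintro ⟨i, x⟩ hi ⟨j, y⟩ hj hij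
            simp only at hij
            subst hij
            have := s.2.2 i
            cases x <;> cases y
            · rfl
            · exact absurd ⟨hj, hi⟩ this
            · exact absurd ⟨hi, hj⟩ this
            · rfl
          rw [← Finset.card_image_of_injOn hinj]
          exact (Finset.card_le_univ _).trans (by simp)
        omega
    | coe t =>
      induction x using WithTop.recTopCoe with
      | top => exact absurd h (by simp)
      | coe s =>
        rw [WithTop.coe_le_coe] at h
        change s.1.card - 1 ≤ t.1.card - 1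
        have := Finset.card_le_card (show s.1 ⊆ t.1 from h)
        omega
  · intro x y h hr
    change WithTop (CrossProper d) at x y
    change crossRank d x = crossRank d y at hr
    change x ≤ y at h
    induction y using WithTop.recTopCoe with
    | top =>
      induction x using WithTop.recTopCoe with
      | top => rfl
      | coe s =>
        exfalso
        change s.1.card - 1 = d at hr
        have h1 : s.1.card ≤ d := by
          have hinj : Set.InjOn Prod.fst (s.1 : Set (Fin d × Bool)) := by
            rintro ⟨i, x⟩ hi ⟨j, y⟩ hj hij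
            simp only at hij
            subst hij
            have := s.2.2 i
            cases x <;> cases y
            · rfl
            · exact absurd ⟨hj, hi⟩ this
            · exact absurd ⟨hi, hj⟩ this
            · rfl
          rw [← Finset.card_image_of_injOn hinj]
          exact (Finset.card_le_univ _).trans (by simp)
        have h2 : 0 < s.1.card := Finset.card_pos.2 s.2.1
        omega
    | coe t =>
      induction x using WithTop.recTopCoe with
      | top => exact absurd h (by simp)
      | coe s =>
        rw [WithTop.coe_le_coe] at h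
        change s.1.card - 1 = t.1.card - 1 at hr
        have h2 : 0 < s.1.card := Finset.card_pos.2 s.2.1
        have h3 : 0 < t.1.card := Finset.card_pos.2 t.2.1
        have h4 := Finset.eq_of_subset_of_card_le (show s.1 ⊆ t.1 from h) (by omega)
        rw [Subtype.ext h4]
  · refine ⟨(⊤ : WithTop (CrossProper d)), rfl, fun x => ?_⟩
    change WithTop (CrossProper d) at x
    exact (le_top : x ≤ ⊤)

/-- A proper face of the crosspolytope, given by its vertices. -/
def mkCross (s : Finset (Fin d × Bool))
    (hs : s.Nonempty ∧ ∀ i, ¬ ((i, true) ∈ s ∧ (i, false) ∈ s)) : WithTop (CrossProper d) :=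
  WithTop.some (⟨s, hs⟩ : CrossProper d)

lemma mkCross_le {s t : Finset (Fin d × Bool)} {hs} {ht} (h : mkCross s hs ≤ mkCross t ht) :
    s ⊆ t := by
  have h1 := (WithTop.coe_le_coe (b := (⟨s, hs⟩ : CrossProper d))
    (a := (⟨t, ht⟩ : CrossProper d))).1 h
  exact h1

lemma good_cross : Good (cross d) (2 * (cross d).dim) := by
  intro E hE
  have hdim : (cross d).dim = d := rfl
  have hex : ∀ u r, ∃ s : Finset (Fin d × Bool), r < d →
      ∃ hs : s.Nonempty ∧ ∀ i, ¬ ((i, true) ∈ s ∧ (i, false) ∈ s),
        E u r = mkCross s hs ∧ s.card = r + 1 := by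
    intro u r
    by_cases hr : r < d
    · have h1 : crossRank d (E u r) = r := hE.rank_eq u r hr
      generalize E u r = x at h1
      change WithTop (CrossProper d) at x
      induction x using WithTop.recTopCoe with
      | top =>
        exfalso
        change d = r at h1
        omega
      | coe s =>
        refine ⟨s.1, fun _ => ⟨s.2, rfl, ?_⟩⟩
        change s.1.card - 1 = r at h1
        have h2 : 0 < s.1.card := Finset.card_pos.2 s.2.1
        omega
    · exact ⟨∅, fun h => absurd h hr⟩
  choose S hS using hex
  have hle : ∀ u r v s, r < d → s < d → E u r ≤ E v s → S u r ⊆ S v s := by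
    intro u r v s hr hs h
    obtain ⟨h1, h2, _⟩ := hS u r hr
    obtain ⟨h4, h5, _⟩ := hS v s hs
    rw [h2, h5] at h
    exact mkCross_le h
  have heq : ∀ u r v s, r < d → s < d → (E u r = E v s ↔ S u r = S v s) := by
    intro u r v s hr hs
    obtain ⟨h1, h2, _⟩ := hS u r hr
    obtain ⟨h4, h5, _⟩ := hS v s hs
    constructor
    · intro h
      apply Finset.Subset.antisymm
      · exact hle _ _ _ _ hr hs (le_of_eq h)
      · exact hle _ _ _ _ hs hr (le_of_eq h.symm)
    · intro h
      rw [h2, h5]
      congr 2
  have hcore := cross_core S (fun u r hr => (hS u r hr).choose_spec.2)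
    (fun u r hr => hle _ _ _ _ (by omega) hr (hE.le1 u r hr))
    (fun u r hr => hle _ _ _ _ (by omega) hr (hE.le2 u r hr))
    (fun u r hr h => hE.ne u r hr ((heq _ _ _ _ hr hr).2 h))
    (fun u r hr => (hS u r hr).choose.2)
  rw [hdim]
  refine ⟨fun u r hr => (heq _ _ _ _ hr hr).2 (hcore.1 u r hr), fun u k r hr h =>
    hcore.2 u k r hr ((heq _ _ _ _ hr hr).1 h)⟩

end

/-- Part (a): Cartesian products of cubes and crosspolytopes have only acoptic Petrie schemes. -/
theorem onlyAcoptic_prod_cube_cross (m : ℕ) (P : Fin m → Pol)
    (hP : ∀ j, ∃ d, 1 ≤ d ∧ (P j = cube d ∨ P j = cross d)) : OnlyAcoptic (Pol.prod P) := by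
  apply onlyAcoptic_of_good (p := 2 * (Pol.prod P).dim)
  apply good_prod le_rfl
  · intro j
    obtain ⟨d, _, h | h⟩ := hP j
    · rw [h]; exact regular_cube d
    · rw [h]; exact regular_cross
  · intro j
    obtain ⟨d, hd, h | h⟩ := hP j
    · rw [h, dim_cube]; exact hd
    · rw [h]; exact hd
  · intro j
    obtain ⟨d, _, h | h⟩ := hP j
    · rw [h]; exact good_cube d
    · rw [h]; exact good_cross

end Pool.Agent.H20.Petrie
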