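import Mathlib
import Pool.Agent.H20.Petrie.CubeCross

/-!
# Construction of Petrie schemes in products
-/

namespace Pool.Agent.H20.Petrie

/-- A two-sided Petrie array. -/
structure ArrZ (P : Pol) (E : ℤ → ℕ → P.Face) : Prop where
  rank_eq : ∀ u r, r < P.dim → P.rank (E u r) = r
  le1 : ∀ u r, r + 1 < P.dim → E u r ≤ E u (r + 1)
  le2 : ∀ u r, r + 1 < P.dim → E (u + 1) r ≤ E u (r + 1)
  ne : ∀ u r, r < P.dim → E u r ≠ E (u + 1) r

/-- A two-sided Petrie array gives a Petrie scheme for the order `γ_0 γ_1 ⋯ γ_{n-1}`. -/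
lemma ArrZ.isPetrie {P : Pol} {E : ℤ → ℕ → P.Face} (h : ArrZ P E) :
    IsPetrie P (Equiv.refl _) (fun k r => E k r) := by
  intro k
  set G : Fin (P.dim + 1) → Fin P.dim → P.Face :=
    fun l r => if (r : ℕ) < l then E (k + 1) r else E k r with hG
  have hnew : ∀ (l : Fin (P.dim + 1)) (r : Fin P.dim), (r : ℕ) < l → G l r = E (k + 1) r := by
    intro l r h
    rw [hG]
    exact if_pos h
  have hold : ∀ (l : Fin (P.dim + 1)) (r : Fin P.dim), ¬ (r : ℕ) < l → G l r = E k r := by
    intro l r h
    rw [hG]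
    exact if_neg h
  refine ⟨G, ?_, ?_, ?_, ?_⟩
  · funext r
    exact hold _ _ (by simp)
  · funext r
    exact hnew _ _ (by simp)
  · intro l
    refine ⟨?_, ?_⟩
    · intro i
      by_cases hi : (i : ℕ) < l
      · rw [hnew _ _ hi]; exact h.rank_eq _ _ i.2
      · rw [hold _ _ hi]; exact h.rank_eq _ _ i.2
    · have hchain : ∀ u (a b : ℕ), a + b < P.dim → E u a ≤ E u (a + b) := by
        intro u a b
        induction b with
        | zero => intro _; exact le_rfl
        | succ b ih => intro hb; exact (ih (by omega)).trans (h.le1 u (a + b) (by omega))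
      intro i j hij
      rw [Fin.le_def] at hij
      obtain ⟨b, hb⟩ := Nat.exists_eq_add_of_le hij
      have hj := j.2
      by_cases hi : (i : ℕ) < l <;> by_cases hjl : (j : ℕ) < l
      · rw [hnew _ _ hi, hnew _ _ hjl, hb]; exact hchain _ _ _ (by omega)
      · rw [hnew _ _ hi, hold _ _ hjl, hb]
        rcases b with _ | b
        · omega
        · refine (h.le2 k i (by omega)).trans ?_
          have := hchain k (i + 1) b (by omega)
          rwa [show (i : ℕ) + 1 + b = i + (b + 1) by ring] at this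
      · omega
      · rw [hold _ _ hi, hold _ _ hjl, hb]; exact hchain _ _ _ (by omega)
  · intro l
    refine ⟨?_, ?_⟩
    · rw [Equiv.refl_apply, hold _ _ (by simp), hnew _ _ (by simp)]
      exact h.ne _ _ l.2
    · intro j hj
      rw [Equiv.refl_apply] at hj
      have hj' : (j : ℕ) ≠ l := fun hh => hj (Fin.ext hh)
      by_cases hjl : (j : ℕ) < l
      · rw [hnew _ _ (by simpa using hjl), hnew _ _ (by rw [Fin.val_succ]; omega)]
      · rw [hold _ _ (by simpa using hjl), hold _ _ (by rw [Fin.val_succ]; omega)]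

section Product

variable {m : ℕ} {P : Fin m → Pol} (hreg : ∀ j, Regular (P j)) (Fc : ∀ j, ℤ → ℕ → (P j).Face)

/-- The array extended by the top. -/
noncomputable def XF (j : Fin m) (a : ℤ) (ρ : ℕ) : (P j).Face :=
  if ρ < (P j).dim then Fc j a ρ else (hreg j).t

variable {hreg Fc}

lemma XF_lt {j : Fin m} {a : ℤ} {ρ : ℕ} (h : ρ < (P j).dim) : XF hreg Fc j a ρ = Fc j a ρ := by
  rw [XF, if_pos h]

lemma XF_top {j : Fin m} {a : ℤ} {ρ : ℕ} (h : (P j).dim ≤ ρ) :
    XF hreg Fc j a ρ = (hreg j).t := by
  rw [XF, if_neg (by omega)]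

lemma XF_rank (hF : ∀ j, ArrZ (P j) (Fc j)) {j : Fin m} {a : ℤ} {ρ : ℕ} (h : ρ ≤ (P j).dim) :
    (P j).rank (XF hreg Fc j a ρ) = ρ := by
  rcases h.lt_or_eq with h | h
  · rw [XF_lt h]; exact (hF j).rank_eq _ _ h
  · rw [XF_top h.ge, (hreg j).rank_t, h]

lemma XF_le1 (hF : ∀ j, ArrZ (P j) (Fc j)) {j : Fin m} {a : ℤ} {ρ : ℕ} (h : ρ + 1 ≤ (P j).dim) :
    XF hreg Fc j a ρ ≤ XF hreg Fc j a (ρ + 1) := by
  rcases h.lt_or_eq with h | h
  · rw [XF_lt h, XF_lt (by omega)]; exact (hF j).le1 _ _ h
  · rw [XF_top h.ge]; exact (hreg j).le_t _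

lemma XF_le2 (hF : ∀ j, ArrZ (P j) (Fc j)) {j : Fin m} {a : ℤ} {ρ : ℕ} (h : ρ + 1 ≤ (P j).dim) :
    XF hreg Fc j (a + 1) ρ ≤ XF hreg Fc j a (ρ + 1) := by
  rcases h.lt_or_eq with h | h
  · rw [XF_lt h, XF_lt (by omega)]; exact (hF j).le2 _ _ h
  · rw [XF_top h.ge]; exact (hreg j).le_t _

variable (hreg Fc)

/-- The product array for the letter counting functions `c`. -/
noncomputable def EP (c : Fin m → ℤ → ℤ) (u : ℤ) (r : ℕ) : (Pol.prod P).Face :=
  fun j => XF hreg Fc j (c j u) (c j (u + r) - c j u).toNat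

variable {hreg Fc}

lemma arrZ_prod (hF : ∀ j, ArrZ (P j) (Fc j)) {c : Fin m → ℤ → ℤ} {w : ℤ → Fin m}
    (hc : ∀ j u, c j (u + 1) = c j u + if w u = j then 1 else 0)
    (hn : ∀ j u, c j (u + (Pol.prod P).dim) = c j u + (P j).dim) :
    ArrZ (Pol.prod P) (EP hreg Fc c) := by
  set n := (Pol.prod P).dim with hndef
  have hmono : ∀ j u, ∀ k : ℕ, c j u ≤ c j (u + k) := by
    intro j u k
    induction k with
    | zero => simp
    | succ k ih =>
      have h1 := hc j (u + k)
      have e : u + ((k + 1 : ℕ) : ℤ) = u + k + 1 := by push_cast; ring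
      rw [e, h1]
      split_ifs <;> omega
  have hle : ∀ j u, ∀ k : ℕ, k ≤ n → c j (u + k) - c j u ≤ (P j).dim := by
    intro j u k hk
    obtain ⟨l, hl⟩ := Nat.exists_eq_add_of_le hk
    have h1 := hmono j (u + k) l
    have h2 := hn j u
    have e : u + (k : ℤ) + l = u + (n : ℤ) := by rw [hl]; push_cast; ring
    rw [e] at h1
    omega
  have hsum : ∀ u, ∀ k : ℕ, ∑ j, (c j (u + k) - c j u).toNat = k := by
    intro u k
    induction k with
    | zero => simp
    | succ k ih =>
      have h1 : ∀ j, (c j (u + (k + 1 : ℕ)) - c j u).toNat =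
          (c j (u + k) - c j u).toNat + if w (u + k) = j then 1 else 0 := by
        intro j
        have h1 := hc j (u + k)
        have e : u + ((k + 1 : ℕ) : ℤ) = u + k + 1 := by push_cast; ring
        have h2 := hmono j u k
        rw [e, h1]
        split_ifs <;> omega
      rw [Finset.sum_congr rfl fun j _ => h1 j, Finset.sum_add_distrib, ih]
      simp
  refine ⟨?_, ?_, ?_, ?_⟩
  · intro u r hr
    rw [rank_prod]
    conv_rhs => rw [← hsum u r]
    apply Finset.sum_congr rfl
    intro j _
    rw [EP, XF_rank hF]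
    have := hle j u r hr.le
    omega
  · intro u r hr j
    rw [EP, EP]
    have h1 := hc j (u + r)
    have h3 := hmono j u r
    have h4 := hle j u (r + 1) (by omega)
    have e : u + ((r + 1 : ℕ) : ℤ) = u + r + 1 := by push_cast; ring
    rw [e] at h4 ⊢
    rw [h1] at h4 ⊢
    split_ifs with h
    · rw [if_pos h] at h4
      have e2 : (c j (u + r) + 1 - c j u).toNat = (c j (u + r) - c j u).toNat + 1 := by omega
      rw [e2]
      exact XF_le1 hF (by omega)
    · rw [add_zero]
  · intro u r hr j
    rw [EP, EP]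
    have h1 := hc j u
    have h3 := hmono j (u + 1) r
    have h4 := hle j u (r + 1) (by omega)
    have e : u + ((r + 1 : ℕ) : ℤ) = u + 1 + r := by push_cast; ring
    rw [e] at h4 ⊢
    by_cases h : w u = j
    · rw [if_pos h] at h1
      rw [h1]
      have e2 : (c j (u + 1 + r) - c j u).toNat = (c j (u + 1 + r) - (c j u + 1)).toNat + 1 := by
        omega
      rw [e2]
      exact XF_le2 hF (by omega)
    · rw [if_neg h, add_zero] at h1
      rw [h1]
  · intro u r hr hcon
    have h5 := congrFun hcon (w u)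
    rw [EP, EP] at h5
    have h1 := hc (w u) u
    rw [if_pos rfl] at h1
    have h2 := hc (w u) (u + r)
    have h3 := hmono (w u) u r
    have h3' := hmono (w u) (u + 1) r
    have h4 := hle (w u) u (r + 1) (by omega)
    have h4' := hle (w u) u r (by omega)
    have e : u + ((r + 1 : ℕ) : ℤ) = u + r + 1 := by push_cast; ring
    have e' : u + 1 + (r : ℤ) = u + r + 1 := by ring
    rw [e] at h4
    rw [e'] at h5 h3'
    by_cases h : w (u + r) = w u
    · rw [if_pos h] at h2
      rw [h1, h2] at h5
      have e2 : (c (w u) (u + r) + 1 - (c (w u) u + 1)).toNat =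
        (c (w u) (u + r) - c (w u) u).toNat := by congr 1; ring
      rw [e2, XF_lt (by omega), XF_lt (by omega)] at h5
      exact (hF (w u)).ne _ _ (by omega) h5
    · rw [if_neg h, add_zero] at h2
      have h6 := congrArg (P (w u)).rank h5
      rw [XF_rank hF (by omega), XF_rank hF (by omega)] at h6
      omega

end Product

/-! ## Arrays of segments, cubes, crosspolytopes and polygons -/

/-- The end points of a segment, alternately. -/
def segVal (a : ℤ) : SegFace := if a % 2 = 0 then SegFace.left else SegFace.right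

lemma segVal_rank (a : ℤ) : (segVal a).rank = 0 := by
  unfold segVal
  split_ifs <;> rfl

lemma segVal_ne (a : ℤ) : segVal a ≠ segVal (a + 1) := by
  unfold segVal
  rcases Int.emod_two_eq_zero_or_one a with h1 | h1
  · rw [if_pos h1, if_neg (by omega)]
    decide
  · rw [if_neg (by omega), if_pos (by omega)]
    decide

lemma segVal_add_two (a : ℤ) : segVal (a + 2) = segVal a := by
  unfold segVal
  rw [show (a + 2) % 2 = a % 2 by omega]

/-- The array of a segment. -/
def segArr (a : ℤ) (_ρ : ℕ) : segment.Face := segVal a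

lemma arrZ_segment : ArrZ segment segArr := by
  have hdim : segment.dim = 1 := rfl
  refine ⟨?_, ?_, ?_, ?_⟩
  · intro u r hr
    have : r = 0 := by omega
    subst this
    exact segVal_rank u
  · intro u r hr
    omega
  · intro u r hr
    omega
  · intro u r hr
    exact segVal_ne u

/-- The counting functions of the word `0 1 2 ⋯ (d-1) 0 1 2 ⋯`. -/
def cubeCount {d : ℕ} (j : Fin d) (u : ℤ) : ℤ := (u - 1 - j) / d + 1

/-- The array of a cube. -/
noncomputable def cubeArr (d : ℕ) : ℤ → ℕ → (cube d).Face :=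
  EP (P := fun _ : Fin d => segment) (fun _ => regular_segment) (fun _ => segArr) cubeCount

lemma arrZ_cube (d : ℕ) (hd : 1 ≤ d) : ArrZ (cube d) (cubeArr d) := by
  have hd' : (0 : ℤ) < d := by exact_mod_cast hd
  apply arrZ_prod (w := fun u => ⟨(u % d).toNat, by
    have h1 := Int.emod_nonneg u hd'.ne'
    have h2 := Int.emod_lt_of_pos u hd'
    omega⟩) (fun _ => arrZ_segment)
  · intro j u
    have hj := j.2
    have h1 := Int.emod_nonneg u hd'.ne'
    have h2 := Int.emod_lt_of_pos u hd'
    have h3 := Int.emod_add_mul_ediv u d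
    set q := u / (d : ℤ) with hq
    set s := u % (d : ℤ) with hs
    have hcount : ∀ x q' s' : ℤ, 0 ≤ s' → s' < d → x = s' + d * q' → x / (d : ℤ) = q' := by
      intro x q' s' a b c
      rw [c, Int.add_mul_ediv_left _ _ hd'.ne', Int.ediv_eq_zero_of_lt a b, zero_add]
    unfold cubeCount
    split_ifs with h
    · have h4 : s = j := by
        have := congrArg Fin.val h
        simp only at this
        omega
      have e1 : (u + 1 - 1 - j) / (d : ℤ) = q := hcount _ q 0 le_rfl (by omega) (by
        rw [← h3, h4]; ring)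
      have e2 : (u - 1 - j) / (d : ℤ) = q - 1 := hcount _ (q - 1) (d - 1) (by omega) (by omega) (by
        rw [← h3, h4]; ring)
      rw [e1, e2]; ring
    · have h4 : s ≠ j := by
        intro hh
        apply h
        apply Fin.ext
        simp only
        omega
      rcases lt_or_gt_of_ne h4 with h5 | h5
      · have e1 : (u + 1 - 1 - j) / (d : ℤ) = q - 1 := hcount _ (q - 1) (s - j + d) (by omega)
          (by omega) (by rw [← h3]; ring)
        have e2 : (u - 1 - j) / (d : ℤ) = q - 1 := hcount _ (q - 1) (s - j - 1 + d) (by omega)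
          (by omega) (by rw [← h3]; ring)
        rw [e1, e2]; ring
      · have e1 : (u + 1 - 1 - j) / (d : ℤ) = q := hcount _ q (s - j) (by omega)
          (by omega) (by rw [← h3]; ring)
        have e2 : (u - 1 - j) / (d : ℤ) = q := hcount _ q (s - j - 1) (by omega)
          (by omega) (by rw [← h3]; ring)
        rw [e1, e2]; ring
  · intro j u
    have hdim : (Pol.prod fun _ : Fin d => segment).dim = d := dim_cube d
    rw [hdim]
    unfold cubeCount
    have e : u + (d : ℤ) - 1 - j = u - 1 - j + d * 1 := by ring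
    rw [e, Int.add_mul_ediv_left _ _ hd'.ne']
    change _ = _ + ((1 : ℕ) : ℤ)
    push_cast
    ring

lemma cubeArr_per (d : ℕ) (hd : 1 ≤ d) (u : ℤ) (r : ℕ) :
    cubeArr d (u + 2 * d) r = cubeArr d u r := by
  have hd' : (0 : ℤ) < d := by exact_mod_cast hd
  funext j
  have h1 : ∀ x : ℤ, cubeCount j (x + 2 * d) = cubeCount j x + 2 := by
    intro x
    unfold cubeCount
    have e : x + 2 * (d : ℤ) - 1 - j = x - 1 - j + d * 2 := by ring
    rw [e, Int.add_mul_ediv_left _ _ hd'.ne']
    ring
  have e : u + 2 * (d : ℤ) + r = u + r + 2 * d := by ring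
  have h2 : ∀ x : ℤ, segArr (x + 2) = segArr x := by
    intro x
    funext ρ
    exact segVal_add_two x
  rw [cubeArr, EP, EP, e, h1, h1]
  have e3 : cubeCount j (u + r) + 2 - (cubeCount j u + 2) = cubeCount j (u + r) - cubeCount j u := by
    ring
  rw [e3, XF, XF, h2]

end Pool.Agent.H20.Petrie
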