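import Mathlib
import Pool.Agent.H20.Petrie.Converse

/-!
# Products of a cube or a crosspolytope with a polygon
-/

namespace Pool.Agent.H20.Petrie

/-! ## Crosspolytopes -/

/-- The vertices of the Petrie array of the crosspolytope. -/
def crossV {d : ℕ} (hd : 0 < d) (a : ℤ) : Fin d × Bool :=
  (⟨(a % d).toNat, by
    have hd' : (0 : ℤ) < d := by exact_mod_cast hd
    have h1 := Int.emod_nonneg a hd'.ne'
    have h2 := Int.emod_lt_of_pos a hd'
    omega⟩, decide ((a / d) % 2 = 0))

lemma crossV_fst {d : ℕ} (hd : 0 < d) {a b : ℤ} (h : (crossV hd a).1 = (crossV hd b).1) :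
    a % d = b % d := by
  have hd' : (0 : ℤ) < d := by exact_mod_cast hd
  have h1 := Int.emod_nonneg a hd'.ne'
  have h2 := Int.emod_nonneg b hd'.ne'
  have h3 := congrArg Fin.val h
  simp only [crossV] at h3
  omega

lemma crossV_window {d : ℕ} (hd : 0 < d) {a b : ℤ} (hab : a ≤ b) (hba : b < a + d)
    (h : (crossV hd a).1 = (crossV hd b).1) : a = b := by
  have hd' : (0 : ℤ) < d := by exact_mod_cast hd
  have h1 := crossV_fst hd h
  have h2 := Int.emod_add_mul_ediv a d
  have h3 := Int.emod_add_mul_ediv b d
  have h4 : b - a = d * (b / d - a / d) := by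
    rw [mul_sub]; omega
  have h5 : b / (d : ℤ) - a / d = 0 := by
    by_contra hne
    have h6 : b - a < d := by omega
    have h7 : 0 ≤ b - a := by omega
    rw [h4] at h6 h7
    have h8 : 0 < b / (d : ℤ) - a / d := by
      rcases lt_or_gt_of_ne hne with h | h
      · exfalso
        have := mul_neg_of_pos_of_neg hd' h
        omega
      · exact h
    nlinarith
  rw [h5, mul_zero] at h4
  omega

lemma crossV_add {d : ℕ} (hd : 0 < d) (a : ℤ) : crossV hd (a + d) ≠ crossV hd a := by
  have hd' : (0 : ℤ) < d := by exact_mod_cast hd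
  intro h
  have h1 := congrArg Prod.snd h
  simp only [crossV] at h1
  have e : (a + d) / (d : ℤ) = a / d + 1 := by
    have : a + (d : ℤ) = a + d * 1 := by ring
    rw [this, Int.add_mul_ediv_left _ _ hd'.ne']
  rw [e, decide_eq_decide] at h1
  omega

lemma crossV_per {d : ℕ} (hd : 0 < d) (a : ℤ) : crossV hd (a + 2 * d) = crossV hd a := by
  have hd' : (0 : ℤ) < d := by exact_mod_cast hd
  have e : (a + 2 * d) / (d : ℤ) = a / d + 2 := by
    have : a + 2 * (d : ℤ) = a + d * 2 := by ring
    rw [this, Int.add_mul_ediv_left _ _ hd'.ne']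
  have e2 : (a + 2 * d) % (d : ℤ) = a % d := by
    have : a + 2 * (d : ℤ) = a + d * 2 := by ring
    rw [this, Int.add_mul_emod_self_left]
  refine Prod.ext (Fin.ext ?_) ?_
  · simp only [crossV]
    rw [e2]
  · simp only [crossV]
    rw [e, decide_eq_decide]
    omega

/-- The vertices of the faces of the Petrie array of the crosspolytope. -/
noncomputable def crossSet {d : ℕ} (hd : 0 < d) (a : ℤ) (ρ : ℕ) : Finset (Fin d × Bool) :=
  (Finset.Icc a (a + ρ)).image (crossV hd)

lemma crossSet_ok {d : ℕ} (hd : 0 < d) (a : ℤ) (ρ : ℕ) (hρ : ρ < d) :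
    (crossSet hd a ρ).Nonempty ∧
      ∀ i, ¬ ((i, true) ∈ crossSet hd a ρ ∧ (i, false) ∈ crossSet hd a ρ) := by
  refine ⟨⟨crossV hd a, Finset.mem_image_of_mem _ (Finset.mem_Icc.2 (by omega))⟩, ?_⟩
  rintro i ⟨h1, h2⟩
  obtain ⟨x, hx, hx'⟩ := Finset.mem_image.1 h1
  obtain ⟨y, hy, hy'⟩ := Finset.mem_image.1 h2
  rw [Finset.mem_Icc] at hx hy
  have hxy : (crossV hd x).1 = (crossV hd y).1 := by rw [hx', hy']
  have hxy' : x = y := by
    rcases le_total x y with h | h
    · exact crossV_window hd h (by omega) hxy
    · exact (crossV_window hd h (by omega) hxy.symm).symm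
  rw [hxy', hy'] at hx'
  exact Bool.false_ne_true (congrArg Prod.snd hx')

lemma crossSet_card {d : ℕ} (hd : 0 < d) (a : ℤ) (ρ : ℕ) (hρ : ρ < d) :
    (crossSet hd a ρ).card = ρ + 1 := by
  rw [crossSet, Finset.card_image_of_injOn, Int.card_Icc]
  · omega
  · intro x hx y hy hxy
    rw [Finset.mem_coe, Finset.mem_Icc] at hx hy
    have hxy := congrArg Prod.fst hxy
    rcases le_total x y with h | h
    · exact crossV_window hd h (by omega) hxy
    · exact (crossV_window hd h (by omega) hxy.symm).symm

/-- The Petrie array of the crosspolytope. -/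
noncomputable def crossArr {d : ℕ} (hd : 0 < d) (a : ℤ) (ρ : ℕ) : (cross d).Face :=
  if hρ : ρ < d then mkCross (crossSet hd a ρ) (crossSet_ok hd a ρ hρ) else
    (⊤ : WithTop (CrossProper d))

lemma crossArr_lt {d : ℕ} (hd : 0 < d) (a : ℤ) {ρ : ℕ} (hρ : ρ < d) :
    crossArr hd a ρ = mkCross (crossSet hd a ρ) (crossSet_ok hd a ρ hρ) := dif_pos hρ

lemma mkCross_le' {d : ℕ} {s t : Finset (Fin d × Bool)} {hs} {ht} (h : s ⊆ t) :
    mkCross s hs ≤ mkCross t ht :=
  (WithTop.coe_le_coe (b := (⟨s, hs⟩ : CrossProper d)) (a := (⟨t, ht⟩ : CrossProper d))).2 h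

lemma mkCross_congr {d : ℕ} {s t : Finset (Fin d × Bool)} {hs} {ht} (h : s = t) :
    mkCross s hs = mkCross t ht := by
  subst h; rfl

lemma arrZ_cross {d : ℕ} (hd : 0 < d) : ArrZ (cross d) (crossArr hd) := by
  have hdim : (cross d).dim = d := rfl
  refine ⟨?_, ?_, ?_, ?_⟩
  · intro u r hr
    rw [hdim] at hr
    rw [crossArr_lt hd u hr]
    change (crossSet hd u r).card - 1 = r
    rw [crossSet_card hd u r hr]
    rfl
  · intro u r hr
    rw [hdim] at hr
    rw [crossArr_lt hd u hr, crossArr_lt hd u (by omega)]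
    refine mkCross_le' (Finset.image_subset_image ?_)
    apply Finset.Icc_subset_Icc le_rfl
    push_cast
    omega
  · intro u r hr
    rw [hdim] at hr
    rw [crossArr_lt hd u hr, crossArr_lt hd (u + 1) (by omega)]
    refine mkCross_le' (Finset.image_subset_image ?_)
    apply Finset.Icc_subset_Icc (by omega)
    push_cast
    omega
  · intro u r hr h
    rw [hdim] at hr
    rw [crossArr_lt hd u hr, crossArr_lt hd (u + 1) hr] at h
    have h1 : crossSet hd u r ⊆ crossSet hd (u + 1) r := mkCross_le (le_of_eq h)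
    have h2 : crossV hd u ∈ crossSet hd (u + 1) r :=
      h1 (Finset.mem_image_of_mem _ (Finset.mem_Icc.2 (by omega)))
    obtain ⟨x, hx, hx'⟩ := Finset.mem_image.1 h2
    rw [Finset.mem_Icc] at hx
    by_cases hxd : x < u + d
    · have := crossV_window hd (by omega) hxd (congrArg Prod.fst hx'.symm)
      omega
    · have : x = u + d := by omega
      rw [this] at hx'
      exact crossV_add hd u hx'

lemma crossArr_per {d : ℕ} (hd : 0 < d) (u : ℤ) {r : ℕ} (hr : r < d) :
    crossArr hd (u + 2 * d) r = crossArr hd u r := by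
  rw [crossArr_lt hd u hr, crossArr_lt hd _ hr]
  apply mkCross_congr
  rw [crossSet, crossSet]
  ext x
  simp only [Finset.mem_image, Finset.mem_Icc]
  constructor
  · rintro ⟨a, ha, rfl⟩
    refine ⟨a - 2 * d, by omega, ?_⟩
    have e : a = a - 2 * d + 2 * d := by omega
    conv_rhs => rw [e]
    rw [crossV_per]
  · rintro ⟨a, ha, rfl⟩
    exact ⟨a + 2 * d, by omega, crossV_per hd a⟩

/-! ## Polygons -/

lemma regular_polygon (N : ℕ) : Regular (polygon N) := by
  refine ⟨?_, ?_, ?_⟩
  · intro x y h
    change PolygonFace N at x y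
    change PolygonFace.Le x y at h
    change x.rank ≤ y.rank
    cases h with
    | refl => exact le_rfl
    | first i => exact Nat.zero_le _
    | second i => exact Nat.zero_le _
    | whole => cases x <;> simp [PolygonFace.rank]
  · intro x y h hr
    change PolygonFace N at x y
    change PolygonFace.Le x y at h
    change x.rank = y.rank at hr
    cases h with
    | refl => rfl
    | first i => simp [PolygonFace.rank] at hr
    | second i => simp [PolygonFace.rank] at hr
    | whole =>
      cases x with
      | vertex i => simp [PolygonFace.rank] at hr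
      | edge i => simp [PolygonFace.rank] at hr
      | whole => rfl
  · exact ⟨PolygonFace.whole, rfl, fun x => PolygonFace.Le.whole x⟩

/-- The Petrie array of a polygon. -/
def polyArr {N : ℕ} (a : ℤ) (ρ : ℕ) : (polygon N).Face :=
  if ρ = 0 then PolygonFace.vertex (a : ZMod N) else PolygonFace.edge (a : ZMod N)

lemma polyArr_zero {N : ℕ} (a : ℤ) : (polyArr a 0 : (polygon N).Face) =
    PolygonFace.vertex (a : ZMod N) := if_pos rfl

lemma polyArr_one {N : ℕ} (a : ℤ) : (polyArr a 1 : (polygon N).Face) =
    PolygonFace.edge (a : ZMod N) := if_neg one_ne_zero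

lemma arrZ_polygon {N : ℕ} (hN : 3 ≤ N) : ArrZ (polygon N) polyArr := by
  have hdim : (polygon N).dim = 2 := rfl
  have h10 : ∀ u : ℤ, (u : ZMod N) ≠ ((u + 1 : ℤ) : ZMod N) := by
    intro u h
    have h1 : (1 : ZMod N) = 0 := by
      push_cast at h
      exact (left_eq_add.1 h)
    have : Fact (1 < N) := ⟨by omega⟩
    exact one_ne_zero h1
  refine ⟨?_, ?_, ?_, ?_⟩
  · intro u r hr
    have : r = 0 ∨ r = 1 := by omega
    rcases this with rfl | rfl
    · rw [polyArr_zero]; rfl
    · rw [polyArr_one]; rfl
  · intro u r hr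
    have : r = 0 := by omega
    subst this
    rw [polyArr_zero, polyArr_one]
    exact PolygonFace.Le.first _
  · intro u r hr
    have : r = 0 := by omega
    subst this
    rw [polyArr_zero, polyArr_one]
    push_cast
    exact PolygonFace.Le.second _
  · intro u r hr h
    have : r = 0 ∨ r = 1 := by omega
    rcases this with rfl | rfl
    · rw [polyArr_zero, polyArr_zero] at h
      exact h10 u (PolygonFace.vertex.inj h)
    · rw [polyArr_one, polyArr_one] at h
      exact h10 u (PolygonFace.edge.inj h)

lemma good_polygon {N : ℕ} (hN : 3 ≤ N) : Good (polygon N) N := by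
  intro E hE
  have hdim : (polygon N).dim = 2 := rfl
  have hFact : Fact (1 < N) := ⟨by omega⟩
  have hV : ∀ u, ∃ i : ZMod N, E u 0 = PolygonFace.vertex i := by
    intro u
    have h : PolygonFace.rank (E u 0) = 0 := hE.rank_eq u 0 (by omega)
    generalize E u 0 = x at h ⊢
    cases x with
    | vertex i => exact ⟨i, rfl⟩
    | edge i => simp [PolygonFace.rank] at h
    | whole => simp [PolygonFace.rank] at h
  have hW : ∀ u, ∃ i : ZMod N, E u 1 = PolygonFace.edge i := by
    intro u
    have h : PolygonFace.rank (E u 1) = 1 := hE.rank_eq u 1 (by omega)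
    generalize E u 1 = x at h ⊢
    cases x with
    | vertex i => simp [PolygonFace.rank] at h
    | edge i => exact ⟨i, rfl⟩
    | whole => simp [PolygonFace.rank] at h
  choose v hv using hV
  choose e he using hW
  have hinc : ∀ i j : ZMod N, (PolygonFace.vertex i : PolygonFace N) ≤ PolygonFace.edge j →
      i = j ∨ i = j + 1 := by
    intro i j h
    cases h with
    | first => exact Or.inl rfl
    | second => exact Or.inr rfl
  have h1 : ∀ u, v u = e u ∨ v u = e u + 1 := by
    intro u
    have h := hE.le1 u 0 (by omega)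
    rw [hv, zero_add, he] at h
    exact hinc _ _ h
  have h2 : ∀ u, v (u + 1) = e u ∨ v (u + 1) = e u + 1 := by
    intro u
    have h := hE.le2 u 0 (by omega)
    rw [hv, zero_add, he] at h
    exact hinc _ _ h
  have h3 : ∀ u, v u ≠ v (u + 1) := by
    intro u h
    apply hE.ne u 0 (by omega)
    rw [hv, hv, h]
  have h4 : ∀ u, e u ≠ e (u + 1) := by
    intro u h
    apply hE.ne u 1 (by omega)
    rw [he, he, h]
  -- the two directions
  have hmain : (∀ u : ℕ, v u = v 0 + u ∧ e u = e 0 + u) ∨ (∀ u : ℕ, v u = v 0 - u ∧ e u = e 0 - u) := by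
    rcases h1 0 with h0 | h0
    · left
      have key : ∀ u : ℕ, v u = e u ∧ v (u + 1) = e u + 1 := by
        intro u
        induction u with
        | zero =>
          refine ⟨h0, ?_⟩
          rcases h2 0 with h | h
          · exact absurd (h0.trans h.symm) (h3 0)
          · exact h
        | succ u ih =>
          have h5 : v (u + 1) = e (u + 1) := by
            rcases h1 (u + 1) with h | h
            · exact h
            · exfalso
              apply h4 u
              rw [ih.2] at h
              exact add_right_cancel h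
          refine ⟨h5, ?_⟩
          rcases h2 (u + 1) with h | h
          · exact absurd (h5.trans h.symm) (h3 (u + 1))
          · exact h
      have hv' : ∀ u : ℕ, v u = v 0 + u := by
        intro u
        induction u with
        | zero => simp
        | succ u ih =>
          rw [(key u).2, ← (key u).1, ih]
          push_cast; ring
      intro u
      refine ⟨hv' u, ?_⟩
      rw [← (key u).1, ← (key 0).1]
      exact hv' u
    · right
      have key : ∀ u : ℕ, v u = e u + 1 ∧ v (u + 1) = e u := by
        intro u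
        induction u with
        | zero =>
          refine ⟨h0, ?_⟩
          rcases h2 0 with h | h
          · exact h
          · exact absurd (h0.trans h.symm) (h3 0)
        | succ u ih =>
          have h5 : v (u + 1) = e (u + 1) + 1 := by
            rcases h1 (u + 1) with h | h
            · exfalso
              apply h4 u
              rw [ih.2] at h
              exact h
            · exact h
          refine ⟨h5, ?_⟩
          rcases h2 (u + 1) with h | h
          · exact h
          · exact absurd (h5.trans h.symm) (h3 (u + 1))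
      have he' : ∀ u : ℕ, e u = e 0 - u := by
        intro u
        induction u with
        | zero => simp
        | succ u ih =>
          have h6 := (key (u + 1)).1
          rw [(key u).2, ih] at h6
          rw [eq_sub_of_add_eq h6.symm]
          push_cast; ring
      intro u
      refine ⟨?_, he' u⟩
      rw [(key u).1, (key 0).1, he' u]
      ring
  have hcast : ∀ k : ℕ, (k : ZMod N) = 0 → N ∣ k := fun k h => (ZMod.natCast_eq_zero_iff k N).1 h
  have hNN : (N : ZMod N) = 0 := ZMod.natCast_self N
  refine ⟨?_, ?_⟩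
  · intro u r hr
    have : r = 0 ∨ r = 1 := by omega
    rcases this with rfl | rfl
    · rw [hv, hv]
      congr 1
      rcases hmain with h | h
      · rw [(h (u + N)).1, (h u).1]; push_cast; rw [hNN]; ring
      · rw [(h (u + N)).1, (h u).1]; push_cast; rw [hNN]; ring
    · rw [he, he]
      congr 1
      rcases hmain with h | h
      · rw [(h (u + N)).2, (h u).2]; push_cast; rw [hNN]; ring
      · rw [(h (u + N)).2, (h u).2]; push_cast; rw [hNN]; ring
  · intro u k r hr heq
    apply hcast
    have : r = 0 ∨ r = 1 := by omega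
    rcases this with rfl | rfl
    · rw [hv, hv] at heq
      have heq := PolygonFace.vertex.inj heq
      rcases hmain with h | h
      · rw [(h (u + k)).1, (h u).1] at heq; push_cast at heq
        linear_combination -heq
      · rw [(h (u + k)).1, (h u).1] at heq; push_cast at heq
        linear_combination heq
    · rw [he, he] at heq
      have heq := PolygonFace.edge.inj heq
      rcases hmain with h | h
      · rw [(h (u + k)).2, (h u).2] at heq; push_cast at heq
        linear_combination -heq
      · rw [(h (u + k)).2, (h u).2] at heq; push_cast at heq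
        linear_combination heq

/-! ## The products -/

section Main

variable {A : Pol} {d : ℕ} {N : ℕ}

/-- The counting functions of the word `0^d 1 1`. -/
def prismCount (d : ℕ) (j : Fin 2) (u : ℤ) : ℤ :=
  if j = 0 then d * (u / (d + 2)) + min (u % (d + 2)) d
  else u - (d * (u / (d + 2)) + min (u % (d + 2)) d)

lemma no_dvd {N : ℕ} (hN : 3 ≤ N) (hN4 : N ≠ 4) (h : N ∣ 4) : False := by
  have h10 := Nat.le_of_dvd (by norm_num) h
  interval_cases N
  · omega
  · exact hN4 rfl

/-- If the polytope `A` of dimension `d ≥ 1` has a Petrie array of period `2d`, then its product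
with an `N`-gon has a Petrie scheme that is not acoptic, unless `N = 4`. -/
lemma prism_not (hA : Regular A) (hdA : A.dim = d) (hd : 1 ≤ d) {F : ℤ → ℕ → A.Face}
    (hF : ArrZ A F) (hper : ∀ u r, r < d → F (u + 2 * d) r = F u r) (hN : 3 ≤ N) (hN4 : N ≠ 4) :
    ¬ OnlyAcoptic (Pol.prod ![A, polygon N]) := by
  intro hac
  set P : Fin 2 → Pol := ![A, polygon N] with hP
  have hP0 : P 0 = A := rfl
  have hP1 : P 1 = polygon N := rfl
  have hreg : ∀ j, Regular (P j) := fun j => by
    refine Fin.cases ?_ (fun j => ?_) j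
    · exact hA
    · refine Fin.cases ?_ (fun j => j.elim0) j
      exact regular_polygon N
  set Fc : ∀ j, ℤ → ℕ → (P j).Face := fun j => Fin.cases F (fun j => Fin.cases polyArr
    (fun j => j.elim0) j) j with hFc
  have hFc' : ∀ j, ArrZ (P j) (Fc j) := fun j => by
    refine Fin.cases ?_ (fun j => ?_) j
    · exact hF
    · refine Fin.cases ?_ (fun j => j.elim0) j
      exact arrZ_polygon hN
  have hdim : (Pol.prod P).dim = d + 2 := by
    rw [dim_prod, Fin.sum_univ_two, hP0, hP1, hdA]
    rfl
  set c : Fin 2 → ℤ → ℤ := prismCount d with hc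
  have hn : (0 : ℤ) < d + 2 := by omega
  have hdiv : ∀ x q' s' : ℤ, 0 ≤ s' → s' < d + 2 → x = s' + (d + 2) * q' →
      x / ((d : ℤ) + 2) = q' ∧ x % ((d : ℤ) + 2) = s' := by
    intro x q' s' a b e
    constructor
    · rw [e, Int.add_mul_ediv_left _ _ hn.ne', Int.ediv_eq_zero_of_lt a b, zero_add]
    · rw [e, Int.add_mul_emod_self_left, Int.emod_eq_of_lt a b]
  have hc0 : ∀ x, c 0 x = d * (x / (d + 2)) + min (x % (d + 2)) d := fun x => if_pos rfl
  have hc1 : ∀ x, c 1 x = x - (d * (x / (d + 2)) + min (x % (d + 2)) d) := fun x =>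
    if_neg (by decide)
  have hshift : ∀ j u, c j (u + (d + 2)) = c j u + (P j).dim := by
    intro j u
    have h3 := Int.emod_add_mul_ediv u ((d : ℤ) + 2)
    have h1 := Int.emod_nonneg u hn.ne'
    have h2 := Int.emod_lt_of_pos u hn
    obtain ⟨e1, e2⟩ := hdiv (u + (d + 2)) (u / ((d : ℤ) + 2) + 1) (u % ((d : ℤ) + 2)) h1 h2 (by
      linear_combination (-1) * h3)
    have h0 : c 0 (u + (d + 2)) = c 0 u + d := by
      rw [hc0, hc0, e1, e2]; ring
    fin_cases j
    · change c 0 (u + (d + 2)) = c 0 u + A.dim
      rw [h0, hdA]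
    · change c 1 (u + (d + 2)) = c 1 u + ((2 : ℕ) : ℤ)
      rw [hc1, hc1, e1, e2]; push_cast; ring
  have harr := arrZ_prod (hreg := hreg) (Fc := Fc) hFc' (c := c)
    (w := fun u => if u % (d + 2) < d then 0 else 1)
    (by
      intro j u
      have h3 := Int.emod_add_mul_ediv u ((d : ℤ) + 2)
      have h1 := Int.emod_nonneg u hn.ne'
      have h2 := Int.emod_lt_of_pos u hn
      have h0 : c 0 (u + 1) = c 0 u + if u % (d + 2) < d then 1 else 0 := by
        rw [hc0, hc0]
        by_cases hlast : u % ((d : ℤ) + 2) = d + 1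
        · obtain ⟨e1, e2⟩ := hdiv (u + 1) (u / ((d : ℤ) + 2) + 1) 0 le_rfl hn (by
            rw [mul_add, mul_one]
            omega)
          rw [e1, e2, hlast, if_neg (by omega)]
          rw [min_eq_left (by omega), min_eq_right (by omega)]
          ring
        · obtain ⟨e1, e2⟩ := hdiv (u + 1) (u / ((d : ℤ) + 2)) (u % ((d : ℤ) + 2) + 1) (by omega)
            (by omega) (by omega)
          rw [e1, e2]
          split_ifs with h
          · rw [min_eq_left (by omega), min_eq_left (by omega)]
            ring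
          · rw [min_eq_right (by omega), min_eq_right (by omega)]
            ring
      fin_cases j
      · change c 0 (u + 1) = c 0 u + if (if u % ((d : ℤ) + 2) < d then (0 : Fin 2) else 1) = 0
          then 1 else 0
        rw [h0]
        by_cases h : u % ((d : ℤ) + 2) < d
        · rw [if_pos h, if_pos h, if_pos rfl]
        · rw [if_neg h, if_neg h, if_neg (by decide)]
      · change c 1 (u + 1) = c 1 u + if (if u % ((d : ℤ) + 2) < d then (0 : Fin 2) else 1) = 1
          then 1 else 0
        have e : ∀ x, c 1 x = x - c 0 x := fun x => by rw [hc0, hc1]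
        rw [e, e, h0]
        by_cases h : u % ((d : ℤ) + 2) < d
        · rw [if_pos h, if_pos h, if_neg (by decide)]; ring
        · rw [if_neg h, if_neg h, if_pos rfl]; ring)
    (by
      intro j u
      rw [hdim]
      push_cast
      exact hshift j u)
  have hpet := harr.isPetrie
  have h2n : (2 : ℕ) < (Pol.prod P).dim := by omega
  have h0n : (0 : ℕ) < (Pol.prod P).dim := by omega
  have hcd : c 0 d = d ∧ c 1 d = 0 := by
    obtain ⟨e1, e2⟩ := hdiv (d : ℤ) 0 d (by omega) (by omega) (by ring)
    rw [hc0, hc1, e1, e2, min_self]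
    constructor <;> ring
  have hcd2 : c 0 (d + 2) = d ∧ c 1 (d + 2) = 2 := by
    obtain ⟨e1, e2⟩ := hdiv ((d : ℤ) + 2) 1 0 le_rfl (by omega) (by ring)
    rw [hc0, hc1, e1, e2, min_eq_left (by omega)]
    constructor <;> ring
  have hc00 : c 1 0 = 0 := by
    obtain ⟨e1, e2⟩ := hdiv 0 0 0 le_rfl (by omega) (by ring)
    rw [hc1, e1, e2, min_eq_left (by omega)]; ring
  have hsh2 : ∀ j x, c j (x + 2 * (d + 2)) = c j x + 2 * (P j).dim := by
    intro j x
    have e : x + 2 * ((d : ℤ) + 2) = x + (d + 2) + (d + 2) := by ring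
    rw [e, hshift, hshift]; ring
  have hface : EP hreg Fc c d 2 = EP hreg Fc c (d + 2 * (d + 2)) 2 := by
    funext j
    have e : (d : ℤ) + 2 * (d + 2) + ((2 : ℕ) : ℤ) = d + ((2 : ℕ) : ℤ) + 2 * (d + 2) := by ring
    rw [EP, EP, e, hsh2, hsh2]
    push_cast
    have e3 : c j (d + 2) + 2 * ((P j).dim : ℤ) - (c j d + 2 * ((P j).dim : ℤ)) =
      c j (d + 2) - c j d := by ring
    rw [e3]
    fin_cases j
    · change XF hreg Fc 0 (c 0 d) (c 0 (d + 2) - c 0 d).toNat =
        XF hreg Fc 0 (c 0 d + 2 * (A.dim : ℤ)) (c 0 (d + 2) - c 0 d).toNat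
      rw [hcd.1, hcd2.1, sub_self]
      change XF hreg Fc 0 d 0 = XF hreg Fc 0 (d + 2 * (A.dim : ℤ)) 0
      have h0d : 0 < (P 0).dim := by
        change 0 < A.dim
        omega
      rw [XF_lt h0d, XF_lt h0d, hdA]
      exact (hper d 0 hd).symm
    · change XF hreg Fc 1 (c 1 d) (c 1 (d + 2) - c 1 d).toNat =
        XF hreg Fc 1 (c 1 d + 2 * ((P 1).dim : ℤ)) (c 1 (d + 2) - c 1 d).toNat
      rw [hcd.2, hcd2.2]
      have htop : (P 1).dim ≤ ((2 : ℤ) - 0).toNat := le_refl 2
      rw [XF_top htop, XF_top htop]
  have hac1 := hac _ _ hpet d (d + 2 * (d + 2)) ⟨2, h2n⟩ hface (-d)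
  have hac2 := congrFun hac1 ⟨0, h0n⟩
  have e5 : -(d : ℤ) + d = 0 := by ring
  have e6 : -(d : ℤ) + (d + 2 * (d + 2)) = 0 + 2 * (d + 2) := by ring
  rw [e5, e6] at hac2
  have hac3 := congrFun hac2 1
  change XF hreg Fc 1 (c 1 0) (c 1 (0 + ((0 : ℕ) : ℤ)) - c 1 0).toNat =
    XF hreg Fc 1 (c 1 (0 + 2 * (d + 2))) (c 1 (0 + 2 * (d + 2) + ((0 : ℕ) : ℤ)) -
      c 1 (0 + 2 * (d + 2))).toNat at hac3
  rw [Nat.cast_zero, add_zero, add_zero, sub_self, sub_self, hsh2, hc00] at hac3
  have h2P : 0 < (P 1).dim := by
    change 0 < 2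
    omega
  change XF hreg Fc 1 0 0 = XF hreg Fc 1 (0 + 2 * ((2 : ℕ) : ℤ)) 0 at hac3
  rw [XF_lt h2P, XF_lt h2P] at hac3
  change (polyArr 0 0 : (polygon N).Face) = polyArr (0 + 2 * ((2 : ℕ) : ℤ)) 0 at hac3
  rw [polyArr_zero, polyArr_zero] at hac3
  have h7 := PolygonFace.vertex.inj hac3
  have h8 : ((4 : ℕ) : ZMod N) = 0 := by
    push_cast at h7
    push_cast
    linear_combination -h7
  have h9 := (ZMod.natCast_eq_zero_iff 4 N).1 h8
  exact no_dvd hN hN4 h9

/-- Part (b). -/
theorem prism_cube (hd : 1 ≤ d) (hN : 3 ≤ N) :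
    OnlyAcoptic (Pol.prod ![cube d, polygon N]) ↔ N = 4 := by
  constructor
  · intro h
    by_contra hne
    exact prism_not (regular_cube d) (dim_cube d) hd (arrZ_cube d hd)
      (fun u r _ => cubeArr_per d hd u r) hN hne h
  · rintro rfl
    apply onlyAcoptic_of_good (p := 2 * (Pol.prod ![cube d, polygon 4]).dim)
    apply good_prod le_rfl
    · intro j
      fin_cases j
      · exact regular_cube d
      · exact regular_polygon 4
    · intro j
      fin_cases j
      · exact (dim_cube d).symm ▸ hd
      · exact one_le_two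
    · intro j
      fin_cases j
      · exact good_cube d
      · exact good_polygon hN

/-- Part (b). -/
theorem prism_cross (hd : 1 ≤ d) (hN : 3 ≤ N) :
    OnlyAcoptic (Pol.prod ![cross d, polygon N]) ↔ N = 4 := by
  constructor
  · intro h
    by_contra hne
    exact prism_not regular_cross rfl hd (arrZ_cross hd)
      (fun u r hr => crossArr_per hd u hr) hN hne h
  · rintro rfl
    apply onlyAcoptic_of_good (p := 2 * (Pol.prod ![cross d, polygon 4]).dim)
    apply good_prod le_rfl
    · intro j
      fin_cases j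
      · exact regular_cross
      · exact regular_polygon 4
    · intro j
      fin_cases j
      · exact hd
      · exact one_le_two
    · intro j
      fin_cases j
      · exact good_cross
      · exact good_polygon hN

end Main

end Pool.Agent.H20.Petrie
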