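import Mathlib
import Pool.Agent.H20.Petrie.ProdGood

/-!
# Products of factors with different even periods
-/

namespace Pool.Agent.H20.Petrie

variable {m : ℕ} {P : Fin m → Pol} {hreg : ∀ j, Regular (P j)}
  {E : ℕ → ℕ → (Pol.prod P).Face} {c : Fin m → ℕ}

namespace Word

variable {w : ℕ → Fin m} (h : Word hreg E w)

include h

lemma factor_per (hd : ∀ j, 1 ≤ (P j).dim) (hgood : ∀ j, Good (P j) (c j * (P j).dim)) (j : Fin m)
    (a : ℕ) {ρ : ℕ} (hρ : ρ < (P j).dim) {q : ℕ} (hq : c j ∣ q) :
    F hreg E w j (a + q * (P j).dim) ρ = F hreg E w j a ρ := by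
  obtain ⟨l, rfl⟩ := hq
  induction l with
  | zero => simp
  | succ l ih =>
    have e : a + c j * (l + 1) * (P j).dim = a + c j * l * (P j).dim + c j * (P j).dim := by ring
    rw [e, ((hgood j) _ (h.arr_factor (hd j))).1 _ _ hρ, ih]

lemma per_X' (hd : ∀ j, 1 ≤ (P j).dim) (hgood : ∀ j, Good (P j) (c j * (P j).dim))
    {q : ℕ} (hq : ∀ j, c j ∣ q) (u r : ℕ) (hr : r ≤ (Pol.prod P).dim) :
    X hreg E (u + q * (Pol.prod P).dim) r = X hreg E u r := by
  funext j
  have h1 := h.rank_cnt j u r hr
  have h2 := h.rank_cnt j (u + q * (Pol.prod P).dim) r hr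
  have h3 := h.cnt_add_mul_dim j u q
  have h4 := h.cnt_add_mul_dim j (u + r) q
  have e1 : u + q * (Pol.prod P).dim + r = u + r + q * (Pol.prod P).dim := by ring
  rw [e1, h4, h3] at h2
  have hrk : (P j).rank (X hreg E (u + q * (Pol.prod P).dim) r j) = (P j).rank (X hreg E u r j) := by
    omega
  rcases ((hreg j).rank_le (X hreg E u r j)).lt_or_eq with hlt | heq
  · rw [h.comp_eq (hd j) (u := u + q * (Pol.prod P).dim) hr, hrk, h3,
      h.factor_per hd hgood j _ hlt (hq j), ← h.comp_eq (hd j) hr]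
  · rw [(hreg j).eq_t heq, (hreg j).eq_t (hrk.trans heq)]

lemma dvd_cnt' (hd : ∀ j, 1 ≤ (P j).dim) (hgood : ∀ j, Good (P j) (c j * (P j).dim))
    {u k r : ℕ} (hr : r ≤ (Pol.prod P).dim) (heq : X hreg E u r = X hreg E (u + k) r) (j : Fin m)
    (hlt : (P j).rank (X hreg E u r j) < (P j).dim) :
    c j * (P j).dim ∣ cnt w j (u + k) - cnt w j u := by
  have hle := cnt_mono w j (show u ≤ u + k by omega)
  apply ((hgood j) _ (h.arr_factor (hd j))).2 (cnt w j u) _ _ hlt
  rw [← h.comp_eq (hd j) hr, Nat.add_sub_cancel' hle]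
  conv_lhs => rw [heq]
  rw [h.comp_eq (hd j) hr, ← heq]

/-- The case of an even number of full turns. -/
lemma even_case (hd : ∀ j, 1 ≤ (P j).dim) (hgood : ∀ j, Good (P j) (c j * (P j).dim))
    (hc : ∀ j, 2 ∣ c j) {u r q s : ℕ} (hr : r < (Pol.prod P).dim) (hs : s < (Pol.prod P).dim)
    (heq : X hreg E u r = X hreg E (u + (q * (Pol.prod P).dim + s)) r) (hq : 2 ∣ q) :
    s = 0 := by
  have hex : ∃ j, (P j).rank (X hreg E u r j) < (P j).dim := by
    by_contra hcon
    push Not at hcon
    have h1 := X_rank (hreg := hreg) h.arr (u := u) hr.le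
    rw [rank_prod] at h1
    have h2 : (Pol.prod P).dim ≤ ∑ j, (P j).rank (X hreg E u r j) := by
      rw [dim_prod]; exact Finset.sum_le_sum fun j _ => hcon j
    omega
  have hcnt : ∀ j x, cnt w j (x + (q * (Pol.prod P).dim + s)) = cnt w j (x + s) +
      q * (P j).dim := by
    intro j x
    have e : x + (q * (Pol.prod P).dim + s) = x + s + q * (Pol.prod P).dim := by ring
    rw [e, h.cnt_add_mul_dim]
  -- no letter of a non-top component in the window
  have hzero : ∀ j, (P j).rank (X hreg E u r j) < (P j).dim → cnt w j (u + s) = cnt w j u := by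
    intro j hj
    have h1 := h.dvd_cnt' hd hgood hr.le heq j hj
    rw [hcnt] at h1
    have h2 : 2 * (P j).dim ∣ cnt w j (u + s) + q * (P j).dim - cnt w j u :=
      (Nat.mul_dvd_mul_right (hc j) _).trans h1
    have h3 := cnt_mono w j (show u ≤ u + s by omega)
    have h4 := cnt_mono w j (show u + s ≤ u + (Pol.prod P).dim by omega)
    have h5 := h.cnt_add_dim j u
    have h6 : 2 * (P j).dim ∣ q * (P j).dim := Nat.mul_dvd_mul_right hq _
    have e : cnt w j (u + s) + q * (P j).dim - cnt w j u =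
      q * (P j).dim + (cnt w j (u + s) - cnt w j u) := by omega
    rw [e, Nat.dvd_add_right h6] at h2
    have h7 := Nat.eq_zero_of_dvd_of_lt h2 (by have := hd j; omega)
    omega
  by_contra hs0
  have hs1 : 0 < s := Nat.pos_of_ne_zero hs0
  set i := w u with hi
  have h1 : cnt w i (u + 1) = cnt w i u + 1 := by rw [cnt_succ, if_pos hi.symm]
  have h2 := cnt_mono w i (show u + 1 ≤ u + s by omega)
  have hrk : (P i).rank (X hreg E u r i) = (P i).dim := by
    by_contra hcon
    have h5 := lt_of_le_of_ne ((hreg i).rank_le (X hreg E u r i)) hcon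
    have := hzero i h5
    omega
  obtain ⟨j, hj⟩ := hex
  have h5 := h.rank_cnt i (u + (q * (Pol.prod P).dim + s)) r hr.le
  rw [← heq, hrk, hcnt] at h5
  have h8 := h.cnt_add_mul_dim i u (q + 1)
  have e8 : (q + 1) * (P i).dim = q * (P i).dim + (P i).dim := by ring
  have h6 : u + (q + 1) * (Pol.prod P).dim < u + (q * (Pol.prod P).dim + s) + r := by
    by_contra hcon
    push Not at hcon
    have h7 := cnt_mono w i hcon
    omega
  have h7 := h.rank_cnt j (u + (q * (Pol.prod P).dim + s)) r hr.le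
  rw [← heq, hcnt, hzero j hj] at h7
  have h9 := cnt_mono w j h6.le
  have h10 := h.cnt_add_mul_dim j u (q + 1)
  have e9 : (q + 1) * (P j).dim = q * (P j).dim + (P j).dim := by ring
  omega

/-- If a face is repeated in which every component with period other than 2 is not the top, then
the distance is a period. -/
lemma repeat_per (hd : ∀ j, 1 ≤ (P j).dim) (hgood : ∀ j, Good (P j) (c j * (P j).dim))
    (hc : ∀ j, 2 ∣ c j) (hc0 : ∀ j, 0 < c j) {u r k : ℕ} (hr : r < (Pol.prod P).dim)
    (heq : X hreg E u r = X hreg E (u + k) r)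
    (htop : ∀ j, c j ≠ 2 → (P j).rank (X hreg E u r j) < (P j).dim) :
    ∃ q, k = q * (Pol.prod P).dim ∧ ∀ j, c j ∣ q := by
  have hn := h.pos
  set n := (Pol.prod P).dim with hndef
  have hk := Nat.mod_add_div k n
  have hlt := Nat.mod_lt k hn
  set s := k % n with hs
  set q := k / n with hq
  have hk' : k = q * n + s := by rw [← hk]; ring
  have hmain : 2 ∣ q → ∃ q, k = q * n ∧ ∀ j, c j ∣ q := by
    intro hq2
    have hs0 : s = 0 := h.even_case hd hgood hc hr hlt (by rw [← hk']; exact heq) hq2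
    refine ⟨q, by rw [hk', hs0, add_zero], ?_⟩
    intro j
    by_cases hj : (P j).rank (X hreg E u r j) < (P j).dim
    · have h1 := h.dvd_cnt' hd hgood hr.le heq j hj
      rw [hk', hs0, add_zero, h.cnt_add_mul_dim, Nat.add_sub_cancel_left] at h1
      exact Nat.dvd_of_mul_dvd_mul_right (by have := hd j; omega) h1
    · have h2 : c j = 2 := by
        by_contra hcon
        exact hj (htop j hcon)
      rw [h2]; exact hq2
  by_cases hq2 : 2 ∣ q
  · exact hmain hq2
  · exfalso
    -- pass to the complement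
    set T := (∏ j, c j) * (2 * (q + 1)) with hT
    have hTc : ∀ j, c j ∣ T := fun j => (Finset.dvd_prod_of_mem c (Finset.mem_univ j)).mul_right _
    have hT2 : 2 ∣ T := ⟨(∏ j, c j) * (q + 1), by rw [hT]; ring⟩
    have hprod : 0 < ∏ j, c j := Finset.prod_pos fun j _ => hc0 j
    have hTq : q + 1 ≤ T := by
      calc q + 1 ≤ 1 * (2 * (q + 1)) := by omega
        _ ≤ T := Nat.mul_le_mul_right _ hprod
    have hper := h.per_X' hd hgood hTc u r hr.le
    rw [← hndef] at hper
    obtain ⟨T', hT'⟩ := Nat.exists_eq_add_of_le hTq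
    have e1 : T * n = (q + 1) * n + T' * n := by rw [hT']; ring
    have e1' : (q + 1) * n = q * n + n := by ring
    have hT'2 : 2 ∣ T' := by omega
    rcases Nat.eq_zero_or_pos s with hs0 | hs0
    · -- `s = 0`
      have h1 : X hreg E (u + k) r = X hreg E (u + k + ((T' * n + n))) r := by
        have e2 : u + k + (T' * n + n) = u + T * n := by omega
        rw [e2, hper, heq]
      have hex : ∃ j, (P j).rank (X hreg E u r j) < (P j).dim := by
        by_contra hcon
        push Not at hcon
        have h1 := X_rank (hreg := hreg) h.arr (u := u) hr.le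
        rw [rank_prod] at h1
        have h2 : (Pol.prod P).dim ≤ ∑ j, (P j).rank (X hreg E u r j) := by
          rw [dim_prod]; exact Finset.sum_le_sum fun j _ => hcon j
        omega
      obtain ⟨j, hj⟩ := hex
      have h2 := h.dvd_cnt' hd hgood hr.le heq j hj
      rw [hk', hs0, add_zero, h.cnt_add_mul_dim, Nat.add_sub_cancel_left] at h2
      have h3 := Nat.dvd_of_mul_dvd_mul_right (by have := hd j; omega) h2
      exact hq2 ((hc j).trans h3)
    · have h1 : X hreg E (u + k) r = X hreg E (u + k + ((T' * n + (n - s)))) r := by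
        have e2 : u + k + (T' * n + (n - s)) = u + T * n := by omega
        rw [e2, hper, heq]
      have h2 := h.even_case hd hgood hc hr (show n - s < n by omega) h1 hT'2
      omega

end Word

/-- The criterion for one rank. -/
theorem acopticIn_of {P : Pol} {p : ℕ} (hp : 0 < p) (i : Fin P.dim)
    (hP : ∀ E, Arr P E → (∀ u r, r < P.dim → E (u + p) r = E u r) ∧
      (∀ u k, E u i = E (u + k) i → ∀ u' r, r < P.dim → E (u' + k) r = E u' r))
    (π : Equiv.Perm (Fin P.dim)) (Φ : ℤ → Fin P.dim → P.Face) (hΦ : IsPetrie P π Φ) :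
    AcopticIn P Φ i := by
  have hd : 0 < P.dim := i.pos
  -- the array based at `b`
  obtain ⟨E, hEr, harr⟩ := arrays_of_petrie hd hΦ
  -- periodicity
  have hper : ∀ k : ℤ, Φ (k + p) = Φ k := by
    intro k
    funext r
    have h1 := (hP _ (harr (k - shift P π r))).1 0 r r.2
    rw [hEr _ _ _ r.2, hEr _ _ _ r.2] at h1
    have e1 : k - (shift P π r : ℤ) + ((0 + p : ℕ) : ℤ) + (shift P π r : ℤ) = k + p := by
      push_cast; ring
    have e2 : k - (shift P π r : ℤ) + ((0 : ℕ) : ℤ) + (shift P π r : ℤ) = k := by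
      push_cast; ring
    rw [e1, e2] at h1
    exact h1
  have hper' : ∀ q : ℕ, ∀ k : ℤ, Φ (k + (p * q : ℕ)) = Φ k := by
    intro q
    induction q with
    | zero => intro k; simp
    | succ q ih =>
      intro k
      have e : k + ((p * (q + 1) : ℕ) : ℤ) = (k + (p * q : ℕ)) + p := by push_cast; ring
      rw [e, hper, ih]
  have hmain : ∀ (s : ℤ) (k : ℕ), Φ s i = Φ (s + k) i → ∀ x, Φ (x + s) = Φ (x + (s + k)) := by
    intro s k h x
    have h1 := (hP _ (harr (s - shift P π i))).2 0 k
    rw [hEr _ _ _ i.2, hEr _ _ _ i.2] at h1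
    have e1 : s - (shift P π i : ℤ) + ((0 : ℕ) : ℤ) + (shift P π i : ℤ) = s := by
      push_cast; ring
    have e2 : s - (shift P π i : ℤ) + ((0 + k : ℕ) : ℤ) + (shift P π i : ℤ) = s + k := by
      push_cast; ring
    rw [e1, e2] at h1
    have h2 := h1 h
    funext r
    -- move `x + s` to the right by a multiple of `p`
    obtain ⟨q, hq⟩ : ∃ q : ℕ, s - (shift P π i : ℤ) + shift P π r ≤ x + s + (p * q : ℕ) := by
      refine ⟨((shift P π r : ℤ) - shift P π i - x).toNat, ?_⟩
      have h3 : ((shift P π r : ℤ) - shift P π i - x) ≤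
          (((shift P π r : ℤ) - shift P π i - x).toNat : ℤ) := Int.self_le_toNat _
      have h4 : (((shift P π r : ℤ) - shift P π i - x).toNat : ℤ) ≤
          ((p * ((shift P π r : ℤ) - shift P π i - x).toNat : ℕ) : ℤ) := by
        exact_mod_cast Nat.le_mul_of_pos_left _ hp
      omega
    obtain ⟨u, hu⟩ : ∃ u : ℕ, x + s + (p * q : ℕ) = s - (shift P π i : ℤ) + u + shift P π r :=
      ⟨(x + s + (p * q : ℕ) - (s - (shift P π i : ℤ) + shift P π r)).toNat, by omega⟩
    have h5 := h2 u r r.2
    rw [hEr _ _ _ r.2, hEr _ _ _ r.2] at h5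
    rw [← hper' q (x + s), ← hper' q (x + (s + k))]
    have e3 : x + (s + (k : ℤ)) + (p * q : ℕ) =
        s - (shift P π i : ℤ) + ((u + k : ℕ) : ℤ) + shift P π r := by
      push_cast at hu ⊢
      linarith
    rw [hu, e3]
    exact h5.symm
  intro s t h k
  rcases le_total s t with hst | hst
  · obtain ⟨j, rfl⟩ : ∃ j : ℕ, t = s + j := ⟨(t - s).toNat, by omega⟩
    exact hmain s j h k
  · obtain ⟨j, rfl⟩ : ∃ j : ℕ, s = t + j := ⟨(s - t).toNat, by omega⟩
    exact (hmain t j h.symm k).symm

end Pool.Agent.H20.Petrie
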