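import Mathlib
import Pool.Agent.H20.Petrie.Prism
import Pool.Agent.H20.Petrie.ProdEven

/-!
# Petrie schemes of products from arbitrary words
-/

namespace Pool.Agent.H20.Petrie

section Lists

variable {m : ℕ}

/-- The number of letters `j` before the position `u` in the periodic word `⋯ L L L ⋯`. -/
def lcount (L : List (Fin m)) (j : Fin m) (u : ℤ) : ℤ :=
  (u / L.length) * L.count j + (L.take (u % L.length).toNat).count j

lemma lcount_eq (L : List (Fin m)) (hL : 0 < L.length) (j : Fin m) (q : ℤ) {s : ℕ}
    (hs : s ≤ L.length) : lcount L j (q * L.length + s) = q * L.count j + (L.take s).count j := by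
  have hL' : (0 : ℤ) < L.length := by exact_mod_cast hL
  rcases hs.lt_or_eq with h | h
  · have e1 : (q * (L.length : ℤ) + s) / L.length = q := by
      rw [add_comm, mul_comm, Int.add_mul_ediv_left _ _ hL'.ne',
        Int.ediv_eq_zero_of_lt (by omega) (by omega), zero_add]
    have e2 : (q * (L.length : ℤ) + s) % L.length = s := by
      rw [add_comm, mul_comm, Int.add_mul_emod_self_left, Int.emod_eq_of_lt (by omega) (by omega)]
    rw [lcount, e1, e2, Int.toNat_natCast]
  · have e1 : (q * (L.length : ℤ) + s) / L.length = q + 1 := by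
      rw [h]
      have : q * (L.length : ℤ) + L.length = 0 + L.length * (q + 1) := by ring
      rw [this, Int.add_mul_ediv_left _ _ hL'.ne', Int.zero_ediv, zero_add]
    have e2 : (q * (L.length : ℤ) + s) % L.length = 0 := by
      rw [h]
      have : q * (L.length : ℤ) + L.length = 0 + L.length * (q + 1) := by ring
      rw [this, Int.add_mul_emod_self_left, Int.zero_emod]
    rw [lcount, e1, e2, h, List.take_length]
    simp
    ring

lemma lcount_succ (L : List (Fin m)) (hL : 0 < L.length) (j : Fin m) (u : ℤ)
    (hu : (u % L.length).toNat < L.length) :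
    lcount L j (u + 1) = lcount L j u + if L[(u % L.length).toNat] = j then 1 else 0 := by
  have hL' : (0 : ℤ) < L.length := by exact_mod_cast hL
  have h1 := Int.emod_nonneg u hL'.ne'
  have h3 := Int.emod_add_mul_ediv u L.length
  set s := (u % L.length).toNat with hs
  have hs' : (s : ℤ) = u % L.length := by omega
  have e : u + 1 = (u / L.length) * L.length + ((s + 1 : ℕ) : ℤ) := by
    push_cast
    rw [hs']
    linarith
  have a1 : lcount L j (u + 1) = (u / L.length) * L.count j + (L.take (s + 1)).count j := by
    conv_lhs => rw [e]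
    exact lcount_eq L hL j _ (by omega)
  have a2 : lcount L j u = (u / L.length) * L.count j + (L.take s).count j := rfl
  rw [a1, a2, List.take_succ_eq_append_getElem hu, List.count_append, List.count_singleton]
  push_cast
  rw [add_assoc]
  simp only [beq_iff_eq]
  rfl

lemma lcount_add (L : List (Fin m)) (hL : 0 < L.length) (j : Fin m) (u : ℤ) :
    lcount L j (u + L.length) = lcount L j u + L.count j := by
  have hL' : (0 : ℤ) < L.length := by exact_mod_cast hL
  have e1 : (u + L.length) / (L.length : ℤ) = u / L.length + 1 := by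
    have : u + (L.length : ℤ) = u + L.length * 1 := by ring
    rw [this, Int.add_mul_ediv_left _ _ hL'.ne']
  have e2 : (u + L.length) % (L.length : ℤ) = u % L.length := Int.add_emod_right _ _
  rw [lcount, lcount, e1, e2]
  ring

lemma sum_count (L : List (Fin m)) : ∑ j, L.count j = L.length := by
  induction L with
  | nil => simp
  | cons a L ih =>
    have h1 : ∀ j, (a :: L).count j = L.count j + if a = j then 1 else 0 := by
      intro j
      rw [List.count_cons]
      simp only [beq_iff_eq]
    rw [Finset.sum_congr rfl fun j _ => h1 j, Finset.sum_add_distrib, ih]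
    simp

end Lists

section

variable {m : ℕ} {P : Fin m → Pol} {hreg : ∀ j, Regular (P j)} {Fc : ∀ j, ℤ → ℕ → (P j).Face}

lemma dim_of_count {L : List (Fin m)} (hL : ∀ j, L.count j = (P j).dim) :
    (Pol.prod P).dim = L.length := by
  rw [dim_prod, ← sum_count L]
  exact Finset.sum_congr rfl fun j _ => (hL j).symm

lemma arrZ_list (hF : ∀ j, ArrZ (P j) (Fc j)) {L : List (Fin m)} (hpos : 0 < L.length)
    (hL : ∀ j, L.count j = (P j).dim) : ArrZ (Pol.prod P) (EP hreg Fc (lcount L)) := by
  have hL' : (0 : ℤ) < L.length := by exact_mod_cast hpos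
  have hlt : ∀ u : ℤ, (u % L.length).toNat < L.length := by
    intro u
    have h1 := Int.emod_nonneg u hL'.ne'
    have h2 := Int.emod_lt_of_pos u hL'
    omega
  apply arrZ_prod hF (w := fun u => L[(u % L.length).toNat]'(hlt u))
  · intro j u
    exact lcount_succ L hpos j u (hlt u)
  · intro j u
    rw [dim_of_count hL, lcount_add L hpos, hL]

end

/-! ## The data of the factors -/

lemma Factor.regular (F : Factor) : Regular F.pol := by
  cases F with
  | cube d => exact regular_cube d
  | cross d => exact regular_cross
  | gon N => exact regular_polygon N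

lemma Factor.dim_pos {F : Factor} (hF : F.Valid) : 1 ≤ F.pol.dim := by
  cases F with
  | cube d => exact (dim_cube d).symm ▸ hF
  | cross d => exact hF
  | gon N => exact one_le_two

lemma Factor.exists_array {F : Factor} (hF : F.Valid) : ∃ A : ℤ → ℕ → F.pol.Face, ArrZ F.pol A ∧
    ((∀ N, F ≠ .gon N) → ∀ u, A (u + 2 * F.pol.dim) 0 = A u 0) ∧
    (∀ N, F = .gon N → ∀ u v, A u 0 = A v 0 ↔ (N : ℤ) ∣ v - u) := by
  cases F with
  | cube d =>
    refine ⟨cubeArr d, arrZ_cube d hF, fun _ u => ?_, fun N h => by cases h⟩
    have := cubeArr_per d hF u 0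
    rw [← this]
    congr 2
    change 2 * ((Petrie.cube d).dim : ℤ) = _
    rw [dim_cube]
  | cross d =>
    exact ⟨crossArr hF, arrZ_cross hF, fun _ u => crossArr_per hF u hF, fun N h => by cases h⟩
  | gon N =>
    refine ⟨polyArr, arrZ_polygon hF, fun h => absurd rfl (h N), ?_⟩
    intro N' h u v
    cases h
    rw [← ZMod.intCast_eq_intCast_iff_dvd_sub]
    change ((polyArr u 0 : (polygon N).Face) = polyArr v 0) ↔ _
    rw [polyArr_zero, polyArr_zero]
    constructor
    · intro h
      exact PolygonFace.vertex.inj h
    · intro h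
      rw [h]

/-- The count used for the words. -/
lemma count_flat {m : ℕ} (f : Fin m → ℕ) (j : Fin m) :
    ((List.finRange m).flatMap fun i => List.replicate (f i) i).count j = f j := by
  rw [List.count_flatMap, ← Fin.sum_univ_def]
  rw [Finset.sum_eq_single j]
  · simp
  · intro i _ hij
    simp [List.count_replicate, hij]
  · intro h
    exact absurd (Finset.mem_univ j) h

open Classical in
/-- If there is a factor that is not a polygon, and a polygon other than a 4-gon, then there is a
Petrie scheme that is not acoptic. -/
theorem not_onlyAcoptic {m : ℕ} (F : Fin m → Factor) (hF : ∀ j, (F j).Valid) (j0 : Fin m)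
    (hj0 : ∀ N, F j0 ≠ .gon N) (j1 : Fin m) (N : ℕ) (hj1 : F j1 = .gon N) (hN4 : N ≠ 4) :
    ¬ OnlyAcoptic (prodOf F) := by
  intro hac
  have hN : 3 ≤ N := by
    have := hF j1
    rw [hj1] at this
    exact this
  choose A hA1 hA2 hA3 using fun j => Factor.exists_array (hF j)
  set P : Fin m → Pol := fun j => (F j).pol with hP
  have hreg : ∀ j, Regular (P j) := fun j => (F j).regular
  have hdpos : ∀ j, 1 ≤ (P j).dim := fun j => Factor.dim_pos (hF j)
  set f1 : Fin m → ℕ := fun j => if ∃ N, F j = .gon N then 0 else (P j).dim with hf1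
  set f2 : Fin m → ℕ := fun j => if ∃ N, F j = .gon N then (P j).dim else 0 with hf2
  set L1 : List (Fin m) := (List.finRange m).flatMap fun i => List.replicate (f1 i) i with hL1
  set L2 : List (Fin m) := (List.finRange m).flatMap fun i => List.replicate (f2 i) i with hL2
  have hc1 : ∀ j, L1.count j = f1 j := count_flat f1
  have hc2 : ∀ j, L2.count j = f2 j := count_flat f2
  set L := L1 ++ L2 with hL
  have hcL : ∀ j, L.count j = (P j).dim := by
    intro j
    rw [hL, List.count_append, hc1, hc2]
    simp only [hf1, hf2]
    split_ifs <;> omega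
  have hl1 : 0 < L1.length := by
    apply List.length_pos_of_mem (a := j0)
    rw [← List.count_pos_iff, hc1]
    simp only [hf1]
    rw [if_neg (by push Not; exact hj0)]
    exact hdpos j0
  have hl2 : 0 < L2.length := by
    apply List.length_pos_of_mem (a := j1)
    rw [← List.count_pos_iff, hc2]
    simp only [hf2]
    rw [if_pos ⟨N, hj1⟩]
    exact hdpos j1
  have hlen : L.length = L1.length + L2.length := List.length_append
  have hpos : 0 < L.length := by omega
  have hdim : (prodOf F).dim = L.length := dim_of_count hcL
  have harr := arrZ_list (hreg := hreg) hA1 hpos hcL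
  have hpet := harr.isPetrie
  -- counts
  have hz : ∀ j, lcount L j 0 = 0 := by
    intro j
    have := lcount_eq L hpos j 0 (s := 0) (by omega)
    simpa using this
  have h1 : ∀ j, lcount L j L1.length = f1 j := by
    intro j
    have := lcount_eq L hpos j 0 (s := L1.length) (by omega)
    rw [zero_mul, zero_add, zero_mul, zero_add] at this
    rw [this, hL, List.take_left, hc1]
  have h2 : ∀ j, lcount L j (L1.length + L2.length) = (P j).dim := by
    intro j
    have h3 := lcount_add L hpos j 0
    rw [hz, zero_add, zero_add, hcL, hlen] at h3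
    rw [← h3]
    push_cast
    ring_nf
  have hadd : ∀ j u, lcount L j (u + 2 * L.length) = lcount L j u + 2 * (P j).dim := by
    intro j u
    have e : u + 2 * (L.length : ℤ) = u + L.length + L.length := by ring
    rw [e, lcount_add L hpos, lcount_add L hpos, hcL]
    ring
  have hface : EP hreg A (lcount L) L1.length L2.length =
      EP hreg A (lcount L) (L1.length + 2 * L.length) L2.length := by
    funext j
    rw [EP, EP]
    have e : (L1.length : ℤ) + 2 * L.length + (L2.length : ℤ) = L1.length + L2.length +
      2 * L.length := by ring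
    rw [e, hadd, hadd, h1, h2]
    have e3 : ((P j).dim : ℤ) + 2 * (P j).dim - (f1 j + 2 * (P j).dim) = (P j).dim - f1 j := by
      ring
    rw [e3]
    by_cases hg : ∃ N, F j = .gon N
    · have : f1 j = 0 := by simp only [hf1]; rw [if_pos hg]
      rw [this]
      have e4 : (((P j).dim : ℤ) - ((0 : ℕ) : ℤ)).toNat = (P j).dim := by simp
      rw [e4, XF_top le_rfl, XF_top le_rfl]
    · have : f1 j = (P j).dim := by simp only [hf1]; rw [if_neg hg]
      rw [this, sub_self, Int.toNat_zero, XF_lt (hdpos j), XF_lt (hdpos j)]
      push Not at hg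
      exact (hA2 j hg _).symm
  have hr : L2.length < (prodOf F).dim := by omega
  have hr0 : 0 < (prodOf F).dim := by omega
  have hac1 := hac _ _ hpet L1.length (L1.length + 2 * L.length) ⟨L2.length, hr⟩ hface
    (-L1.length)
  have hac2 := congrFun hac1 ⟨0, hr0⟩
  have e5 : -(L1.length : ℤ) + L1.length = 0 := by ring
  have e6 : -(L1.length : ℤ) + (L1.length + 2 * L.length) = 0 + 2 * L.length := by ring
  rw [e5, e6] at hac2
  have hac3 := congrFun hac2 j1
  change EP hreg A (lcount L) 0 0 j1 = EP hreg A (lcount L) (0 + 2 * L.length) 0 j1 at hac3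
  rw [EP, EP, Nat.cast_zero, add_zero, add_zero, sub_self, sub_self, hadd, hz,
    Int.toNat_zero, XF_lt (hdpos j1), XF_lt (hdpos j1), hA3 j1 N hj1] at hac3
  have hd2 : (P j1).dim = 2 := by
    simp only [hP]
    rw [hj1]
    rfl
  rw [hd2] at hac3
  have h9 : N ∣ 4 := by
    have e : (0 : ℤ) + 2 * ((2 : ℕ) : ℤ) - 0 = ((4 : ℕ) : ℤ) := by norm_num
    rw [e, Int.natCast_dvd_natCast] at hac3
    exact hac3
  exact no_dvd hN hN4 h9

end Pool.Agent.H20.Petrie
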