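import Mathlib
import Pool.Agent.H20.Petrie.Words

/-!
# The classes (a), (b), (c)
-/

namespace Pool.Agent.H20.Petrie

lemma good_four {F : Factor} (hF : F.Valid) (h : ∀ N, F = .gon N → N = 4) :
    Good F.pol (2 * F.pol.dim) := by
  cases F with
  | cube d => exact good_cube d
  | cross d => exact good_cross
  | gon N =>
    obtain rfl := h N rfl
    exact good_polygon hF

/-- Part (a), and the positive direction of (b). -/
theorem onlyAcoptic_of_four {m : ℕ} (F : Fin m → Factor) (hF : ∀ j, (F j).Valid)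
    (h : ∀ j N, F j = .gon N → N = 4) : OnlyAcoptic (prodOf F) := by
  apply onlyAcoptic_of_good (p := 2 * (prodOf F).dim)
  exact good_prod le_rfl (fun j => (F j).regular) (fun j => Factor.dim_pos (hF j))
    (fun j => good_four (hF j) (h j))

/-- Part (b): the classification. -/
theorem onlyAcoptic_iff {m : ℕ} (F : Fin m → Factor) (hF : ∀ j, (F j).Valid)
    (h0 : ∃ j, ∀ N, F j ≠ .gon N) :
    OnlyAcoptic (prodOf F) ↔ ∀ j N, F j = .gon N → N = 4 := by
  constructor
  · intro h j N hj
    by_contra hne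
    obtain ⟨j0, hj0⟩ := h0
    exact not_onlyAcoptic F hF j0 hj0 j N hj hne h
  · exact onlyAcoptic_of_four F hF

/-- Half the number of steps after which the factor repeats, per dimension. -/
def Factor.c : Factor → ℕ
  | .cube _ => 2
  | .cross _ => 2
  | .gon N => N / 2

lemma Factor.good_c {F : Factor} (hF : F.Valid) (h : ∀ N, F = .gon N → 4 ∣ N) :
    Good F.pol (F.c * F.pol.dim) ∧ 2 ∣ F.c ∧ 0 < F.c := by
  cases F with
  | cube d => exact ⟨good_cube d, dvd_rfl, two_pos⟩
  | cross d => exact ⟨good_cross, dvd_rfl, two_pos⟩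
  | gon N =>
    obtain ⟨k, rfl⟩ := h N rfl
    have hF' : 3 ≤ 4 * k := hF
    refine ⟨?_, ?_, ?_⟩
    · have h1 := good_polygon hF'
      have e : (Factor.gon (4 * k)).c * (Factor.gon (4 * k)).pol.dim = 4 * k := by
        change 4 * k / 2 * 2 = 4 * k
        omega
      rw [e]
      exact h1
    · change 2 ∣ 4 * k / 2
      omega
    · change 0 < 4 * k / 2
      omega

/-- The arrays of a product of cubes, crosspolytopes and `4k`-gons. -/
lemma arr_even {m : ℕ} {P : Fin m → Pol} {c : Fin m → ℕ} (hreg : ∀ j, Regular (P j))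
    (hd : ∀ j, 1 ≤ (P j).dim) (hgood : ∀ j, Good (P j) (c j * (P j).dim)) (hc : ∀ j, 2 ∣ c j)
    (hc0 : ∀ j, 0 < c j) {i : ℕ} (hn : i < (Pol.prod P).dim)
    (hi : ∀ j, c j ≠ 2 → i < (P j).dim)
    (E : ℕ → ℕ → (Pol.prod P).Face) (hE : Arr (Pol.prod P) E) :
    (∀ u r, r < (Pol.prod P).dim → E (u + (∏ j, c j) * (Pol.prod P).dim) r = E u r) ∧
      (∀ u k, E u i = E (u + k) i → ∀ u' r, r < (Pol.prod P).dim → E (u' + k) r = E u' r) := by
  obtain ⟨w, hw, hper⟩ := exists_word (hreg := hreg) hE (by omega)
  have hW : Word hreg E w := ⟨hE, by omega, fun r hr u => (hw r hr u).1,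
    fun r hr u => (hw r hr u).2, hper⟩
  have hT : ∀ j, c j ∣ ∏ j, c j := fun j =>
    Finset.dvd_prod_of_mem (fun j => c j) (Finset.mem_univ j)
  refine ⟨?_, ?_⟩
  · intro u r hr
    have h1 := hW.per_X' hd hgood hT u r hr.le
    rw [X_lt hr, X_lt hr] at h1
    exact h1
  · intro u k heq u' r hr
    have heqX : X hreg E u i = X hreg E (u + k) i := by rw [X_lt hn, X_lt hn, heq]
    obtain ⟨q, hq, hqc⟩ := hW.repeat_per hd hgood hc hc0 hn heqX (by
        intro j hj
        have h1 : (P j).rank (X hreg E u i j) ≤ i := by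
          have h2 := X_rank (hreg := hreg) hE (u := u) hn.le
          rw [rank_prod] at h2
          calc (P j).rank (X hreg E u i j) ≤ ∑ j, (P j).rank (X hreg E u i j) :=
                Finset.single_le_sum (f := fun j => (P j).rank (X hreg E u i j))
                  (fun j _ => Nat.zero_le _) (Finset.mem_univ j)
            _ = i := h2
        have := hi j hj
        omega)
    have h1 := hW.per_X' hd hgood hqc u' r hr.le
    rw [X_lt hr, X_lt hr] at h1
    rw [hq]
    exact h1

/-- Part (b), ranks 0 and 1. -/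
theorem acopticIn_zero_one {m : ℕ} (F : Fin m → Factor) (hF : ∀ j, (F j).Valid)
    (h : ∀ j N, F j = .gon N → 4 ∣ N) (π : Equiv.Perm (Fin (prodOf F).dim))
    (Φ : ℤ → Fin (prodOf F).dim → (prodOf F).Face) (hΦ : IsPetrie (prodOf F) π Φ)
    (i : Fin (prodOf F).dim) (hi : (i : ℕ) ≤ 1) : AcopticIn (prodOf F) Φ i := by
  have hgood := fun j => Factor.good_c (hF j) (h j)
  have hn : 0 < (prodOf F).dim := i.pos
  have hTpos : 0 < ∏ j, (F j).c := Finset.prod_pos fun j _ => (hgood j).2.2
  apply acopticIn_of (p := (∏ j, (F j).c) * (prodOf F).dim) (Nat.mul_pos hTpos hn) i _ π Φ hΦ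
  exact arr_even (P := fun j => (F j).pol) (c := fun j => (F j).c) (fun j => (F j).regular)
    (fun j => Factor.dim_pos (hF j)) (fun j => (hgood j).1) (fun j => (hgood j).2.1)
    (fun j => (hgood j).2.2) i.2 (by
      intro j hj
      have h3 : (F j).pol.dim = 2 := by
        generalize F j = G at hj
        cases G with
        | cube d => exact absurd rfl hj
        | cross d => exact absurd rfl hj
        | gon N => rfl
      rw [h3]
      omega)

section Prism

/-- The word `0^d 1 1`. -/
def prismWord (d : ℕ) : List (Fin 2) := List.replicate d 0 ++ [1, 1]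

lemma prismWord_length (d : ℕ) : (prismWord d).length = d + 2 := by simp [prismWord]

lemma prismWord_count0 (d : ℕ) : (prismWord d).count 0 = d := by
  simp [prismWord, List.count_append]

lemma prismWord_count1 (d : ℕ) : (prismWord d).count 1 = 2 := by
  simp [prismWord, List.count_append, List.count_replicate]

lemma prism_take {d s : ℕ} (hs : s ≤ d) :
    ((prismWord d).take s).count 0 = s ∧ ((prismWord d).take s).count 1 = 0 := by
  have h : (prismWord d).take s = List.replicate s 0 := by
    rw [prismWord, List.take_append_of_le_length (by simpa using hs), List.take_replicate,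
      min_eq_left hs]
  rw [h]
  simp [List.count_replicate]

lemma prism_take' (d : ℕ) :
    ((prismWord d).take (d + 1)).count 0 = d ∧ ((prismWord d).take (d + 1)).count 1 = 1 := by
  have h : (prismWord d).take (d + 1) = List.replicate d 0 ++ [1] := by
    rw [prismWord, List.take_append, List.take_of_length_le (by simp)]
    simp
  rw [h]
  simp [List.count_append, List.count_replicate]

lemma prism_count {d : ℕ} (q : ℤ) {s : ℕ} (hs : s ≤ d) :
    lcount (prismWord d) 0 (q * (d + 2) + s) = q * d + s ∧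
    lcount (prismWord d) 1 (q * (d + 2) + s) = 2 * q := by
  have hpos : 0 < (prismWord d).length := by rw [prismWord_length]; omega
  have hs' : s ≤ (prismWord d).length := by rw [prismWord_length]; omega
  have h0 := lcount_eq (prismWord d) hpos 0 q hs'
  have h1 := lcount_eq (prismWord d) hpos 1 q hs'
  rw [(prism_take hs).1, prismWord_count0] at h0
  rw [(prism_take hs).2, prismWord_count1] at h1
  have e : ((prismWord d).length : ℤ) = d + 2 := by rw [prismWord_length]; push_cast; ring
  rw [e] at h0 h1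
  rw [h0, h1]
  constructor
  · rfl
  · push_cast; ring

lemma prism_count' {d : ℕ} (q : ℤ) :
    lcount (prismWord d) 0 (q * (d + 2) + (d + 1)) = q * d + d ∧
    lcount (prismWord d) 1 (q * (d + 2) + (d + 1)) = 2 * q + 1 := by
  have hpos : 0 < (prismWord d).length := by rw [prismWord_length]; omega
  have hs' : d + 1 ≤ (prismWord d).length := by rw [prismWord_length]; omega
  have h0 := lcount_eq (prismWord d) hpos 0 q hs'
  have h1 := lcount_eq (prismWord d) hpos 1 q hs'
  rw [(prism_take' d).1, prismWord_count0] at h0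
  rw [(prism_take' d).2, prismWord_count1] at h1
  have e : ((prismWord d).length : ℤ) = d + 2 := by rw [prismWord_length]; push_cast; ring
  rw [e] at h0 h1
  push_cast at h0 h1
  rw [h0, h1]
  constructor
  · rfl
  · ring

/-- A product of a cube or a crosspolytope with an `N`-gon, `4 ∤ N`, has a Petrie scheme with a
repeated vertex. -/
theorem exists_repeated_vertex (A : Factor) (hA : A.Valid) (hAg : ∀ N, A ≠ .gon N) {N : ℕ}
    (hN : 3 ≤ N) (h4 : ¬ 4 ∣ N) :
    ∃ (π : Equiv.Perm (Fin (prodOf ![A, .gon N]).dim))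
      (Φ : ℤ → Fin (prodOf ![A, .gon N]).dim → (prodOf ![A, .gon N]).Face)
      (i : Fin (prodOf ![A, .gon N]).dim), IsPetrie (prodOf ![A, .gon N]) π Φ ∧ (i : ℕ) = 0 ∧
      ¬ AcopticIn (prodOf ![A, .gon N]) Φ i := by
  set F : Fin 2 → Factor := ![A, .gon N] with hFdef
  have hF : ∀ j, (F j).Valid := fun j => by
    refine Fin.cases ?_ (fun j => Fin.cases ?_ (fun j => j.elim0) j) j
    · exact hA
    · exact hN
  choose B hB1 hB2 hB3 using fun j => Factor.exists_array (hF j)
  set P : Fin 2 → Pol := fun j => (F j).pol with hP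
  have hreg : ∀ j, Regular (P j) := fun j => (F j).regular
  have hdpos : ∀ j, 1 ≤ (P j).dim := fun j => Factor.dim_pos (hF j)
  set d := A.pol.dim with hd
  have hd1 : 1 ≤ d := hdpos 0
  have hcL : ∀ j, (prismWord d).count j = (P j).dim := fun j => by
    refine Fin.cases ?_ (fun j => Fin.cases ?_ (fun j => j.elim0) j) j
    · exact prismWord_count0 d
    · exact prismWord_count1 d
  have hpos : 0 < (prismWord d).length := by rw [prismWord_length]; omega
  have hdim : (prodOf F).dim = d + 2 := by
    rw [← prismWord_length]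
    exact dim_of_count hcL
  have hr0 : 0 < (prodOf F).dim := by omega
  have harr := arrZ_list (hreg := hreg) hB1 hpos hcL
  have hpet := harr.isPetrie
  set c := lcount (prismWord d) with hc
  refine ⟨_, _, ⟨0, hr0⟩, hpet, rfl, ?_⟩
  intro hac
  -- vertices
  have hvert : ∀ u v : ℤ, (∃ t : ℕ, c 0 v = c 0 u + 2 * d * t) → (N : ℤ) ∣ c 1 v - c 1 u →
      EP hreg B c u 0 = EP hreg B c v 0 := by
    intro u v ⟨t, ht⟩ h1
    have key : ∀ j : Fin 2, EP hreg B c u 0 j = EP hreg B c v 0 j := by
      intro j
      rw [EP, EP, Nat.cast_zero, add_zero, add_zero, sub_self, sub_self, Int.toNat_zero,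
        XF_lt (hdpos j), XF_lt (hdpos j)]
      refine Fin.cases ?_ (fun j => Fin.cases ?_ (fun j => j.elim0) j) j
      · rw [ht]
        have hrep : ∀ t : ℕ, ∀ x : ℤ, B 0 (x + 2 * d * t) 0 = B 0 x 0 := by
          intro t
          induction t with
          | zero => intro x; simp
          | succ t ih =>
            intro x
            have e : x + 2 * (d : ℤ) * ((t + 1 : ℕ) : ℤ) = (x + 2 * d * t) + 2 * d := by
              push_cast; ring
            rw [e, ← ih x]
            exact hB2 0 hAg _
        exact (hrep t _).symm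
      · exact (hB3 1 N rfl _ _).2 h1
    exact funext key
  have hvert' : ∀ u v : ℤ, EP hreg B c u 0 = EP hreg B c v 0 → (N : ℤ) ∣ c 1 v - c 1 u := by
    intro u v h
    have h1 := congrFun h 1
    change EP hreg B c u 0 1 = EP hreg B c v 0 1 at h1
    rw [EP, EP, Nat.cast_zero, add_zero, add_zero, sub_self, sub_self, Int.toNat_zero,
      XF_lt (hdpos 1), XF_lt (hdpos 1)] at h1
    exact (hB3 1 N rfl _ _).1 h1
  have hmain : ∀ u v x : ℤ, (∃ t : ℕ, c 0 v = c 0 u + 2 * d * t) → (N : ℤ) ∣ c 1 v - c 1 u →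
      (N : ℤ) ∣ c 1 (x + (v - u)) - c 1 x := by
    intro u v x h1 h2
    have h3 := hac u v (hvert u v h1 h2) (x - u)
    have h4 := congrFun h3 ⟨0, hr0⟩
    have e1 : x - u + u = x := by ring
    have e2 : x - u + v = x + (v - u) := by ring
    rw [e1, e2] at h4
    exact hvert' _ _ h4
  have hz : ∀ (j : Fin 2), c j 0 = 0 := by
    intro j
    have h0 := prism_count (d := d) 0 (s := 0) (by omega)
    simp only [zero_mul, Nat.cast_zero, add_zero, mul_zero] at h0
    refine Fin.cases ?_ (fun j => Fin.cases ?_ (fun j => j.elim0) j) j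
    · exact h0.1
    · exact h0.2
  have hone : c 1 1 = 0 := by
    have h0 := (prism_count (d := d) 0 (s := 1) (by omega)).2
    simpa using h0
  have hNdvd : ∀ z : ℤ, 0 < z → z < N → ¬ (N : ℤ) ∣ z := by
    intro z hz0 hzN hdvd
    have := Int.le_of_dvd hz0 hdvd
    omega
  have hNdvd1 : ¬ (N : ℤ) ∣ N + 1 := by
    intro hdvd
    have : (N : ℤ) ∣ 1 := (dvd_add_right dvd_rfl).1 hdvd
    exact hNdvd 1 (by norm_num) (by omega) this
  rcases Nat.even_or_odd' N with ⟨l, hl | hl⟩
  · -- `N = 2 l` with `l` odd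
    obtain ⟨t, ht⟩ : ∃ t, l = 2 * t + 1 := ⟨l / 2, by omega⟩
    have c0 := prism_count (d := d) (l : ℤ) (s := d) le_rfl
    have c1 := prism_count' (d := d) (l : ℤ)
    have h1 := hmain 0 (l * (d + 2) + d) 1 ⟨t + 1, by
      change lcount (prismWord d) 0 _ = c 0 0 + _
      rw [c0.1, hz, ht]
      push_cast; ring⟩ (by
      change (N : ℤ) ∣ lcount (prismWord d) 1 _ - c 1 0
      rw [c0.2, hz, sub_zero, hl]
      push_cast
      exact dvd_rfl)
    have e : (1 : ℤ) + ((l : ℤ) * (d + 2) + d - 0) = l * (d + 2) + (d + 1) := by ring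
    rw [e] at h1
    change (N : ℤ) ∣ lcount (prismWord d) 1 _ - c 1 1 at h1
    rw [c1.2, hone, sub_zero] at h1
    apply hNdvd1
    have e2 : (N : ℤ) + 1 = 2 * (l : ℤ) + 1 := by rw [hl]; push_cast; ring
    rw [e2]
    exact h1
  · -- `N = 2 l + 1`
    rcases Nat.even_or_odd' l with ⟨t, ht | ht⟩
    · -- `l` even
      have c0 := prism_count (d := d) (0 : ℤ) (s := d) le_rfl
      have c1 := prism_count' (d := d) (l : ℤ)
      have c2 := prism_count (d := d) (l : ℤ) (s := 1) hd1
      rw [zero_mul, zero_add, zero_mul, zero_add, mul_zero] at c0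
      have h1 := hmain d (l * (d + 2) + (d + 1)) 0 ⟨t, by
        change lcount (prismWord d) 0 _ = lcount (prismWord d) 0 _ + _
        rw [c1.1, c0.1, ht]
        push_cast; ring⟩ (by
        change (N : ℤ) ∣ lcount (prismWord d) 1 _ - lcount (prismWord d) 1 _
        rw [c1.2, c0.2, sub_zero, hl]
        push_cast
        exact dvd_rfl)
      have e : (0 : ℤ) + ((l : ℤ) * (d + 2) + (d + 1) - d) = l * (d + 2) + ((1 : ℕ) : ℤ) := by
        push_cast; ring
      rw [e] at h1
      change (N : ℤ) ∣ lcount (prismWord d) 1 _ - c 1 0 at h1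
      rw [c2.2, hz, sub_zero] at h1
      exact hNdvd _ (by omega) (by omega) h1
    · -- `l` odd
      have c1 := prism_count' (d := d) (l : ℤ)
      have c2 := prism_count (d := d) ((l : ℤ) + 1) (s := 0) (by omega)
      have h1 := hmain 0 (l * (d + 2) + (d + 1)) 1 ⟨t + 1, by
        change lcount (prismWord d) 0 _ = c 0 0 + _
        rw [c1.1, hz, ht]
        push_cast; ring⟩ (by
        change (N : ℤ) ∣ lcount (prismWord d) 1 _ - c 1 0
        rw [c1.2, hz, sub_zero, hl]
        push_cast
        exact dvd_rfl)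
      have e : (1 : ℤ) + ((l : ℤ) * (d + 2) + (d + 1) - 0) =
          ((l : ℤ) + 1) * (d + 2) + ((0 : ℕ) : ℤ) := by
        push_cast; ring
      rw [e] at h1
      change (N : ℤ) ∣ lcount (prismWord d) 1 _ - c 1 1 at h1
      rw [c2.2, hone, sub_zero] at h1
      apply hNdvd1
      have e2 : (N : ℤ) + 1 = 2 * ((l : ℤ) + 1) := by rw [hl]; push_cast; ring
      rw [e2]
      exact h1

end Prism

end Pool.Agent.H20.Petrie
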