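import Mathlib
import Pool.Agent.H20.Petrie.Cert

/-!
# The certificates for the regular star-polytopes in dimensions 3 and 4
-/

namespace Pool.Agent.H20.Petrie

/-- The powers of the product of the generating reflections for `{5/2, 5}`. -/
def T0 : List (List (List (ℤ × ℤ))) := [
  [[(1,0),(0,0),(0,0)],[(0,0),(1,0),(0,0)],[(0,0),(0,0),(1,0)]],
  [[(1,-1),(1,0),(-1,0)],[(-1,1),(0,1),(0,-1)],[(0,0),(0,1),(-1,0)]],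
  [[(1,0),(1,-1),(0,0)],[(-1,1),(-1,1),(0,-1)],[(1,0),(1,0),(0,-1)]],
  [[(-1,0),(0,0),(0,0)],[(0,0),(-1,0),(0,0)],[(0,0),(0,0),(-1,0)]],
  [[(-1,1),(-1,0),(1,0)],[(1,-1),(0,-1),(0,1)],[(0,0),(0,-1),(1,0)]],
  [[(-1,0),(-1,1),(0,0)],[(1,-1),(1,-1),(0,1)],[(-1,0),(-1,0),(0,1)]],
  [[(1,0),(0,0),(0,0)],[(0,0),(1,0),(0,0)],[(0,0),(0,0),(1,0)]]]

/-- Twice the Gram matrix for `{5/2, 5}`. -/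
def M0 : Fin 3 → Fin 3 → ℤ × ℤ := ![![(2,0),(1,-1),(0,0)],![(1,-1),(2,0),(0,-1)],![(0,0),(0,-1),(2,0)]]

theorem star0 : OnlyAcoptic (starPol [5 / 2, 5]) :=
  onlyAcoptic_star (by decide +kernel) (q := 6) (by norm_num) (M := M0) (by decide +kernel)
    (T := tab T0) (by decide +kernel)

/-- The powers of the product of the generating reflections for `{5, 5/2}`. -/
def T1 : List (List (List (ℤ × ℤ))) := [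
  [[(1,0),(0,0),(0,0)],[(0,0),(1,0),(0,0)],[(0,0),(0,0),(1,0)]],
  [[(0,1),(-1,0),(-1,0)],[(0,1),(1,-1),(1,-1)],[(0,0),(-1,1),(-1,0)]],
  [[(1,0),(0,-1),(0,0)],[(0,1),(0,-1),(1,-1)],[(1,0),(-1,0),(-1,1)]],
  [[(-1,0),(0,0),(0,0)],[(0,0),(-1,0),(0,0)],[(0,0),(0,0),(-1,0)]],
  [[(0,-1),(1,0),(1,0)],[(0,-1),(-1,1),(-1,1)],[(0,0),(1,-1),(1,0)]],
  [[(-1,0),(0,1),(0,0)],[(0,-1),(0,1),(-1,1)],[(-1,0),(1,0),(1,-1)]],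
  [[(1,0),(0,0),(0,0)],[(0,0),(1,0),(0,0)],[(0,0),(0,0),(1,0)]]]

/-- Twice the Gram matrix for `{5, 5/2}`. -/
def M1 : Fin 3 → Fin 3 → ℤ × ℤ := ![![(2,0),(0,-1),(0,0)],![(0,-1),(2,0),(1,-1)],![(0,0),(1,-1),(2,0)]]

theorem star1 : OnlyAcoptic (starPol [5, 5 / 2]) :=
  onlyAcoptic_star (by decide +kernel) (q := 6) (by norm_num) (M := M1) (by decide +kernel)
    (T := tab T1) (by decide +kernel)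

/-- The powers of the product of the generating reflections for `{5/2, 3}`. -/
def T2 : List (List (List (ℤ × ℤ))) := [
  [[(1,0),(0,0),(0,0)],[(0,0),(1,0),(0,0)],[(0,0),(0,0),(1,0)]],
  [[(1,-1),(0,0),(1,-1)],[(-1,1),(0,0),(-1,0)],[(0,0),(1,0),(-1,0)]],
  [[(2,-1),(1,-1),(1,0)],[(-2,1),(-1,0),(-1,1)],[(-1,1),(-1,0),(0,0)]],
  [[(1,-1),(1,0),(1,-1)],[(-2,1),(-1,1),(-1,1)],[(-1,0),(0,0),(-1,1)]],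
  [[(1,0),(1,-1),(0,0)],[(-1,1),(-1,1),(-1,0)],[(-1,1),(-1,1),(0,0)]],
  [[(-1,0),(0,0),(0,0)],[(0,0),(-1,0),(0,0)],[(0,0),(0,0),(-1,0)]],
  [[(-1,1),(0,0),(-1,1)],[(1,-1),(0,0),(1,0)],[(0,0),(-1,0),(1,0)]],
  [[(-2,1),(-1,1),(-1,0)],[(2,-1),(1,0),(1,-1)],[(1,-1),(1,0),(0,0)]],
  [[(-1,1),(-1,0),(-1,1)],[(2,-1),(1,-1),(1,-1)],[(1,0),(0,0),(1,-1)]],
  [[(-1,0),(-1,1),(0,0)],[(1,-1),(1,-1),(1,0)],[(1,-1),(1,-1),(0,0)]],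
  [[(1,0),(0,0),(0,0)],[(0,0),(1,0),(0,0)],[(0,0),(0,0),(1,0)]]]

/-- Twice the Gram matrix for `{5/2, 3}`. -/
def M2 : Fin 3 → Fin 3 → ℤ × ℤ := ![![(2,0),(1,-1),(0,0)],![(1,-1),(2,0),(-1,0)],![(0,0),(-1,0),(2,0)]]

theorem star2 : OnlyAcoptic (starPol [5 / 2, 3]) :=
  onlyAcoptic_star (by decide +kernel) (q := 10) (by norm_num) (M := M2) (by decide +kernel)
    (T := tab T2) (by decide +kernel)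

/-- The powers of the product of the generating reflections for `{3, 5/2}`. -/
def T3 : List (List (List (ℤ × ℤ))) := [
  [[(1,0),(0,0),(0,0)],[(0,0),(1,0),(0,0)],[(0,0),(0,0),(1,0)]],
  [[(0,0),(1,-1),(1,-1)],[(1,0),(1,-1),(1,-1)],[(0,0),(-1,1),(-1,0)]],
  [[(1,-1),(0,0),(1,0)],[(1,-1),(1,-1),(2,-1)],[(-1,1),(-1,0),(-1,1)]],
  [[(0,0),(1,0),(1,-1)],[(1,-1),(1,0),(2,-1)],[(-1,0),(-1,1),(-2,1)]],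
  [[(1,0),(-1,0),(0,0)],[(1,0),(0,0),(1,-1)],[(-1,1),(0,0),(-1,1)]],
  [[(-1,0),(0,0),(0,0)],[(0,0),(-1,0),(0,0)],[(0,0),(0,0),(-1,0)]],
  [[(0,0),(-1,1),(-1,1)],[(-1,0),(-1,1),(-1,1)],[(0,0),(1,-1),(1,0)]],
  [[(-1,1),(0,0),(-1,0)],[(-1,1),(-1,1),(-2,1)],[(1,-1),(1,0),(1,-1)]],
  [[(0,0),(-1,0),(-1,1)],[(-1,1),(-1,0),(-2,1)],[(1,0),(1,-1),(2,-1)]],
  [[(-1,0),(1,0),(0,0)],[(-1,0),(0,0),(-1,1)],[(1,-1),(0,0),(1,-1)]],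
  [[(1,0),(0,0),(0,0)],[(0,0),(1,0),(0,0)],[(0,0),(0,0),(1,0)]]]

/-- Twice the Gram matrix for `{3, 5/2}`. -/
def M3 : Fin 3 → Fin 3 → ℤ × ℤ := ![![(2,0),(-1,0),(0,0)],![(-1,0),(2,0),(1,-1)],![(0,0),(1,-1),(2,0)]]

theorem star3 : OnlyAcoptic (starPol [3, 5 / 2]) :=
  onlyAcoptic_star (by decide +kernel) (q := 10) (by norm_num) (M := M3) (by decide +kernel)
    (T := tab T3) (by decide +kernel)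

/-- The powers of the product of the generating reflections for `{5/2, 5, 3}`. -/
def T4 : List (List (List (ℤ × ℤ))) := [
  [[(1,0),(0,0),(0,0),(0,0)],[(0,0),(1,0),(0,0),(0,0)],[(0,0),(0,0),(1,0),(0,0)],[(0,0),(0,0),(0,0),(1,0)]],
  [[(1,-1),(1,0),(0,0),(-1,0)],[(-1,1),(0,1),(0,0),(0,-1)],[(0,0),(0,1),(0,0),(-1,0)],[(0,0),(0,0),(1,0),(-1,0)]],
  [[(1,0),(1,0),(-1,0),(0,0)],[(-1,1),(0,2),(0,-1),(0,-1)],[(1,0),(1,1),(-1,0),(0,-1)],[(0,0),(0,1),(-1,0),(0,0)]],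
  [[(0,0),(1,0),(0,0),(0,-1)],[(0,1),(0,2),(0,-1),(-1,-1)],[(1,0),(2,1),(0,-1),(-1,-1)],[(1,0),(1,0),(0,0),(0,-1)]],
  [[(-1,1),(0,1),(0,-1),(0,0)],[(1,0),(1,2),(-1,-1),(-1,-1)],[(0,1),(1,2),(-1,-1),(-1,-1)],[(0,0),(1,1),(0,-1),(-1,0)]],
  [[(-1,1),(-1,1),(0,0),(0,-1)],[(2,0),(2,1),(-1,-1),(-1,-1)],[(0,1),(1,2),(-1,-1),(0,-2)],[(0,1),(0,1),(-1,0),(0,-1)]],
  [[(0,0),(0,1),(0,-1),(0,0)],[(1,0),(2,1),(-1,-1),(-1,-1)],[(0,1),(1,2),(0,-2),(-1,-1)],[(0,0),(1,1),(0,-1),(0,-1)]],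
  [[(1,0),(0,0),(0,0),(-1,0)],[(0,1),(1,1),(-1,-1),(0,-1)],[(0,1),(0,2),(-1,-1),(-1,-1)],[(0,1),(0,1),(0,-1),(-1,0)]],
  [[(1,-1),(1,0),(-1,0),(0,0)],[(-1,1),(0,1),(0,-1),(0,-1)],[(1,0),(1,1),(-1,-1),(0,-1)],[(0,0),(0,1),(-1,0),(0,-1)]],
  [[(1,0),(1,-1),(0,0),(0,0)],[(-1,1),(-1,1),(0,-1),(0,0)],[(1,0),(1,0),(0,-1),(-1,0)],[(1,0),(1,0),(0,-1),(0,0)]],
  [[(-1,0),(0,0),(0,0),(0,0)],[(0,0),(-1,0),(0,0),(0,0)],[(0,0),(0,0),(-1,0),(0,0)],[(0,0),(0,0),(0,0),(-1,0)]],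
  [[(-1,1),(-1,0),(0,0),(1,0)],[(1,-1),(0,-1),(0,0),(0,1)],[(0,0),(0,-1),(0,0),(1,0)],[(0,0),(0,0),(-1,0),(1,0)]],
  [[(-1,0),(-1,0),(1,0),(0,0)],[(1,-1),(0,-2),(0,1),(0,1)],[(-1,0),(-1,-1),(1,0),(0,1)],[(0,0),(0,-1),(1,0),(0,0)]],
  [[(0,0),(-1,0),(0,0),(0,1)],[(0,-1),(0,-2),(0,1),(1,1)],[(-1,0),(-2,-1),(0,1),(1,1)],[(-1,0),(-1,0),(0,0),(0,1)]],
  [[(1,-1),(0,-1),(0,1),(0,0)],[(-1,0),(-1,-2),(1,1),(1,1)],[(0,-1),(-1,-2),(1,1),(1,1)],[(0,0),(-1,-1),(0,1),(1,0)]],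
  [[(1,-1),(1,-1),(0,0),(0,1)],[(-2,0),(-2,-1),(1,1),(1,1)],[(0,-1),(-1,-2),(1,1),(0,2)],[(0,-1),(0,-1),(1,0),(0,1)]],
  [[(0,0),(0,-1),(0,1),(0,0)],[(-1,0),(-2,-1),(1,1),(1,1)],[(0,-1),(-1,-2),(0,2),(1,1)],[(0,0),(-1,-1),(0,1),(0,1)]],
  [[(-1,0),(0,0),(0,0),(1,0)],[(0,-1),(-1,-1),(1,1),(0,1)],[(0,-1),(0,-2),(1,1),(1,1)],[(0,-1),(0,-1),(0,1),(1,0)]],
  [[(-1,1),(-1,0),(1,0),(0,0)],[(1,-1),(0,-1),(0,1),(0,1)],[(-1,0),(-1,-1),(1,1),(0,1)],[(0,0),(0,-1),(1,0),(0,1)]],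
  [[(-1,0),(-1,1),(0,0),(0,0)],[(1,-1),(1,-1),(0,1),(0,0)],[(-1,0),(-1,0),(0,1),(1,0)],[(-1,0),(-1,0),(0,1),(0,0)]],
  [[(1,0),(0,0),(0,0),(0,0)],[(0,0),(1,0),(0,0),(0,0)],[(0,0),(0,0),(1,0),(0,0)],[(0,0),(0,0),(0,0),(1,0)]]]

/-- Twice the Gram matrix for `{5/2, 5, 3}`. -/
def M4 : Fin 4 → Fin 4 → ℤ × ℤ := ![![(2,0),(1,-1),(0,0),(0,0)],![(1,-1),(2,0),(0,-1),(0,0)],![(0,0),(0,-1),(2,0),(-1,0)],![(0,0),(0,0),(-1,0),(2,0)]]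

theorem star4 : OnlyAcoptic (starPol [5 / 2, 5, 3]) :=
  onlyAcoptic_star (by decide +kernel) (q := 20) (by norm_num) (M := M4) (by decide +kernel)
    (T := tab T4) (by decide +kernel)

/-- The powers of the product of the generating reflections for `{3, 5, 5/2}`. -/
def T5 : List (List (List (ℤ × ℤ))) := [
  [[(1,0),(0,0),(0,0),(0,0)],[(0,0),(1,0),(0,0),(0,0)],[(0,0),(0,0),(1,0),(0,0)],[(0,0),(0,0),(0,0),(1,0)]],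
  [[(0,0),(0,1),(-1,0),(-1,0)],[(1,0),(0,1),(-1,0),(-1,0)],[(0,0),(0,1),(1,-1),(1,-1)],[(0,0),(0,0),(-1,1),(-1,0)]],
  [[(0,1),(1,0),(0,-1),(0,0)],[(0,1),(1,1),(-1,-1),(-1,0)],[(0,1),(0,1),(0,-1),(1,-1)],[(0,0),(1,0),(-1,0),(-1,1)]],
  [[(1,0),(0,1),(0,-1),(0,-1)],[(1,1),(1,1),(0,-2),(0,-1)],[(0,1),(1,1),(-1,-1),(0,-1)],[(1,0),(0,0),(0,0),(-1,0)]],
  [[(0,1),(0,1),(-1,-1),(0,0)],[(1,1),(0,2),(-1,-2),(0,-1)],[(1,1),(1,1),(-2,-1),(-1,0)],[(0,0),(0,1),(0,-1),(0,0)]],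
  [[(0,1),(1,0),(0,-1),(0,-1)],[(0,2),(1,1),(-1,-2),(0,-1)],[(1,1),(1,1),(-2,-1),(-2,0)],[(0,1),(0,0),(1,-1),(1,-1)]],
  [[(1,0),(0,1),(-1,-1),(0,0)],[(1,1),(1,1),(-1,-2),(0,-1)],[(1,1),(1,1),(-1,-2),(-1,0)],[(0,0),(0,1),(0,-1),(1,-1)]],
  [[(0,1),(0,0),(-1,0),(-1,0)],[(1,1),(0,1),(-2,-1),(-1,0)],[(1,1),(0,1),(0,-2),(0,-1)],[(0,1),(0,0),(-1,0),(0,0)]],
  [[(0,0),(1,0),(0,-1),(0,0)],[(0,1),(1,0),(-1,-1),(-1,0)],[(0,1),(0,1),(0,-2),(1,-1)],[(0,0),(1,0),(-1,0),(-1,0)]],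
  [[(1,0),(-1,0),(0,0),(0,0)],[(1,0),(0,0),(0,-1),(0,0)],[(0,1),(0,0),(0,-1),(1,-1)],[(1,0),(0,0),(-1,0),(-1,1)]],
  [[(-1,0),(0,0),(0,0),(0,0)],[(0,0),(-1,0),(0,0),(0,0)],[(0,0),(0,0),(-1,0),(0,0)],[(0,0),(0,0),(0,0),(-1,0)]],
  [[(0,0),(0,-1),(1,0),(1,0)],[(-1,0),(0,-1),(1,0),(1,0)],[(0,0),(0,-1),(-1,1),(-1,1)],[(0,0),(0,0),(1,-1),(1,0)]],
  [[(0,-1),(-1,0),(0,1),(0,0)],[(0,-1),(-1,-1),(1,1),(1,0)],[(0,-1),(0,-1),(0,1),(-1,1)],[(0,0),(-1,0),(1,0),(1,-1)]],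
  [[(-1,0),(0,-1),(0,1),(0,1)],[(-1,-1),(-1,-1),(0,2),(0,1)],[(0,-1),(-1,-1),(1,1),(0,1)],[(-1,0),(0,0),(0,0),(1,0)]],
  [[(0,-1),(0,-1),(1,1),(0,0)],[(-1,-1),(0,-2),(1,2),(0,1)],[(-1,-1),(-1,-1),(2,1),(1,0)],[(0,0),(0,-1),(0,1),(0,0)]],
  [[(0,-1),(-1,0),(0,1),(0,1)],[(0,-2),(-1,-1),(1,2),(0,1)],[(-1,-1),(-1,-1),(2,1),(2,0)],[(0,-1),(0,0),(-1,1),(-1,1)]],
  [[(-1,0),(0,-1),(1,1),(0,0)],[(-1,-1),(-1,-1),(1,2),(0,1)],[(-1,-1),(-1,-1),(1,2),(1,0)],[(0,0),(0,-1),(0,1),(-1,1)]],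
  [[(0,-1),(0,0),(1,0),(1,0)],[(-1,-1),(0,-1),(2,1),(1,0)],[(-1,-1),(0,-1),(0,2),(0,1)],[(0,-1),(0,0),(1,0),(0,0)]],
  [[(0,0),(-1,0),(0,1),(0,0)],[(0,-1),(-1,0),(1,1),(1,0)],[(0,-1),(0,-1),(0,2),(-1,1)],[(0,0),(-1,0),(1,0),(1,0)]],
  [[(-1,0),(1,0),(0,0),(0,0)],[(-1,0),(0,0),(0,1),(0,0)],[(0,-1),(0,0),(0,1),(-1,1)],[(-1,0),(0,0),(1,0),(1,-1)]],
  [[(1,0),(0,0),(0,0),(0,0)],[(0,0),(1,0),(0,0),(0,0)],[(0,0),(0,0),(1,0),(0,0)],[(0,0),(0,0),(0,0),(1,0)]]]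

/-- Twice the Gram matrix for `{3, 5, 5/2}`. -/
def M5 : Fin 4 → Fin 4 → ℤ × ℤ := ![![(2,0),(-1,0),(0,0),(0,0)],![(-1,0),(2,0),(0,-1),(0,0)],![(0,0),(0,-1),(2,0),(1,-1)],![(0,0),(0,0),(1,-1),(2,0)]]

theorem star5 : OnlyAcoptic (starPol [3, 5, 5 / 2]) :=
  onlyAcoptic_star (by decide +kernel) (q := 20) (by norm_num) (M := M5) (by decide +kernel)
    (T := tab T5) (by decide +kernel)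

/-- The powers of the product of the generating reflections for `{5, 5/2, 5}`. -/
def T6 : List (List (List (ℤ × ℤ))) := [
  [[(1,0),(0,0),(0,0),(0,0)],[(0,0),(1,0),(0,0),(0,0)],[(0,0),(0,0),(1,0),(0,0)],[(0,0),(0,0),(0,0),(1,0)]],
  [[(0,1),(-1,0),(0,1),(0,-1)],[(0,1),(1,-1),(1,0),(-1,0)],[(0,0),(-1,1),(0,1),(0,-1)],[(0,0),(0,0),(0,1),(-1,0)]],
  [[(1,0),(0,0),(0,1),(-1,-1)],[(0,1),(1,-1),(2,0),(-1,-1)],[(1,0),(-1,1),(-1,1),(0,-1)],[(0,0),(1,0),(1,0),(0,-1)]],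
  [[(0,1),(0,0),(0,0),(0,-1)],[(0,1),(0,0),(1,0),(-1,-1)],[(1,1),(-1,0),(-1,1),(0,-1)],[(0,1),(0,0),(0,0),(-1,0)]],
  [[(1,1),(0,-1),(0,0),(-1,0)],[(1,1),(-1,0),(0,0),(0,-1)],[(1,1),(0,-1),(0,1),(-1,-1)],[(1,1),(0,-1),(1,0),(0,-1)]],
  [[(0,1),(0,-1),(1,0),(0,-1)],[(1,1),(-2,0),(-1,1),(0,-1)],[(0,1),(1,-1),(1,0),(-1,-1)],[(0,1),(-1,0),(0,1),(-1,-1)]],
  [[(0,0),(0,0),(0,0),(-1,0)],[(1,0),(-1,0),(-1,1),(0,-1)],[(0,1),(1,-1),(1,-1),(-1,0)],[(1,0),(0,0),(0,0),(0,-1)]],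
  [[(0,0),(0,0),(0,-1),(1,0)],[(0,0),(0,0),(-1,0),(0,0)],[(0,1),(0,-1),(1,-1),(0,0)],[(0,1),(-1,0),(-1,0),(0,0)]],
  [[(0,0),(-1,0),(-1,0),(0,1)],[(0,0),(1,-1),(0,-1),(0,1)],[(0,0),(-1,0),(0,0),(0,0)],[(1,0),(0,-1),(0,0),(0,0)]],
  [[(0,-1),(0,0),(0,0),(1,0)],[(-1,0),(1,-1),(1,-1),(0,1)],[(0,-1),(-1,1),(-1,0),(1,0)],[(-1,0),(0,0),(0,0),(0,0)]],
  [[(-1,-1),(0,1),(-1,0),(0,1)],[(-1,-1),(1,0),(1,-1),(0,1)],[(0,-1),(-1,1),(-2,0),(1,1)],[(0,-1),(1,0),(0,-1),(0,1)]],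
  [[(0,-1),(1,0),(0,-1),(1,1)],[(-1,-1),(0,1),(0,-1),(1,1)],[(0,-1),(0,0),(-1,0),(1,1)],[(-1,0),(0,0),(0,-1),(1,1)]],
  [[(-1,0),(0,0),(0,0),(0,1)],[(0,-1),(-1,1),(-1,0),(1,1)],[(-1,-1),(1,0),(0,0),(0,1)],[(0,-1),(0,0),(0,0),(0,1)]],
  [[(0,-1),(1,0),(1,0),(0,0)],[(0,-1),(-1,1),(-1,1),(1,0)],[(-1,-1),(2,0),(1,-1),(0,1)],[(-1,-1),(0,1),(0,0),(1,0)]],
  [[(-1,0),(0,1),(0,0),(0,0)],[(0,-1),(0,1),(-1,1),(0,0)],[(-1,0),(1,0),(1,-1),(0,1)],[(0,-1),(0,1),(-1,0),(0,1)]],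
  [[(1,0),(0,0),(0,0),(0,0)],[(0,0),(1,0),(0,0),(0,0)],[(0,0),(0,0),(1,0),(0,0)],[(0,0),(0,0),(0,0),(1,0)]]]

/-- Twice the Gram matrix for `{5, 5/2, 5}`. -/
def M6 : Fin 4 → Fin 4 → ℤ × ℤ := ![![(2,0),(0,-1),(0,0),(0,0)],![(0,-1),(2,0),(1,-1),(0,0)],![(0,0),(1,-1),(2,0),(0,-1)],![(0,0),(0,0),(0,-1),(2,0)]]

theorem star6 : OnlyAcoptic (starPol [5, 5 / 2, 5]) :=
  onlyAcoptic_star (by decide +kernel) (q := 15) (by norm_num) (M := M6) (by decide +kernel)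
    (T := tab T6) (by decide +kernel)

/-- The powers of the product of the generating reflections for `{5/2, 3, 5}`. -/
def T7 : List (List (List (ℤ × ℤ))) := [
  [[(1,0),(0,0),(0,0),(0,0)],[(0,0),(1,0),(0,0),(0,0)],[(0,0),(0,0),(1,0),(0,0)],[(0,0),(0,0),(0,0),(1,0)]],
  [[(1,-1),(0,0),(1,0),(-1,0)],[(-1,1),(0,0),(0,1),(0,-1)],[(0,0),(1,0),(0,1),(0,-1)],[(0,0),(0,0),(0,1),(-1,0)]],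
  [[(2,-1),(1,0),(1,-1),(0,0)],[(-2,1),(0,1),(-1,1),(0,-1)],[(-1,1),(0,1),(0,1),(-1,-1)],[(0,0),(0,1),(1,0),(0,-1)]],
  [[(2,-1),(1,-1),(1,0),(-1,0)],[(-2,2),(-1,1),(-1,1),(0,-1)],[(-1,1),(0,1),(0,1),(0,-2)],[(1,0),(1,0),(0,1),(-1,-1)]],
  [[(1,-1),(1,0),(1,-1),(0,0)],[(-2,1),(-1,1),(-1,1),(0,-1)],[(-1,1),(0,1),(-1,1),(-1,-1)],[(0,0),(0,1),(1,0),(-1,-1)]],
  [[(1,0),(1,-1),(0,0),(0,0)],[(-1,1),(-1,1),(-1,0),(0,0)],[(-1,1),(-1,1),(0,0),(0,-1)],[(1,0),(1,0),(0,0),(0,-1)]],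
  [[(-1,0),(0,0),(0,0),(0,0)],[(0,0),(-1,0),(0,0),(0,0)],[(0,0),(0,0),(-1,0),(0,0)],[(0,0),(0,0),(0,0),(-1,0)]],
  [[(-1,1),(0,0),(-1,0),(1,0)],[(1,-1),(0,0),(0,-1),(0,1)],[(0,0),(-1,0),(0,-1),(0,1)],[(0,0),(0,0),(0,-1),(1,0)]],
  [[(-2,1),(-1,0),(-1,1),(0,0)],[(2,-1),(0,-1),(1,-1),(0,1)],[(1,-1),(0,-1),(0,-1),(1,1)],[(0,0),(0,-1),(-1,0),(0,1)]],
  [[(-2,1),(-1,1),(-1,0),(1,0)],[(2,-2),(1,-1),(1,-1),(0,1)],[(1,-1),(0,-1),(0,-1),(0,2)],[(-1,0),(-1,0),(0,-1),(1,1)]],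
  [[(-1,1),(-1,0),(-1,1),(0,0)],[(2,-1),(1,-1),(1,-1),(0,1)],[(1,-1),(0,-1),(1,-1),(1,1)],[(0,0),(0,-1),(-1,0),(1,1)]],
  [[(-1,0),(-1,1),(0,0),(0,0)],[(1,-1),(1,-1),(1,0),(0,0)],[(1,-1),(1,-1),(0,0),(0,1)],[(-1,0),(-1,0),(0,0),(0,1)]],
  [[(1,0),(0,0),(0,0),(0,0)],[(0,0),(1,0),(0,0),(0,0)],[(0,0),(0,0),(1,0),(0,0)],[(0,0),(0,0),(0,0),(1,0)]]]

/-- Twice the Gram matrix for `{5/2, 3, 5}`. -/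
def M7 : Fin 4 → Fin 4 → ℤ × ℤ := ![![(2,0),(1,-1),(0,0),(0,0)],![(1,-1),(2,0),(-1,0),(0,0)],![(0,0),(-1,0),(2,0),(0,-1)],![(0,0),(0,0),(0,-1),(2,0)]]

theorem star7 : OnlyAcoptic (starPol [5 / 2, 3, 5]) :=
  onlyAcoptic_star (by decide +kernel) (q := 12) (by norm_num) (M := M7) (by decide +kernel)
    (T := tab T7) (by decide +kernel)

/-- The powers of the product of the generating reflections for `{5, 3, 5/2}`. -/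
def T8 : List (List (List (ℤ × ℤ))) := [
  [[(1,0),(0,0),(0,0),(0,0)],[(0,0),(1,0),(0,0),(0,0)],[(0,0),(0,0),(1,0),(0,0)],[(0,0),(0,0),(0,0),(1,0)]],
  [[(0,1),(0,0),(-1,0),(-1,0)],[(0,1),(0,0),(1,-1),(1,-1)],[(0,0),(1,0),(1,-1),(1,-1)],[(0,0),(0,0),(-1,1),(-1,0)]],
  [[(1,1),(-1,0),(0,-1),(0,0)],[(1,1),(1,-1),(0,-1),(1,-1)],[(0,1),(1,-1),(1,-1),(2,-1)],[(0,0),(-1,1),(-1,0),(-1,1)]],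
  [[(1,1),(0,-1),(-1,0),(-1,0)],[(0,2),(0,-1),(0,-1),(1,-1)],[(0,1),(1,-1),(1,-1),(2,-2)],[(1,0),(-1,0),(-1,1),(-2,1)]],
  [[(0,1),(-1,0),(0,-1),(0,0)],[(1,1),(0,-1),(0,-1),(1,-1)],[(0,1),(1,-1),(0,-1),(2,-1)],[(0,0),(-1,1),(-1,0),(-2,1)]],
  [[(1,0),(0,-1),(0,0),(0,0)],[(0,1),(0,-1),(-1,0),(0,0)],[(0,1),(0,-1),(0,0),(1,-1)],[(1,0),(-1,0),(0,0),(-1,1)]],
  [[(-1,0),(0,0),(0,0),(0,0)],[(0,0),(-1,0),(0,0),(0,0)],[(0,0),(0,0),(-1,0),(0,0)],[(0,0),(0,0),(0,0),(-1,0)]],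
  [[(0,-1),(0,0),(1,0),(1,0)],[(0,-1),(0,0),(-1,1),(-1,1)],[(0,0),(-1,0),(-1,1),(-1,1)],[(0,0),(0,0),(1,-1),(1,0)]],
  [[(-1,-1),(1,0),(0,1),(0,0)],[(-1,-1),(-1,1),(0,1),(-1,1)],[(0,-1),(-1,1),(-1,1),(-2,1)],[(0,0),(1,-1),(1,0),(1,-1)]],
  [[(-1,-1),(0,1),(1,0),(1,0)],[(0,-2),(0,1),(0,1),(-1,1)],[(0,-1),(-1,1),(-1,1),(-2,2)],[(-1,0),(1,0),(1,-1),(2,-1)]],
  [[(0,-1),(1,0),(0,1),(0,0)],[(-1,-1),(0,1),(0,1),(-1,1)],[(0,-1),(-1,1),(0,1),(-2,1)],[(0,0),(1,-1),(1,0),(2,-1)]],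
  [[(-1,0),(0,1),(0,0),(0,0)],[(0,-1),(0,1),(1,0),(0,0)],[(0,-1),(0,1),(0,0),(-1,1)],[(-1,0),(1,0),(0,0),(1,-1)]],
  [[(1,0),(0,0),(0,0),(0,0)],[(0,0),(1,0),(0,0),(0,0)],[(0,0),(0,0),(1,0),(0,0)],[(0,0),(0,0),(0,0),(1,0)]]]

/-- Twice the Gram matrix for `{5, 3, 5/2}`. -/
def M8 : Fin 4 → Fin 4 → ℤ × ℤ := ![![(2,0),(0,-1),(0,0),(0,0)],![(0,-1),(2,0),(-1,0),(0,0)],![(0,0),(-1,0),(2,0),(1,-1)],![(0,0),(0,0),(1,-1),(2,0)]]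

theorem star8 : OnlyAcoptic (starPol [5, 3, 5 / 2]) :=
  onlyAcoptic_star (by decide +kernel) (q := 12) (by norm_num) (M := M8) (by decide +kernel)
    (T := tab T8) (by decide +kernel)

/-- The powers of the product of the generating reflections for `{5/2, 5, 5/2}`. -/
def T9 : List (List (List (ℤ × ℤ))) := [
  [[(1,0),(0,0),(0,0),(0,0)],[(0,0),(1,0),(0,0),(0,0)],[(0,0),(0,0),(1,0),(0,0)],[(0,0),(0,0),(0,0),(1,0)]],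
  [[(1,-1),(1,0),(1,-1),(1,-1)],[(-1,1),(0,1),(-1,0),(-1,0)],[(0,0),(0,1),(1,-1),(1,-1)],[(0,0),(0,0),(-1,1),(-1,0)]],
  [[(1,0),(0,0),(1,-1),(2,-1)],[(-1,1),(0,1),(-2,0),(-2,1)],[(1,0),(0,1),(0,-1),(1,-1)],[(0,0),(1,0),(-1,0),(-1,1)]],
  [[(1,-1),(0,0),(0,0),(1,-1)],[(-1,1),(0,0),(-1,0),(-2,1)],[(2,-1),(1,0),(0,-1),(1,-1)],[(-1,1),(0,0),(0,0),(-1,0)]],
  [[(2,-1),(1,-1),(0,0),(1,0)],[(-2,1),(-1,0),(0,0),(-1,1)],[(2,-1),(1,-1),(1,-1),(2,-1)],[(-2,1),(-1,1),(-1,0),(-1,1)]],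
  [[(1,-1),(1,-1),(1,0),(1,-1)],[(-2,1),(-2,0),(0,1),(-1,1)],[(1,-1),(0,-1),(1,0),(2,-1)],[(-1,1),(-1,0),(-1,1),(-2,1)]],
  [[(0,0),(0,0),(0,0),(1,0)],[(-1,0),(-1,0),(0,1),(-1,1)],[(1,-1),(0,-1),(0,1),(1,0)],[(-1,0),(0,0),(0,0),(-1,1)]],
  [[(0,0),(0,0),(-1,1),(-1,0)],[(0,0),(0,0),(1,0),(0,0)],[(1,-1),(1,-1),(0,1),(0,0)],[(-1,1),(-1,0),(1,0),(0,0)]],
  [[(0,0),(1,0),(-1,0),(-1,1)],[(0,0),(0,1),(1,-1),(1,-1)],[(0,0),(1,0),(0,0),(0,0)],[(-1,0),(-1,1),(0,0),(0,0)]],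
  [[(-1,1),(0,0),(0,0),(-1,0)],[(1,0),(0,1),(0,-1),(1,-1)],[(-1,1),(0,1),(-1,0),(-1,0)],[(1,0),(0,0),(0,0),(0,0)]],
  [[(-2,1),(-1,1),(-1,0),(-1,1)],[(2,-1),(1,0),(0,-1),(1,-1)],[(-1,1),(0,1),(-2,0),(-2,1)],[(1,-1),(1,0),(1,-1),(1,-1)]],
  [[(-1,1),(-1,0),(-1,1),(-2,1)],[(2,-1),(1,-1),(1,-1),(2,-1)],[(-1,1),(0,0),(-1,0),(-2,1)],[(1,0),(0,0),(1,-1),(2,-1)]],
  [[(-1,0),(0,0),(0,0),(-1,1)],[(1,-1),(0,-1),(1,0),(2,-1)],[(-2,1),(-1,0),(0,0),(-1,1)],[(1,-1),(0,0),(0,0),(1,-1)]],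
  [[(-1,1),(-1,0),(1,0),(0,0)],[(1,-1),(0,-1),(0,1),(1,0)],[(-2,1),(-2,0),(0,1),(-1,1)],[(2,-1),(1,-1),(0,0),(1,0)]],
  [[(-1,0),(-1,1),(0,0),(0,0)],[(1,-1),(1,-1),(0,1),(0,0)],[(-1,0),(-1,0),(0,1),(-1,1)],[(1,-1),(1,-1),(1,0),(1,-1)]],
  [[(1,0),(0,0),(0,0),(0,0)],[(0,0),(1,0),(0,0),(0,0)],[(0,0),(0,0),(1,0),(0,0)],[(0,0),(0,0),(0,0),(1,0)]]]

/-- Twice the Gram matrix for `{5/2, 5, 5/2}`. -/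
def M9 : Fin 4 → Fin 4 → ℤ × ℤ := ![![(2,0),(1,-1),(0,0),(0,0)],![(1,-1),(2,0),(0,-1),(0,0)],![(0,0),(0,-1),(2,0),(1,-1)],![(0,0),(0,0),(1,-1),(2,0)]]

theorem star9 : OnlyAcoptic (starPol [5 / 2, 5, 5 / 2]) :=
  onlyAcoptic_star (by decide +kernel) (q := 15) (by norm_num) (M := M9) (by decide +kernel)
    (T := tab T9) (by decide +kernel)

/-- The powers of the product of the generating reflections for `{5, 5/2, 3}`. -/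
def T10 : List (List (List (ℤ × ℤ))) := [
  [[(1,0),(0,0),(0,0),(0,0)],[(0,0),(1,0),(0,0),(0,0)],[(0,0),(0,0),(1,0),(0,0)],[(0,0),(0,0),(0,0),(1,0)]],
  [[(0,1),(-1,0),(0,0),(-1,0)],[(0,1),(1,-1),(0,0),(1,-1)],[(0,0),(-1,1),(0,0),(-1,0)],[(0,0),(0,0),(1,0),(-1,0)]],
  [[(1,0),(-1,0),(-1,0),(0,0)],[(0,1),(2,-2),(1,-1),(1,-1)],[(1,0),(-2,1),(-1,0),(-1,1)],[(0,0),(-1,1),(-1,0),(0,0)]],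
  [[(0,0),(-1,0),(0,0),(-1,1)],[(-1,1),(2,-2),(1,-1),(2,-1)],[(1,0),(-3,1),(-1,1),(-2,1)],[(1,0),(-1,0),(0,0),(-1,1)]],
  [[(0,-1),(-1,1),(-1,1),(0,0)],[(-1,0),(3,-2),(2,-1),(2,-1)],[(1,-1),(-3,2),(-2,1),(-2,1)],[(0,0),(-2,1),(-1,1),(-1,0)]],
  [[(0,-1),(0,1),(0,0),(-1,1)],[(-2,0),(3,-1),(2,-1),(2,-1)],[(1,-1),(-3,2),(-2,1),(-2,2)],[(1,-1),(-1,1),(-1,0),(-1,1)]],
  [[(0,0),(-1,1),(-1,1),(0,0)],[(-1,0),(3,-1),(2,-1),(2,-1)],[(1,-1),(-3,2),(-2,2),(-2,1)],[(0,0),(-2,1),(-1,1),(-1,1)]],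
  [[(1,0),(0,0),(0,0),(-1,0)],[(-1,1),(2,-1),(2,-1),(1,-1)],[(1,-1),(-2,2),(-2,1),(-2,1)],[(1,-1),(-1,1),(-1,1),(-1,0)]],
  [[(0,1),(-1,0),(-1,0),(0,0)],[(0,1),(1,-1),(1,-1),(1,-1)],[(1,0),(-2,1),(-2,1),(-1,1)],[(0,0),(-1,1),(-1,0),(-1,1)]],
  [[(1,0),(0,-1),(0,0),(0,0)],[(0,1),(0,-1),(1,-1),(0,0)],[(1,0),(-1,0),(-1,1),(-1,0)],[(1,0),(-1,0),(-1,1),(0,0)]],
  [[(-1,0),(0,0),(0,0),(0,0)],[(0,0),(-1,0),(0,0),(0,0)],[(0,0),(0,0),(-1,0),(0,0)],[(0,0),(0,0),(0,0),(-1,0)]],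
  [[(0,-1),(1,0),(0,0),(1,0)],[(0,-1),(-1,1),(0,0),(-1,1)],[(0,0),(1,-1),(0,0),(1,0)],[(0,0),(0,0),(-1,0),(1,0)]],
  [[(-1,0),(1,0),(1,0),(0,0)],[(0,-1),(-2,2),(-1,1),(-1,1)],[(-1,0),(2,-1),(1,0),(1,-1)],[(0,0),(1,-1),(1,0),(0,0)]],
  [[(0,0),(1,0),(0,0),(1,-1)],[(1,-1),(-2,2),(-1,1),(-2,1)],[(-1,0),(3,-1),(1,-1),(2,-1)],[(-1,0),(1,0),(0,0),(1,-1)]],
  [[(0,1),(1,-1),(1,-1),(0,0)],[(1,0),(-3,2),(-2,1),(-2,1)],[(-1,1),(3,-2),(2,-1),(2,-1)],[(0,0),(2,-1),(1,-1),(1,0)]],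
  [[(0,1),(0,-1),(0,0),(1,-1)],[(2,0),(-3,1),(-2,1),(-2,1)],[(-1,1),(3,-2),(2,-1),(2,-2)],[(-1,1),(1,-1),(1,0),(1,-1)]],
  [[(0,0),(1,-1),(1,-1),(0,0)],[(1,0),(-3,1),(-2,1),(-2,1)],[(-1,1),(3,-2),(2,-2),(2,-1)],[(0,0),(2,-1),(1,-1),(1,-1)]],
  [[(-1,0),(0,0),(0,0),(1,0)],[(1,-1),(-2,1),(-2,1),(-1,1)],[(-1,1),(2,-2),(2,-1),(2,-1)],[(-1,1),(1,-1),(1,-1),(1,0)]],
  [[(0,-1),(1,0),(1,0),(0,0)],[(0,-1),(-1,1),(-1,1),(-1,1)],[(-1,0),(2,-1),(2,-1),(1,-1)],[(0,0),(1,-1),(1,0),(1,-1)]],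
  [[(-1,0),(0,1),(0,0),(0,0)],[(0,-1),(0,1),(-1,1),(0,0)],[(-1,0),(1,0),(1,-1),(1,0)],[(-1,0),(1,0),(1,-1),(0,0)]],
  [[(1,0),(0,0),(0,0),(0,0)],[(0,0),(1,0),(0,0),(0,0)],[(0,0),(0,0),(1,0),(0,0)],[(0,0),(0,0),(0,0),(1,0)]]]

/-- Twice the Gram matrix for `{5, 5/2, 3}`. -/
def M10 : Fin 4 → Fin 4 → ℤ × ℤ := ![![(2,0),(0,-1),(0,0),(0,0)],![(0,-1),(2,0),(1,-1),(0,0)],![(0,0),(1,-1),(2,0),(-1,0)],![(0,0),(0,0),(-1,0),(2,0)]]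

theorem star10 : OnlyAcoptic (starPol [5, 5 / 2, 3]) :=
  onlyAcoptic_star (by decide +kernel) (q := 20) (by norm_num) (M := M10) (by decide +kernel)
    (T := tab T10) (by decide +kernel)

/-- The powers of the product of the generating reflections for `{3, 5/2, 5}`. -/
def T11 : List (List (List (ℤ × ℤ))) := [
  [[(1,0),(0,0),(0,0),(0,0)],[(0,0),(1,0),(0,0),(0,0)],[(0,0),(0,0),(1,0),(0,0)],[(0,0),(0,0),(0,0),(1,0)]],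
  [[(0,0),(1,-1),(1,0),(-1,0)],[(1,0),(1,-1),(1,0),(-1,0)],[(0,0),(-1,1),(0,1),(0,-1)],[(0,0),(0,0),(0,1),(-1,0)]],
  [[(1,-1),(1,0),(1,-1),(0,0)],[(1,-1),(2,-1),(2,-1),(-1,0)],[(-1,1),(-1,1),(-1,1),(0,-1)],[(0,0),(1,0),(1,0),(0,-1)]],
  [[(1,0),(1,-1),(1,-1),(-1,1)],[(2,-1),(2,-1),(2,-2),(-1,1)],[(-1,1),(-2,1),(-2,1),(1,-1)],[(1,0),(0,0),(0,0),(-1,0)]],
  [[(1,-1),(1,-1),(2,-1),(0,0)],[(2,-1),(2,-2),(3,-2),(-1,1)],[(-2,1),(-2,1),(-3,1),(1,0)],[(0,0),(1,-1),(1,-1),(0,0)]],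
  [[(1,-1),(1,0),(1,-1),(-1,1)],[(2,-2),(2,-1),(3,-2),(-1,1)],[(-2,1),(-2,1),(-3,1),(2,0)],[(1,-1),(0,0),(0,-1),(0,1)]],
  [[(1,0),(1,-1),(2,-1),(0,0)],[(2,-1),(2,-1),(3,-2),(-1,1)],[(-2,1),(-2,1),(-3,2),(1,0)],[(0,0),(1,-1),(1,-1),(0,1)]],
  [[(1,-1),(0,0),(1,0),(-1,0)],[(2,-1),(1,-1),(3,-1),(-1,0)],[(-2,1),(-1,1),(-2,2),(1,-1)],[(1,-1),(0,0),(1,0),(0,0)]],
  [[(0,0),(1,0),(1,-1),(0,0)],[(1,-1),(1,0),(2,-1),(-1,0)],[(-1,1),(-1,1),(-2,2),(0,-1)],[(0,0),(1,0),(1,0),(-1,0)]],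
  [[(1,0),(-1,0),(0,0),(0,0)],[(1,0),(0,0),(1,-1),(0,0)],[(-1,1),(0,0),(-1,1),(0,-1)],[(1,0),(0,0),(1,0),(0,-1)]],
  [[(-1,0),(0,0),(0,0),(0,0)],[(0,0),(-1,0),(0,0),(0,0)],[(0,0),(0,0),(-1,0),(0,0)],[(0,0),(0,0),(0,0),(-1,0)]],
  [[(0,0),(-1,1),(-1,0),(1,0)],[(-1,0),(-1,1),(-1,0),(1,0)],[(0,0),(1,-1),(0,-1),(0,1)],[(0,0),(0,0),(0,-1),(1,0)]],
  [[(-1,1),(-1,0),(-1,1),(0,0)],[(-1,1),(-2,1),(-2,1),(1,0)],[(1,-1),(1,-1),(1,-1),(0,1)],[(0,0),(-1,0),(-1,0),(0,1)]],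
  [[(-1,0),(-1,1),(-1,1),(1,-1)],[(-2,1),(-2,1),(-2,2),(1,-1)],[(1,-1),(2,-1),(2,-1),(-1,1)],[(-1,0),(0,0),(0,0),(1,0)]],
  [[(-1,1),(-1,1),(-2,1),(0,0)],[(-2,1),(-2,2),(-3,2),(1,-1)],[(2,-1),(2,-1),(3,-1),(-1,0)],[(0,0),(-1,1),(-1,1),(0,0)]],
  [[(-1,1),(-1,0),(-1,1),(1,-1)],[(-2,2),(-2,1),(-3,2),(1,-1)],[(2,-1),(2,-1),(3,-1),(-2,0)],[(-1,1),(0,0),(0,1),(0,-1)]],
  [[(-1,0),(-1,1),(-2,1),(0,0)],[(-2,1),(-2,1),(-3,2),(1,-1)],[(2,-1),(2,-1),(3,-2),(-1,0)],[(0,0),(-1,1),(-1,1),(0,-1)]],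
  [[(-1,1),(0,0),(-1,0),(1,0)],[(-2,1),(-1,1),(-3,1),(1,0)],[(2,-1),(1,-1),(2,-2),(-1,1)],[(-1,1),(0,0),(-1,0),(0,0)]],
  [[(0,0),(-1,0),(-1,1),(0,0)],[(-1,1),(-1,0),(-2,1),(1,0)],[(1,-1),(1,-1),(2,-2),(0,1)],[(0,0),(-1,0),(-1,0),(1,0)]],
  [[(-1,0),(1,0),(0,0),(0,0)],[(-1,0),(0,0),(-1,1),(0,0)],[(1,-1),(0,0),(1,-1),(0,1)],[(-1,0),(0,0),(-1,0),(0,1)]],
  [[(1,0),(0,0),(0,0),(0,0)],[(0,0),(1,0),(0,0),(0,0)],[(0,0),(0,0),(1,0),(0,0)],[(0,0),(0,0),(0,0),(1,0)]]]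

/-- Twice the Gram matrix for `{3, 5/2, 5}`. -/
def M11 : Fin 4 → Fin 4 → ℤ × ℤ := ![![(2,0),(-1,0),(0,0),(0,0)],![(-1,0),(2,0),(1,-1),(0,0)],![(0,0),(1,-1),(2,0),(0,-1)],![(0,0),(0,0),(0,-1),(2,0)]]

theorem star11 : OnlyAcoptic (starPol [3, 5 / 2, 5]) :=
  onlyAcoptic_star (by decide +kernel) (q := 20) (by norm_num) (M := M11) (by decide +kernel)
    (T := tab T11) (by decide +kernel)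

/-- The powers of the product of the generating reflections for `{3, 3, 5/2}`. -/
def T12 : List (List (List (ℤ × ℤ))) := [
  [[(1,0),(0,0),(0,0),(0,0)],[(0,0),(1,0),(0,0),(0,0)],[(0,0),(0,0),(1,0),(0,0)],[(0,0),(0,0),(0,0),(1,0)]],
  [[(0,0),(0,0),(1,-1),(1,-1)],[(1,0),(0,0),(1,-1),(1,-1)],[(0,0),(1,0),(1,-1),(1,-1)],[(0,0),(0,0),(-1,1),(-1,0)]],
  [[(0,0),(1,-1),(0,0),(1,0)],[(0,0),(1,-1),(1,-1),(2,-1)],[(1,0),(1,-1),(1,-1),(2,-1)],[(0,0),(-1,1),(-1,0),(-1,1)]],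
  [[(1,-1),(0,0),(1,0),(1,-1)],[(1,-1),(1,-1),(1,0),(2,-1)],[(1,-1),(1,-1),(2,-1),(3,-2)],[(-1,1),(-1,0),(-1,1),(-2,1)]],
  [[(0,0),(1,0),(1,-1),(2,-1)],[(1,-1),(1,0),(2,-1),(3,-2)],[(1,-1),(2,-1),(2,-1),(4,-2)],[(-1,0),(-1,1),(-2,1),(-3,2)]],
  [[(1,0),(1,-1),(0,0),(1,-1)],[(1,0),(2,-1),(1,-1),(3,-2)],[(2,-1),(2,-1),(2,-1),(4,-3)],[(-1,1),(-2,1),(-1,1),(-3,2)]],
  [[(1,-1),(0,0),(1,-1),(2,-1)],[(2,-1),(1,-1),(1,-1),(3,-2)],[(2,-1),(2,-1),(2,-2),(5,-3)],[(-2,1),(-1,1),(-2,1),(-4,2)]],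
  [[(0,0),(1,-1),(1,0),(2,-1)],[(1,-1),(1,-1),(2,-1),(4,-2)],[(2,-1),(2,-2),(2,-1),(5,-3)],[(-1,1),(-2,1),(-2,1),(-4,3)]],
  [[(1,-1),(1,0),(0,0),(1,-1)],[(1,-1),(2,-1),(1,0),(3,-2)],[(2,-2),(2,-1),(2,-1),(5,-3)],[(-2,1),(-2,1),(-1,1),(-4,2)]],
  [[(1,0),(0,0),(1,-1),(2,-1)],[(2,-1),(1,0),(1,-1),(3,-2)],[(2,-1),(2,-1),(2,-1),(5,-3)],[(-2,1),(-1,1),(-2,1),(-4,3)]],
  [[(0,0),(1,-1),(0,0),(1,-1)],[(1,0),(1,-1),(1,-1),(3,-2)],[(2,-1),(2,-1),(1,-1),(4,-3)],[(-1,1),(-2,1),(-1,1),(-4,2)]],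
  [[(1,-1),(0,0),(0,0),(1,0)],[(1,-1),(1,-1),(0,0),(2,-1)],[(2,-1),(1,-1),(1,-1),(4,-2)],[(-2,1),(-1,1),(-1,0),(-3,2)]],
  [[(0,0),(0,0),(1,0),(1,-1)],[(1,-1),(0,0),(1,0),(2,-1)],[(1,-1),(1,-1),(1,0),(3,-2)],[(-1,1),(-1,0),(-1,1),(-3,2)]],
  [[(0,0),(1,0),(-1,0),(0,0)],[(0,0),(1,0),(0,0),(1,-1)],[(1,-1),(1,0),(0,0),(2,-1)],[(-1,0),(-1,1),(0,0),(-2,1)]],
  [[(1,0),(-1,0),(0,0),(0,0)],[(1,0),(0,0),(-1,0),(0,0)],[(1,0),(0,0),(0,0),(1,-1)],[(-1,1),(0,0),(0,0),(-1,1)]],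
  [[(-1,0),(0,0),(0,0),(0,0)],[(0,0),(-1,0),(0,0),(0,0)],[(0,0),(0,0),(-1,0),(0,0)],[(0,0),(0,0),(0,0),(-1,0)]],
  [[(0,0),(0,0),(-1,1),(-1,1)],[(-1,0),(0,0),(-1,1),(-1,1)],[(0,0),(-1,0),(-1,1),(-1,1)],[(0,0),(0,0),(1,-1),(1,0)]],
  [[(0,0),(-1,1),(0,0),(-1,0)],[(0,0),(-1,1),(-1,1),(-2,1)],[(-1,0),(-1,1),(-1,1),(-2,1)],[(0,0),(1,-1),(1,0),(1,-1)]],
  [[(-1,1),(0,0),(-1,0),(-1,1)],[(-1,1),(-1,1),(-1,0),(-2,1)],[(-1,1),(-1,1),(-2,1),(-3,2)],[(1,-1),(1,0),(1,-1),(2,-1)]],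
  [[(0,0),(-1,0),(-1,1),(-2,1)],[(-1,1),(-1,0),(-2,1),(-3,2)],[(-1,1),(-2,1),(-2,1),(-4,2)],[(1,0),(1,-1),(2,-1),(3,-2)]],
  [[(-1,0),(-1,1),(0,0),(-1,1)],[(-1,0),(-2,1),(-1,1),(-3,2)],[(-2,1),(-2,1),(-2,1),(-4,3)],[(1,-1),(2,-1),(1,-1),(3,-2)]],
  [[(-1,1),(0,0),(-1,1),(-2,1)],[(-2,1),(-1,1),(-1,1),(-3,2)],[(-2,1),(-2,1),(-2,2),(-5,3)],[(2,-1),(1,-1),(2,-1),(4,-2)]],
  [[(0,0),(-1,1),(-1,0),(-2,1)],[(-1,1),(-1,1),(-2,1),(-4,2)],[(-2,1),(-2,2),(-2,1),(-5,3)],[(1,-1),(2,-1),(2,-1),(4,-3)]],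
  [[(-1,1),(-1,0),(0,0),(-1,1)],[(-1,1),(-2,1),(-1,0),(-3,2)],[(-2,2),(-2,1),(-2,1),(-5,3)],[(2,-1),(2,-1),(1,-1),(4,-2)]],
  [[(-1,0),(0,0),(-1,1),(-2,1)],[(-2,1),(-1,0),(-1,1),(-3,2)],[(-2,1),(-2,1),(-2,1),(-5,3)],[(2,-1),(1,-1),(2,-1),(4,-3)]],
  [[(0,0),(-1,1),(0,0),(-1,1)],[(-1,0),(-1,1),(-1,1),(-3,2)],[(-2,1),(-2,1),(-1,1),(-4,3)],[(1,-1),(2,-1),(1,-1),(4,-2)]],
  [[(-1,1),(0,0),(0,0),(-1,0)],[(-1,1),(-1,1),(0,0),(-2,1)],[(-2,1),(-1,1),(-1,1),(-4,2)],[(2,-1),(1,-1),(1,0),(3,-2)]],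
  [[(0,0),(0,0),(-1,0),(-1,1)],[(-1,1),(0,0),(-1,0),(-2,1)],[(-1,1),(-1,1),(-1,0),(-3,2)],[(1,-1),(1,0),(1,-1),(3,-2)]],
  [[(0,0),(-1,0),(1,0),(0,0)],[(0,0),(-1,0),(0,0),(-1,1)],[(-1,1),(-1,0),(0,0),(-2,1)],[(1,0),(1,-1),(0,0),(2,-1)]],
  [[(-1,0),(1,0),(0,0),(0,0)],[(-1,0),(0,0),(1,0),(0,0)],[(-1,0),(0,0),(0,0),(-1,1)],[(1,-1),(0,0),(0,0),(1,-1)]],
  [[(1,0),(0,0),(0,0),(0,0)],[(0,0),(1,0),(0,0),(0,0)],[(0,0),(0,0),(1,0),(0,0)],[(0,0),(0,0),(0,0),(1,0)]]]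

/-- Twice the Gram matrix for `{3, 3, 5/2}`. -/
def M12 : Fin 4 → Fin 4 → ℤ × ℤ := ![![(2,0),(-1,0),(0,0),(0,0)],![(-1,0),(2,0),(-1,0),(0,0)],![(0,0),(-1,0),(2,0),(1,-1)],![(0,0),(0,0),(1,-1),(2,0)]]

theorem star12 : OnlyAcoptic (starPol [3, 3, 5 / 2]) :=
  onlyAcoptic_star (by decide +kernel) (q := 30) (by norm_num) (M := M12) (by decide +kernel)
    (T := tab T12) (by decide +kernel)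

/-- The powers of the product of the generating reflections for `{5/2, 3, 3}`. -/
def T13 : List (List (List (ℤ × ℤ))) := [
  [[(1,0),(0,0),(0,0),(0,0)],[(0,0),(1,0),(0,0),(0,0)],[(0,0),(0,0),(1,0),(0,0)],[(0,0),(0,0),(0,0),(1,0)]],
  [[(1,-1),(0,0),(0,0),(1,-1)],[(-1,1),(0,0),(0,0),(-1,0)],[(0,0),(1,0),(0,0),(-1,0)],[(0,0),(0,0),(1,0),(-1,0)]],
  [[(2,-1),(0,0),(1,-1),(1,0)],[(-2,1),(0,0),(-1,0),(-1,1)],[(-1,1),(0,0),(-1,0),(0,0)],[(0,0),(1,0),(-1,0),(0,0)]],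
  [[(3,-2),(1,-1),(1,0),(1,-1)],[(-3,2),(-1,0),(-1,1),(-1,1)],[(-2,1),(-1,0),(0,0),(-1,1)],[(-1,1),(-1,0),(0,0),(0,0)]],
  [[(3,-2),(1,0),(1,-1),(2,-1)],[(-4,2),(-1,1),(-1,1),(-2,1)],[(-2,1),(0,0),(-1,1),(-1,1)],[(-1,0),(0,0),(0,0),(-1,1)]],
  [[(4,-2),(1,-1),(2,-1),(1,-1)],[(-4,3),(-1,1),(-2,1),(-2,1)],[(-3,2),(-1,1),(-1,1),(-1,0)],[(-1,1),(0,0),(-1,1),(0,0)]],
  [[(4,-3),(2,-1),(1,-1),(2,-1)],[(-5,3),(-2,1),(-2,1),(-2,1)],[(-3,2),(-1,1),(-1,0),(-2,1)],[(-2,1),(-1,1),(0,0),(-1,0)]],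
  [[(4,-2),(1,-1),(2,-1),(2,-1)],[(-5,3),(-2,1),(-2,1),(-2,2)],[(-3,2),(-1,0),(-2,1),(-1,1)],[(-1,1),(0,0),(-1,0),(-1,1)]],
  [[(4,-3),(2,-1),(2,-1),(1,-1)],[(-5,3),(-2,1),(-2,2),(-2,1)],[(-4,2),(-2,1),(-1,1),(-1,1)],[(-2,1),(-1,0),(-1,1),(0,0)]],
  [[(4,-2),(2,-1),(1,-1),(2,-1)],[(-5,3),(-2,2),(-2,1),(-2,1)],[(-3,2),(-1,1),(-1,1),(-2,1)],[(-2,1),(-1,1),(0,0),(-1,1)]],
  [[(3,-2),(1,-1),(2,-1),(1,-1)],[(-4,3),(-2,1),(-2,1),(-2,1)],[(-3,2),(-1,1),(-2,1),(-1,0)],[(-1,1),(0,0),(-1,1),(-1,0)]],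
  [[(3,-2),(2,-1),(1,-1),(1,0)],[(-4,2),(-2,1),(-2,1),(-1,1)],[(-3,2),(-2,1),(-1,0),(-1,1)],[(-2,1),(-1,1),(-1,0),(0,0)]],
  [[(2,-1),(1,-1),(1,0),(1,-1)],[(-3,2),(-2,1),(-1,1),(-1,1)],[(-2,1),(-1,0),(-1,1),(-1,1)],[(-1,1),(-1,0),(0,0),(-1,1)]],
  [[(1,-1),(1,0),(1,-1),(0,0)],[(-2,1),(-1,1),(-1,1),(-1,0)],[(-2,1),(-1,1),(-1,1),(0,0)],[(-1,0),(0,0),(-1,1),(0,0)]],
  [[(1,0),(1,-1),(0,0),(0,0)],[(-1,1),(-1,1),(-1,0),(0,0)],[(-1,1),(-1,1),(0,0),(-1,0)],[(-1,1),(-1,1),(0,0),(0,0)]],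
  [[(-1,0),(0,0),(0,0),(0,0)],[(0,0),(-1,0),(0,0),(0,0)],[(0,0),(0,0),(-1,0),(0,0)],[(0,0),(0,0),(0,0),(-1,0)]],
  [[(-1,1),(0,0),(0,0),(-1,1)],[(1,-1),(0,0),(0,0),(1,0)],[(0,0),(-1,0),(0,0),(1,0)],[(0,0),(0,0),(-1,0),(1,0)]],
  [[(-2,1),(0,0),(-1,1),(-1,0)],[(2,-1),(0,0),(1,0),(1,-1)],[(1,-1),(0,0),(1,0),(0,0)],[(0,0),(-1,0),(1,0),(0,0)]],
  [[(-3,2),(-1,1),(-1,0),(-1,1)],[(3,-2),(1,0),(1,-1),(1,-1)],[(2,-1),(1,0),(0,0),(1,-1)],[(1,-1),(1,0),(0,0),(0,0)]],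
  [[(-3,2),(-1,0),(-1,1),(-2,1)],[(4,-2),(1,-1),(1,-1),(2,-1)],[(2,-1),(0,0),(1,-1),(1,-1)],[(1,0),(0,0),(0,0),(1,-1)]],
  [[(-4,2),(-1,1),(-2,1),(-1,1)],[(4,-3),(1,-1),(2,-1),(2,-1)],[(3,-2),(1,-1),(1,-1),(1,0)],[(1,-1),(0,0),(1,-1),(0,0)]],
  [[(-4,3),(-2,1),(-1,1),(-2,1)],[(5,-3),(2,-1),(2,-1),(2,-1)],[(3,-2),(1,-1),(1,0),(2,-1)],[(2,-1),(1,-1),(0,0),(1,0)]],
  [[(-4,2),(-1,1),(-2,1),(-2,1)],[(5,-3),(2,-1),(2,-1),(2,-2)],[(3,-2),(1,0),(2,-1),(1,-1)],[(1,-1),(0,0),(1,0),(1,-1)]],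
  [[(-4,3),(-2,1),(-2,1),(-1,1)],[(5,-3),(2,-1),(2,-2),(2,-1)],[(4,-2),(2,-1),(1,-1),(1,-1)],[(2,-1),(1,0),(1,-1),(0,0)]],
  [[(-4,2),(-2,1),(-1,1),(-2,1)],[(5,-3),(2,-2),(2,-1),(2,-1)],[(3,-2),(1,-1),(1,-1),(2,-1)],[(2,-1),(1,-1),(0,0),(1,-1)]],
  [[(-3,2),(-1,1),(-2,1),(-1,1)],[(4,-3),(2,-1),(2,-1),(2,-1)],[(3,-2),(1,-1),(2,-1),(1,0)],[(1,-1),(0,0),(1,-1),(1,0)]],
  [[(-3,2),(-2,1),(-1,1),(-1,0)],[(4,-2),(2,-1),(2,-1),(1,-1)],[(3,-2),(2,-1),(1,0),(1,-1)],[(2,-1),(1,-1),(1,0),(0,0)]],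
  [[(-2,1),(-1,1),(-1,0),(-1,1)],[(3,-2),(2,-1),(1,-1),(1,-1)],[(2,-1),(1,0),(1,-1),(1,-1)],[(1,-1),(1,0),(0,0),(1,-1)]],
  [[(-1,1),(-1,0),(-1,1),(0,0)],[(2,-1),(1,-1),(1,-1),(1,0)],[(2,-1),(1,-1),(1,-1),(0,0)],[(1,0),(0,0),(1,-1),(0,0)]],
  [[(-1,0),(-1,1),(0,0),(0,0)],[(1,-1),(1,-1),(1,0),(0,0)],[(1,-1),(1,-1),(0,0),(1,0)],[(1,-1),(1,-1),(0,0),(0,0)]],
  [[(1,0),(0,0),(0,0),(0,0)],[(0,0),(1,0),(0,0),(0,0)],[(0,0),(0,0),(1,0),(0,0)],[(0,0),(0,0),(0,0),(1,0)]]]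

/-- Twice the Gram matrix for `{5/2, 3, 3}`. -/
def M13 : Fin 4 → Fin 4 → ℤ × ℤ := ![![(2,0),(1,-1),(0,0),(0,0)],![(1,-1),(2,0),(-1,0),(0,0)],![(0,0),(-1,0),(2,0),(-1,0)],![(0,0),(0,0),(-1,0),(2,0)]]

theorem star13 : OnlyAcoptic (starPol [5 / 2, 3, 3]) :=
  onlyAcoptic_star (by decide +kernel) (q := 30) (by norm_num) (M := M13) (by decide +kernel)
    (T := tab T13) (by decide +kernel)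

end Pool.Agent.H20.Petrie
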