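import Mathlib
import Pool.Agent.H20.Petrie.Refl

/-!
# Star polygons
-/

namespace Pool.Agent.H20.Petrie

open Matrix Real

section

variable (q : ℚ)

lemma cox_poly (v : Fin 2 → ℝ) :
    cox (stringForm_gram [q]) v 0 = ((2 * cos (π / q)) ^ 2 - 1) * v 0 - 2 * cos (π / q) * v 1 ∧
    cox (stringForm_gram [q]) v 1 = 2 * cos (π / q) * v 0 - v 1 := by
  have h00 : gram [q] 0 0 = 1 := if_pos rfl
  have h11 : gram [q] 1 1 = 1 := if_pos rfl
  have h01 : gram [q] 0 1 = - cos (π / q) := rfl
  have h10 : gram [q] 1 0 = - cos (π / q) := rfl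
  have hc : cox (stringForm_gram [q]) v = reflMap (gram [q]) 0 (reflMap (gram [q]) 1 v) := by
    change (((List.finRange 2).map (gen (stringForm_gram [q]))).prod).1 v = _
    rw [show List.finRange 2 = [0, 1] from rfl, List.map_cons, List.map_cons, List.map_nil,
      List.prod_cons, List.prod_cons, List.prod_nil, mul_one]
    rfl
  have hmv : ∀ (w : Fin 2 → ℝ) (i : Fin 2), ((gram [q] : Matrix (Fin 2) (Fin 2) ℝ) *ᵥ w) i =
      gram [q] i 0 * w 0 + gram [q] i 1 * w 1 := by
    intro w i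
    exact Fin.sum_univ_two (fun k : Fin 2 => (gram [q] : Matrix (Fin 2) (Fin 2) ℝ) i k * w k)
  have w0 : reflMap (gram [q]) 1 v 0 = v 0 := 
    reflMap_other (show (0 : Fin 2) ≠ 1 from by decide) v
  have w1 : reflMap (gram [q]) 1 v 1 = 2 * cos (π / q) * v 0 - v 1 := by
    rw [reflMap_self]
    erw [hmv]
    rw [h10, h11]
    ring
  rw [hc]
  constructor
  · rw [reflMap_self]
    erw [hmv]
    rw [h00, h01, w0, w1]
    ring
  · have h := reflMap_other (B := gram [q]) (i := 0) (k := 1)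
      (show (1 : Fin 2) ≠ 0 from by decide) (reflMap (gram [q]) 1 v)
    rw [h, w1]

lemma cox_poly_pow (c : ℕ) : ∀ v : Fin 2 → ℝ,
    sin (π / q) * (cox (stringForm_gram [q]))^[c] v 0 =
      sin ((2 * c + 1) * (π / q)) * v 0 - sin (2 * c * (π / q)) * v 1 ∧
    sin (π / q) * (cox (stringForm_gram [q]))^[c] v 1 =
      sin (2 * c * (π / q)) * v 0 - sin ((2 * c - 1) * (π / q)) * v 1 := by
  set θ := π / q with hθ
  induction c with
  | zero =>
    intro v
    constructor
    · simp
    · simp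
  | succ c ih =>
    intro v
    obtain ⟨h1, h2⟩ := ih (cox (stringForm_gram [q]) v)
    obtain ⟨h3, h4⟩ := cox_poly q v
    rw [← hθ] at h3 h4
    rw [Function.iterate_succ_apply, h1, h2, h3, h4]
    have e1 : (2 * ((c + 1 : ℕ) : ℝ) + 1) * θ = (2 * c + 1) * θ + 2 * θ := by push_cast; ring
    have e2 : 2 * ((c + 1 : ℕ) : ℝ) * θ = (2 * c + 1) * θ + θ := by push_cast; ring
    have e3 : 2 * (c : ℝ) * θ = (2 * c + 1) * θ - θ := by ring
    have e4 : (2 * ((c + 1 : ℕ) : ℝ) - 1) * θ = (2 * c + 1) * θ := by push_cast; ring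
    have e5 : (2 * (c : ℝ) - 1) * θ = (2 * c + 1) * θ - 2 * θ := by ring
    rw [e1, e2, e3, e4, e5]
    set x := (2 * (c : ℝ) + 1) * θ
    rw [sin_add, sin_add, sin_sub, sin_sub, sin_two_mul, cos_two_mul]
    have hs := sin_sq_add_cos_sq θ
    constructor
    · linear_combination (0 : ℝ) * hs
    · linear_combination (0 : ℝ) * hs

/-- Star polygons. -/
theorem onlyAcoptic_starPolygon (hq : 2 < q) : OnlyAcoptic (starPol [q]) := by
  have hq0 : (0 : ℚ) < q := by linarith
  have hqR : (2 : ℝ) < q := by exact_mod_cast hq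
  have hpi := Real.pi_pos
  set θ := π / (q : ℝ) with hθ
  have hsin : 0 < sin θ := by
    apply sin_pos_of_pos_of_lt_pi
    · positivity
    · rw [hθ, div_lt_iff₀ (by linarith)]
      nlinarith
  set N := q.num.toNat with hN
  have hnum : (0 : ℤ) < q.num := Rat.num_pos.2 hq0
  have hNnum : (N : ℤ) = q.num := by omega
  have hNpos : 0 < N := by omega
  have hqN : (q : ℝ) * q.den = N := by
    have h1 : q * q.den = q.num := Rat.mul_den_eq_num q
    have h2 : (q : ℝ) * q.den = q.num := by exact_mod_cast h1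
    rw [h2, ← hNnum]
    simp
  have hθN : (N : ℝ) * θ = q.den * π := by
    rw [hθ, ← hqN]
    field_simp
  have hcop : Nat.Coprime N q.den := by
    have := q.reduced
    rw [← hNnum] at this
    simpa using this
  -- the key fact
  have hkey : ∀ c, 0 < c → c < N → sin (2 * c * θ) = 0 → ∀ k : ℤ, (k : ℝ) * π = 2 * c * θ →
      ((-1 : ℝ) ^ k) = 1 → False := by
    intro c hc hcN _ k hk h1
    have heven : Even k := by
      by_contra hodd
      rw [Int.not_even_iff_odd] at hodd
      rw [hodd.neg_one_zpow] at h1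
      norm_num at h1
    obtain ⟨l, rfl⟩ := heven
    have h2 : ((l * N : ℤ) : ℝ) = ((c * q.den : ℤ) : ℝ) := by
      have h3 : ((l + l : ℤ) : ℝ) * π * N = 2 * c * (N * θ) := by rw [hk]; ring
      rw [hθN] at h3
      push_cast at h3 ⊢
      have h4 : (2 * π) * ((l : ℝ) * N) = (2 * π) * (c * q.den) := by linear_combination h3
      exact mul_left_cancel₀ (by positivity) h4
    have h3 : l * (N : ℤ) = c * q.den := by exact_mod_cast h2
    have h4 : (N : ℤ) ∣ ((c * q.den : ℕ) : ℤ) := ⟨l, by push_cast; rw [← h3]; ring⟩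
    rw [Int.natCast_dvd_natCast] at h4
    have h5 := hcop.dvd_of_dvd_mul_right h4
    exact absurd (Nat.le_of_dvd hc h5) (by omega)
  apply onlyAcoptic_reflPol (stringForm_gram [q]) hNpos
  · intro v
    obtain ⟨h1, h2⟩ := cox_poly_pow q N v
    rw [← hθ] at h1 h2
    have e1 : 2 * (N : ℝ) * θ = 0 + (q.den : ℕ) * (2 * π) := by linear_combination 2 * hθN
    have e2 : (2 * (N : ℝ) + 1) * θ = θ + (q.den : ℕ) * (2 * π) := by linear_combination 2 * hθN
    have e3 : (2 * (N : ℝ) - 1) * θ = -θ + (q.den : ℕ) * (2 * π) := by linear_combination 2 * hθN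
    rw [e1, e2, sin_add_nat_mul_two_pi, sin_add_nat_mul_two_pi] at h1
    rw [e1, e3, sin_add_nat_mul_two_pi, sin_add_nat_mul_two_pi, sin_neg] at h2
    rw [sin_zero] at h1 h2
    funext i
    apply mul_left_cancel₀ hsin.ne'
    refine Fin.cases ?_ (fun i => Fin.cases ?_ (fun j => j.elim0) i) i
    · rw [h1]; ring
    · change sin θ * (cox (stringForm_gram [q]))^[N] v 1 = sin θ * v 1
      rw [h2]; ring
  · intro c hc hcN r
    by_contra hcon
    push Not at hcon
    have g0 := cox_poly_pow q c (Pi.single 0 1)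
    have g1 := cox_poly_pow q c (Pi.single 1 1)
    rw [← hθ] at g0 g1
    have v00 : (Pi.single 0 1 : Fin 2 → ℝ) 0 = 1 := rfl
    have v01 : (Pi.single 0 1 : Fin 2 → ℝ) 1 = 0 := rfl
    have v10 : (Pi.single 1 1 : Fin 2 → ℝ) 0 = 0 := rfl
    have v11 : (Pi.single 1 1 : Fin 2 → ℝ) 1 = 1 := rfl
    rw [v00, v01] at g0
    rw [v10, v11] at g1
    have e0 := hcon (Pi.single 0 1 : Fin 2 → ℝ)
    have e1 := hcon (Pi.single 1 1 : Fin 2 → ℝ)
    revert e0 e1
    refine Fin.cases ?_ (fun i => Fin.cases ?_ (fun j => j.elim0) i) r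
    · intro e0 e1
      change (cox (stringForm_gram [q]))^[c] (Pi.single 0 1 : Fin 2 → ℝ) 0 =
        (Pi.single 0 1 : Fin 2 → ℝ) 0 at e0
      change (cox (stringForm_gram [q]))^[c] (Pi.single 1 1 : Fin 2 → ℝ) 0 =
        (Pi.single 1 1 : Fin 2 → ℝ) 0 at e1
      rw [e0, v00] at g0
      rw [e1, v10] at g1
      have h0 : sin (2 * c * θ) = 0 := by linear_combination g1.1
      obtain ⟨k, hk⟩ := sin_eq_zero_iff.1 h0
      have h1 : sin ((2 * c + 1) * θ) = sin θ := by linear_combination -g0.1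
      have e : (2 * (c : ℝ) + 1) * θ = θ + k * π := by rw [hk]; ring
      rw [e, sin_add_int_mul_pi] at h1
      exact hkey c hc hcN h0 k hk (mul_right_cancel₀ hsin.ne' (by rw [h1, one_mul]))
    · intro e0 e1
      change (cox (stringForm_gram [q]))^[c] (Pi.single 0 1 : Fin 2 → ℝ) 1 =
        (Pi.single 0 1 : Fin 2 → ℝ) 1 at e0
      change (cox (stringForm_gram [q]))^[c] (Pi.single 1 1 : Fin 2 → ℝ) 1 =
        (Pi.single 1 1 : Fin 2 → ℝ) 1 at e1
      rw [e0, v01] at g0
      rw [e1, v11] at g1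
      have h0 : sin (2 * c * θ) = 0 := by linear_combination -g0.2
      obtain ⟨k, hk⟩ := sin_eq_zero_iff.1 h0
      have h1 : sin ((2 * c - 1) * θ) = - sin θ := by linear_combination g1.2
      have e : (2 * (c : ℝ) - 1) * θ = -θ + k * π := by rw [hk]; ring
      rw [e, sin_add_int_mul_pi, sin_neg] at h1
      exact hkey c hc hcN h0 k hk (mul_right_cancel₀ hsin.ne' (by linear_combination -h1))

end

end Pool.Agent.H20.Petrie
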